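import Mathlib

/-! TEAM MM (helper180): perfect packing of nearly harmonic squares / rectangles, `t = 1`.
Definitions shared by all modules. -/

namespace Pool.Agent.H180R2.MM

/-- An axis-parallel placed rectangle: lower left corner `(x,y)`, width `w`, height `h`. -/
structure PR where
  x : ℝ
  y : ℝ
  w : ℝ
  h : ℝ

/-- separated by a vertical or a horizontal line -/
def Disj (p q : PR) : Prop :=
  p.x + p.w ≤ q.x ∨ q.x + q.w ≤ p.x ∨ p.y + p.h ≤ q.y ∨ q.y + q.h ≤ p.y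

def Inside (p q : PR) : Prop :=
  q.x ≤ p.x ∧ q.y ≤ p.y ∧ p.x + p.w ≤ q.x + q.w ∧ p.y + p.h ≤ q.y + q.h

/-- the placed rectangle `r` is a copy (possibly rotated by 90 degrees) of a `d.1 × d.2` rectangle -/
def Match (d : ℝ × ℝ) (r : PR) : Prop :=
  (r.w = d.1 ∧ r.h = d.2) ∨ (r.w = d.2 ∧ r.h = d.1)

def areaL (Q : List (ℝ × ℝ)) : ℝ := (Q.map fun d => d.1 * d.2).sum

/-- the rectangle `[0,a] × [0,b]` is tiled by rectangles with dimensions `Q` -/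
def Tile (a b : ℝ) (Q : List (ℝ × ℝ)) : Prop :=
  (∃ D : List PR, List.Forall₂ Match Q D ∧ D.Pairwise Disj ∧ ∀ r ∈ D, Inside r ⟨0, 0, a, b⟩) ∧
    areaL Q = a * b

/-- every family of disjoint rectangles with dimensions `P` can be cut into rectangles with
dimensions `Q` -/
def Refines (P Q : List (ℝ × ℝ)) : Prop :=
  (∀ C : List PR, List.Forall₂ Match P C → C.Pairwise Disj →
    ∃ D : List PR, List.Forall₂ Match Q D ∧ D.Pairwise Disj ∧ ∀ r ∈ D, ∃ c ∈ C, Inside r c) ∧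
    areaL P = areaL Q

/-- the potential of an `a × b` rectangle: `max + 5 min + max^{3/2}` -/
noncomputable def Phi (d : ℝ × ℝ) : ℝ :=
  max d.1 d.2 + 5 * min d.1 d.2 + max d.1 d.2 * √(max d.1 d.2)

noncomputable def PhiL (P : List (ℝ × ℝ)) : ℝ := (P.map Phi).sum

/-- threshold: pieces with shorter side in `(wk (k+1), wk k]` are processed at stage `k` -/
noncomputable def wk (k : ℕ) : ℝ := (5 / 3) / 2 ^ k

/-- The sides `y n ≤ x n` of the `n`-th rectangle `R_n`; `1/n` (both), `1/(n+1/2)` (both) and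
`1/n, 1/(n+1)` are the three cases we need. -/
structure Fam (x y : ℕ → ℝ) : Prop where
  lo : ∀ n : ℕ, 1 ≤ n → 1 / ((n : ℝ) + 1) ≤ y n
  le : ∀ n : ℕ, 1 ≤ n → y n ≤ x n
  up : ∀ n : ℕ, 1 ≤ n → x n ≤ 1 / (n : ℝ)
  near : ∀ n : ℕ, 1 ≤ n → x n - y n ≤ 1 / (n : ℝ) ^ 2
  lipx : ∀ m n : ℕ, 1 ≤ m → m ≤ n → x m - x n ≤ ((n : ℝ) - m) / (m : ℝ) ^ 2
  lipy : ∀ m n : ℕ, 1 ≤ m → m ≤ n → y m - y n ≤ ((n : ℝ) - m) / (m : ℝ) ^ 2
  lowx : ∀ m n : ℕ, 1 ≤ m → m ≤ n → ((n : ℝ) - m) / ((n : ℝ) + 1) ^ 2 ≤ x m - x n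
  lowy : ∀ m n : ℕ, 1 ≤ m → m ≤ n → ((n : ℝ) - m) / ((n : ℝ) + 1) ^ 2 ≤ y m - y n

/-- the dimensions of `R_n` -/
def sq (x y : ℕ → ℝ) (n : ℕ) : ℝ × ℝ := (x n, y n)

/-- strictly increasing with gaps at most 2 -/
def Gap2 (V : List ℕ) : Prop := V.IsChain fun a b => a < b ∧ b ≤ a + 2

end Pool.Agent.H180R2.MM
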