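import Pool.Agent.H180R2.MM.Defs

namespace Pool.Agent.H180R2.MM
open Finset

theorem Disj.symm {p q : PR} (h : Disj p q) : Disj q p := by
  unfold Disj at *; tauto

theorem Inside.refl (p : PR) : Inside p p := by simp [Inside]

theorem Inside.trans {p q r : PR} (h1 : Inside p q) (h2 : Inside q r) : Inside p r := by
  unfold Inside at *
  obtain ⟨a1, a2, a3, a4⟩ := h1
  obtain ⟨b1, b2, b3, b4⟩ := h2
  exact ⟨by linarith, by linarith, by linarith, by linarith⟩

theorem Disj.mono {p q p' q' : PR} (h : Disj p q) (hp : Inside p' p) (hq : Inside q' q) :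
    Disj p' q' := by
  unfold Disj at *
  obtain ⟨a1, a2, a3, a4⟩ := hp
  obtain ⟨b1, b2, b3, b4⟩ := hq
  rcases h with h | h | h | h
  · left; linarith
  · right; left; linarith
  · right; right; left; linarith
  · right; right; right; linarith

theorem Match.swap {a b : ℝ} {r : PR} (h : Match (a, b) r) : Match (b, a) r := by
  unfold Match at *; tauto

theorem areaL_nil : areaL [] = 0 := by simp [areaL]

theorem areaL_cons (d : ℝ × ℝ) (Q : List (ℝ × ℝ)) : areaL (d :: Q) = d.1 * d.2 + areaL Q := by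
  simp [areaL]

theorem areaL_append (P Q : List (ℝ × ℝ)) : areaL (P ++ Q) = areaL P + areaL Q := by
  simp [areaL]

theorem areaL_perm {P Q : List (ℝ × ℝ)} (h : P.Perm Q) : areaL P = areaL Q := by
  unfold areaL; exact (h.map _).sum_eq

theorem PhiL_nil : PhiL [] = 0 := by simp [PhiL]

theorem PhiL_cons (d : ℝ × ℝ) (Q : List (ℝ × ℝ)) : PhiL (d :: Q) = Phi d + PhiL Q := by
  simp [PhiL]

theorem PhiL_append (P Q : List (ℝ × ℝ)) : PhiL (P ++ Q) = PhiL P + PhiL Q := by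
  simp [PhiL]

theorem PhiL_perm {P Q : List (ℝ × ℝ)} (h : P.Perm Q) : PhiL P = PhiL Q := by
  unfold PhiL; exact (h.map _).sum_eq

theorem Phi_swap (a b : ℝ) : Phi (a, b) = Phi (b, a) := by
  simp [Phi, max_comm, min_comm]

theorem Phi_nonneg {d : ℝ × ℝ} (h1 : 0 ≤ d.1) (h2 : 0 ≤ d.2) : 0 ≤ Phi d := by
  unfold Phi
  have h3 : 0 ≤ max d.1 d.2 := le_max_of_le_left h1
  have h4 : 0 ≤ min d.1 d.2 := le_min h1 h2
  positivity

theorem PhiL_nonneg {P : List (ℝ × ℝ)} (h : ∀ p ∈ P, 0 ≤ p.1 ∧ 0 ≤ p.2) : 0 ≤ PhiL P := by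
  unfold PhiL
  apply List.sum_nonneg
  intro z hz
  obtain ⟨p, hp, rfl⟩ := List.mem_map.1 hz
  exact Phi_nonneg (h p hp).1 (h p hp).2

theorem Phi_le_PhiL {P : List (ℝ × ℝ)} (h : ∀ p ∈ P, 0 ≤ p.1 ∧ 0 ≤ p.2) {d : ℝ × ℝ} (hd : d ∈ P) :
    Phi d ≤ PhiL P := by
  induction P with
  | nil => simp at hd
  | cons a P ih =>
    rw [PhiL_cons]
    have ha := Phi_nonneg (h a (by simp)).1 (h a (by simp)).2
    have hP := PhiL_nonneg (P := P) (fun p hp => h p (by simp [hp]))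
    rcases List.mem_cons.1 hd with rfl | hd
    · linarith
    · have := ih (fun p hp => h p (by simp [hp])) hd
      linarith

theorem max_le_Phi {d : ℝ × ℝ} (h1 : 0 ≤ d.1) (h2 : 0 ≤ d.2) : max d.1 d.2 ≤ Phi d := by
  unfold Phi
  have h3 : 0 ≤ max d.1 d.2 := le_max_of_le_left h1
  have h4 : 0 ≤ min d.1 d.2 := le_min h1 h2
  have h5 : 0 ≤ max d.1 d.2 * √(max d.1 d.2) := by positivity
  linarith

/-- `Phi d ≤ 7 m` if both sides are at most `m ≤ 1`. -/
theorem Phi_le_seven {d : ℝ × ℝ} {m : ℝ} (h1 : 0 ≤ d.1) (h2 : 0 ≤ d.2) (h3 : d.1 ≤ m)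
    (h4 : d.2 ≤ m) (hm : m ≤ 1) : Phi d ≤ 7 * m := by
  unfold Phi
  have h5 : 0 ≤ max d.1 d.2 := le_max_of_le_left h1
  have h6 : max d.1 d.2 ≤ m := max_le h3 h4
  have h7 : min d.1 d.2 ≤ m := (min_le_left _ _).trans h3
  have h8 : √(max d.1 d.2) ≤ 1 := by
    rw [Real.sqrt_le_left (by norm_num)]; linarith
  have h9 : max d.1 d.2 * √(max d.1 d.2) ≤ m * 1 :=
    mul_le_mul h6 h8 (Real.sqrt_nonneg _) (by linarith)
  linarith

theorem area_le_Phi {d : ℝ × ℝ} {v : ℝ} (h1 : 0 ≤ d.1) (h2 : 0 ≤ d.2) (h3 : min d.1 d.2 ≤ v) :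
    d.1 * d.2 ≤ Phi d * v := by
  have h4 := max_le_Phi h1 h2
  have h5 : d.1 * d.2 = max d.1 d.2 * min d.1 d.2 := by
    rcases le_total d.1 d.2 with h | h
    · rw [max_eq_right h, min_eq_left h]; ring
    · rw [max_eq_left h, min_eq_right h]
  rw [h5]
  exact mul_le_mul h4 h3 (le_min h1 h2) (Phi_nonneg h1 h2)

theorem areaL_le_PhiL {P : List (ℝ × ℝ)} {v : ℝ}
    (h : ∀ p ∈ P, 0 ≤ p.1 ∧ 0 ≤ p.2 ∧ min p.1 p.2 ≤ v) : areaL P ≤ PhiL P * v := by
  induction P with
  | nil => simp [areaL, PhiL]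
  | cons a P ih =>
    rw [areaL_cons, PhiL_cons, add_mul]
    have h1 := h a (by simp)
    exact add_le_add (area_le_Phi h1.1 h1.2.1 h1.2.2) (ih fun p hp => h p (by simp [hp]))

theorem areaL_nonneg {P : List (ℝ × ℝ)} (h : ∀ p ∈ P, 0 ≤ p.1 ∧ 0 ≤ p.2) : 0 ≤ areaL P := by
  unfold areaL
  apply List.sum_nonneg
  intro z hz
  obtain ⟨p, hp, rfl⟩ := List.mem_map.1 hz
  exact mul_nonneg (h p hp).1 (h p hp).2

theorem Refines.refl (P : List (ℝ × ℝ)) : Refines P P :=
  ⟨fun C hC hD => ⟨C, hC, hD, fun r hr => ⟨r, hr, Inside.refl r⟩⟩, rfl⟩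

theorem Refines.trans {P Q R : List (ℝ × ℝ)} (h1 : Refines P Q) (h2 : Refines Q R) :
    Refines P R := by
  refine ⟨fun C hC hD => ?_, h1.2.trans h2.2⟩
  obtain ⟨D, hD1, hD2, hD3⟩ := h1.1 C hC hD
  obtain ⟨E, hE1, hE2, hE3⟩ := h2.1 D hD1 hD2
  refine ⟨E, hE1, hE2, fun r hr => ?_⟩
  obtain ⟨c, hc, hrc⟩ := hE3 r hr
  obtain ⟨c', hc', hcc'⟩ := hD3 c hc
  exact ⟨c', hc', hrc.trans hcc'⟩

theorem Refines.append {P Q P' Q' : List (ℝ × ℝ)} (h1 : Refines P Q) (h2 : Refines P' Q') :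
    Refines (P ++ P') (Q ++ Q') := by
  refine ⟨fun C hC hD => ?_, by rw [areaL_append, areaL_append, h1.2, h2.2]⟩
  obtain ⟨C1, C2, hC1, hC2, rfl⟩ : ∃ C1 C2, List.Forall₂ Match P C1 ∧ List.Forall₂ Match P' C2 ∧
      C = C1 ++ C2 := by
    refine ⟨C.take P.length, C.drop P.length, ?_, ?_, (List.take_append_drop _ _).symm⟩
    · have := List.forall₂_take P.length hC
      simpa using this
    · have := List.forall₂_drop P.length hC
      simpa using this
  rw [List.pairwise_append] at hD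
  obtain ⟨hD1, hD2, hD3⟩ := hD
  obtain ⟨D, hDm, hDp, hDi⟩ := h1.1 C1 hC1 hD1
  obtain ⟨D', hDm', hDp', hDi'⟩ := h2.1 C2 hC2 hD2
  refine ⟨D ++ D', List.rel_append hDm hDm', ?_, ?_⟩
  · rw [List.pairwise_append]
    refine ⟨hDp, hDp', fun r hr r' hr' => ?_⟩
    obtain ⟨c, hc, hrc⟩ := hDi r hr
    obtain ⟨c', hc', hrc'⟩ := hDi' r' hr'
    exact (hD3 c hc c' hc').mono hrc hrc'
  · intro r hr
    rcases List.mem_append.1 hr with hr | hr
    · obtain ⟨c, hc, hrc⟩ := hDi r hr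
      exact ⟨c, List.mem_append_left _ hc, hrc⟩
    · obtain ⟨c, hc, hrc⟩ := hDi' r hr
      exact ⟨c, List.mem_append_right _ hc, hrc⟩

theorem Refines.of_perm {P Q : List (ℝ × ℝ)} (h : P.Perm Q) : Refines P Q := by
  refine ⟨fun C hC hD => ?_, areaL_perm h⟩
  obtain ⟨D, hD1, hD2⟩ := List.perm_comp_forall₂ h.symm hC
  refine ⟨D, hD1, ?_, ?_⟩
  · exact (hD2.symm.pairwise_iff (fun {a b} => Disj.symm)).1 hD
  · intro r hr
    exact ⟨r, hD2.subset hr, Inside.refl r⟩

theorem Tile.of_perm {a b : ℝ} {Q Q' : List (ℝ × ℝ)} (h : Tile a b Q) (hp : Q.Perm Q') :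
    Tile a b Q' := by
  obtain ⟨⟨C, hC, hP, hI⟩, hA⟩ := h
  refine ⟨?_, by rw [← areaL_perm hp, hA]⟩
  obtain ⟨D, hD1, hD2⟩ := List.perm_comp_forall₂ hp.symm hC
  refine ⟨D, hD1, ?_, ?_⟩
  · exact (hD2.symm.pairwise_iff (fun {a b} => Disj.symm)).1 hP
  · intro r hr
    exact hI r (hD2.subset hr)

theorem Refines.of_tile {a b : ℝ} {Q : List (ℝ × ℝ)} (h : Tile a b Q) : Refines [(a, b)] Q := by
  obtain ⟨⟨D, hD, hP, hI⟩, hA⟩ := h
  refine ⟨fun C hC _ => ?_, by rw [hA]; simp [areaL]⟩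
  obtain ⟨c, rfl⟩ : ∃ c, C = [c] := by
    have := hC.length_eq
    simp at this
    exact List.length_eq_one_iff.1 this.symm
  have hm : Match (a, b) c := by simpa using hC
  rcases hm with ⟨h1, h2⟩ | ⟨h1, h2⟩
  · simp only at h1 h2
    refine ⟨D.map fun r => ⟨c.x + r.x, c.y + r.y, r.w, r.h⟩, ?_, ?_, ?_⟩
    · rw [List.forall₂_map_right_iff]
      refine hD.imp ?_
      intro d r h
      simpa [Match] using h
    · rw [List.pairwise_map]
      refine hP.imp ?_
      intro p q h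
      unfold Disj at *
      simp only
      rcases h with h | h | h | h
      · left; linarith
      · right; left; linarith
      · right; right; left; linarith
      · right; right; right; linarith
    · intro r hr
      obtain ⟨r', hr', rfl⟩ := List.mem_map.1 hr
      obtain ⟨i1, i2, i3, i4⟩ := hI r' hr'
      simp only at i1 i2 i3 i4
      refine ⟨c, by simp, ?_, ?_, ?_, ?_⟩ <;> simp only <;> linarith
  · simp only at h1 h2
    refine ⟨D.map fun r => ⟨c.x + r.y, c.y + r.x, r.h, r.w⟩, ?_, ?_, ?_⟩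
    · rw [List.forall₂_map_right_iff]
      refine hD.imp ?_
      intro d r h
      unfold Match at *
      simp only
      tauto
    · rw [List.pairwise_map]
      refine hP.imp ?_
      intro p q h
      unfold Disj at *
      simp only
      rcases h with h | h | h | h
      · right; right; left; linarith
      · right; right; right; linarith
      · left; linarith
      · right; left; linarith
    · intro r hr
      obtain ⟨r', hr', rfl⟩ := List.mem_map.1 hr
      obtain ⟨i1, i2, i3, i4⟩ := hI r' hr'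
      simp only at i1 i2 i3 i4
      refine ⟨c, by simp, ?_, ?_, ?_, ?_⟩ <;> simp only <;> linarith

theorem Refines.swap (a b : ℝ) : Refines [(a, b)] [(b, a)] := by
  refine ⟨fun C hC hD => ⟨C, ?_, hD, fun r hr => ⟨r, hr, Inside.refl r⟩⟩, ?_⟩
  · obtain ⟨c, rfl⟩ : ∃ c, C = [c] := by
      have := hC.length_eq
      simp at this
      exact List.length_eq_one_iff.1 this.symm
    have hm : Match (a, b) c := by simpa using hC
    simpa using hm.swap
  · simp [areaL, mul_comm]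

theorem Refines.cut {a b c : ℝ} (ha : 0 ≤ a) (hb : 0 ≤ b) (hc : 0 ≤ c) :
    Refines [(a, b + c)] [(a, b), (a, c)] := by
  apply Refines.of_tile
  refine ⟨⟨[⟨0, 0, a, b⟩, ⟨0, b, a, c⟩], ?_, ?_, ?_⟩, ?_⟩
  · simp [Match]
  · simp [Disj]
  · intro r hr
    simp only [List.mem_cons, List.not_mem_nil, or_false] at hr
    rcases hr with rfl | rfl
    · refine ⟨by simp, by simp, by simp, ?_⟩
      simp only; linarith
    · refine ⟨by simp, by simpa using hb, by simp, ?_⟩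
      simp only; linarith
  · simp [areaL]; ring

theorem Tile.of_fintype {ι : Type} [Fintype ι] (a b : ℝ) (d : ι → ℝ × ℝ) (r : ι → PR)
    (hm : ∀ i, Match (d i) (r i)) (hd : ∀ i j, i ≠ j → Disj (r i) (r j))
    (hi : ∀ i, Inside (r i) ⟨0, 0, a, b⟩) (ha : ∑ i, (d i).1 * (d i).2 = a * b) :
    Tile a b ((Finset.univ : Finset ι).toList.map d) := by
  refine ⟨⟨(Finset.univ : Finset ι).toList.map r, ?_, ?_, ?_⟩, ?_⟩
  · rw [List.forall₂_map_left_iff, List.forall₂_map_right_iff, List.forall₂_same]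
    intro i _
    exact hm i
  · rw [List.pairwise_map]
    exact (Finset.nodup_toList _).pairwise_of_forall_ne fun i _ j _ hij => hd i j hij
  · intro s hs
    obtain ⟨i, _, rfl⟩ := List.mem_map.1 hs
    exact hi i
  · rw [← ha]
    unfold areaL
    rw [List.map_map, Finset.sum_map_toList]
    rfl

end Pool.Agent.H180R2.MM
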