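import Pool.Agent.H180R2.MM.Defs

/-! TEAM MM, module F: the `M`-row grid with pinwheel holes. -/

namespace Pool.Agent.H180R2.MM
open Finset

namespace Gr

/-- left end of column `i` in row `j` -/
noncomputable def X (u : ℕ → ℕ → ℝ) (i j : ℕ) : ℝ := ∑ i' ∈ range i, u i' j

/-- top of row `j` in column `i` -/
noncomputable def Y (M : ℕ) (v : ℕ → ℕ → ℝ) (i j : ℕ) : ℝ := ∑ j' ∈ Ico j M, v i j'

theorem X_succ (u : ℕ → ℕ → ℝ) (i j : ℕ) : X u (i + 1) j = X u i j + u i j :=
  sum_range_succ _ _

theorem Y_succ {M : ℕ} (v : ℕ → ℕ → ℝ) (i : ℕ) {j : ℕ} (hj : j < M) :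
    Y M v i j = Y M v i (j + 1) + v i j := by
  unfold Y
  rw [sum_eq_sum_Ico_succ_bot hj, add_comm]

theorem Y_zero (M : ℕ) (v : ℕ → ℕ → ℝ) (i : ℕ) : Y M v i 0 = ∑ j ∈ range M, v i j := by
  unfold Y
  rw [range_eq_Ico]

theorem X_diff (u : ℕ → ℕ → ℝ) (i j : ℕ) :
    ∑ i' ∈ range (i + 1), (u i' j - u i' (j + 1)) = X u (i + 1) j - X u (i + 1) (j + 1) := by
  unfold X
  rw [sum_sub_distrib]

theorem Y_diff (M : ℕ) (v : ℕ → ℕ → ℝ) (i j : ℕ) :
    ∑ j' ∈ Ico (j + 1) M, (v i j' - v (i + 1) j') = Y M v i (j + 1) - Y M v (i + 1) (j + 1) := by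
  unfold Y
  rw [sum_sub_distrib]

section geom

variable {c M : ℕ} {u v : ℕ → ℕ → ℝ}

theorem X1 (hu : ∀ i < c, ∀ j < M, 0 ≤ u i j) {i i' j : ℕ} (h : i ≤ i') (hi : i' ≤ c) (hj : j < M) :
    X u i j ≤ X u i' j := by
  unfold X
  refine sum_le_sum_of_subset_of_nonneg (range_subset_range.2 h) fun a ha _ => hu a ?_ j hj
  exact lt_of_lt_of_le (mem_range.1 ha) hi

theorem X2 (hmu : ∀ i < c, ∀ j, j + 1 < M → u i (j + 1) ≤ u i j) {i j j' : ℕ} (h : j ≤ j')
    (hi : i ≤ c) (hj : j' < M) : X u i j' ≤ X u i j := by
  induction j', h using Nat.le_induction with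
  | base => exact le_rfl
  | succ n hn ih =>
    refine le_trans ?_ (ih (by omega))
    unfold X
    exact sum_le_sum fun a ha => hmu a (lt_of_lt_of_le (mem_range.1 ha) hi) n hj

theorem Y1 (hv : ∀ i < c, ∀ j < M, 0 ≤ v i j) {i j j' : ℕ} (h : j ≤ j') (hi : i < c) :
    Y M v i j' ≤ Y M v i j := by
  unfold Y
  refine sum_le_sum_of_subset_of_nonneg (Ico_subset_Ico_left h) fun a ha _ => hv i hi a ?_
  exact (mem_Ico.1 ha).2

theorem Y2 (hmv : ∀ i, i + 1 < c → ∀ j < M, v (i + 1) j ≤ v i j) {i i' j : ℕ} (h : i ≤ i')
    (hi : i' < c) : Y M v i' j ≤ Y M v i j := by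
  induction i', h using Nat.le_induction with
  | base => exact le_rfl
  | succ n hn ih =>
    refine le_trans ?_ (ih (by omega))
    unfold Y
    exact sum_le_sum fun a ha => hmv n hi a (mem_Ico.1 ha).2

theorem X_nonneg (hu : ∀ i < c, ∀ j < M, 0 ≤ u i j) {i j : ℕ} (hi : i ≤ c) (hj : j < M) :
    0 ≤ X u i j := by
  have := X1 hu (Nat.zero_le i) hi hj
  simpa [X] using this

theorem Y_nonneg (hv : ∀ i < c, ∀ j < M, 0 ≤ v i j) {i j : ℕ} (hi : i < c) : 0 ≤ Y M v i j := by
  unfold Y
  exact sum_nonneg fun a ha => hv i hi a (mem_Ico.1 ha).2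

end geom

/-- the squares -/
noncomputable def rS (M : ℕ) (u v : ℕ → ℕ → ℝ) (i j : ℕ) : PR :=
  ⟨X u i j, Y M v i (j + 1), u i j, v i j⟩

/-- the holes -/
noncomputable def rH (M : ℕ) (u v : ℕ → ℕ → ℝ) (i j : ℕ) : PR :=
  ⟨X u (i + 1) (j + 1), Y M v (i + 1) (j + 1), ∑ i' ∈ range (i + 1), (u i' j - u i' (j + 1)),
    ∑ j' ∈ Ico (j + 1) M, (v i j' - v (i + 1) j')⟩

/-- the top pieces -/
noncomputable def rT (M : ℕ) (u v : ℕ → ℕ → ℝ) (T : ℝ) (i : ℕ) : PR :=
  ⟨X u i 0, Y M v i 0, u i 0, T - ∑ j ∈ range M, v i j⟩

/-- the right pieces -/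
noncomputable def rR (c M : ℕ) (u v : ℕ → ℕ → ℝ) (W : ℝ) (j : ℕ) : PR :=
  ⟨X u c j, Y M v (c - 1) (j + 1), W - ∑ i ∈ range c, u i j, v (c - 1) j⟩

/-- the corner -/
noncomputable def rC (c M : ℕ) (u v : ℕ → ℕ → ℝ) (W T : ℝ) : PR :=
  ⟨X u c 0, Y M v (c - 1) 0, W - ∑ i ∈ range c, u i 0, T - ∑ j ∈ range M, v (c - 1) j⟩

def dim (r : PR) : ℝ × ℝ := (r.w, r.h)

theorem forall₂_dim (D : List PR) : List.Forall₂ Match (D.map dim) D := by
  rw [List.forall₂_map_left_iff]
  exact List.forall₂_same.2 fun x _ => Or.inl ⟨rfl, rfl⟩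

theorem areaL_append (P Q : List (ℝ × ℝ)) : areaL (P ++ Q) = areaL P + areaL Q := by
  simp [areaL]

theorem sum_list_range (n : ℕ) (f : ℕ → ℝ) : ((List.range n).map f).sum = ∑ i ∈ range n, f i := by
  induction n with
  | zero => simp
  | succ n ih => rw [List.range_succ, List.map_append, List.sum_append, ih, sum_range_succ]; simp

theorem areaL_range (n : ℕ) (f : ℕ → ℝ × ℝ) :
    areaL ((List.range n).map f) = ∑ i ∈ range n, (f i).1 * (f i).2 := by
  unfold areaL
  rw [List.map_map, ← sum_list_range]
  rfl

theorem areaL_flat (n m : ℕ) (f : ℕ → ℕ → ℝ × ℝ) :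
    areaL ((List.range n).flatMap fun i => (List.range m).map fun j => f i j) =
      ∑ i ∈ range n, ∑ j ∈ range m, (f i j).1 * (f i j).2 := by
  induction n with
  | zero => simp [areaL]
  | succ n ih =>
    rw [List.range_succ, List.flatMap_append, areaL_append, ih, sum_range_succ]
    congr 1
    rw [List.flatMap_singleton, areaL_range]

theorem sum_divmod (c M : ℕ) (hM : 1 ≤ M) (f : ℕ → ℕ → ℝ) :
    ∑ t ∈ range (c * M), f (t / M) (t % M) = ∑ i ∈ range c, ∑ j ∈ range M, f i j := by
  induction c with
  | zero => simp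
  | succ c ih =>
    rw [Nat.succ_mul, sum_range_add, ih, sum_range_succ]
    congr 1
    refine sum_congr rfl fun j hj => ?_
    have hj' := mem_range.1 hj
    rw [show (c * M + j) / M = c by
      rw [mul_comm, Nat.mul_add_div (by omega), Nat.div_eq_of_lt hj', add_zero],
      show (c * M + j) % M = j by
      rw [mul_comm, Nat.mul_add_mod, Nat.mod_eq_of_lt hj']]

/-- Abel summation -/
theorem abel (n : ℕ) (a e : ℕ → ℝ) :
    ∑ j ∈ range (n + 1), a j * (e j - e (j + 1)) =
      a 0 * e 0 - a n * e (n + 1) + ∑ j ∈ range n, (a (j + 1) - a j) * e (j + 1) := by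
  induction n with
  | zero => simp; ring
  | succ n ih =>
    rw [sum_range_succ, ih, sum_range_succ _ n]
    ring

/-- telescoping in the other direction -/
theorem abel' (n : ℕ) (a e : ℕ → ℝ) :
    ∑ i ∈ range (n + 1), (a (i + 1) - a i) * e i =
      a (n + 1) * e n - a 0 * e 0 + ∑ i ∈ range n, a (i + 1) * (e i - e (i + 1)) := by
  induction n with
  | zero => simp; ring
  | succ n ih =>
    rw [sum_range_succ, ih, sum_range_succ _ n]
    ring

end Gr

open Gr in
/-- `c` columns, `M` rows; the rectangle in column `i` (from the left) and row `j` (from the TOP)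
has width `u i j` and height `v i j`, nonincreasing in `i` and in `j`. It occupies
`[X i j, X (i+1) j] × [Y i (j+1), Y i j]` where `X i j = ∑ i' < i, u i' j`,
`Y i j = ∑ j ≤ j' < M, v i j'`. -/
theorem grid (c M : ℕ) (hc : 1 ≤ c) (hM : 1 ≤ M) (u v : ℕ → ℕ → ℝ)
    (hu : ∀ i < c, ∀ j < M, 0 ≤ u i j) (hv : ∀ i < c, ∀ j < M, 0 ≤ v i j)
    (hmu : ∀ i < c, ∀ j, j + 1 < M → u i (j + 1) ≤ u i j)
    (hmv : ∀ i, i + 1 < c → ∀ j < M, v (i + 1) j ≤ v i j)
    (W T : ℝ) (hW : ∀ j < M, ∑ i ∈ range c, u i j ≤ W) (hT : ∀ i < c, ∑ j ∈ range M, v i j ≤ T) :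
    Tile W T (((List.range (c * M)).map fun t => (u (t / M) (t % M), v (t / M) (t % M))) ++
      (((List.range (c - 1)).flatMap fun i => (List.range (M - 1)).map fun j =>
          (∑ i' ∈ range (i + 1), (u i' j - u i' (j + 1)),
            ∑ j' ∈ Ico (j + 1) M, (v i j' - v (i + 1) j'))) ++
      (((List.range c).map fun i => (u i 0, T - ∑ j ∈ range M, v i j)) ++
      (((List.range M).map fun j => (W - ∑ i ∈ range c, u i j, v (c - 1) j)) ++
      [(W - ∑ i ∈ range c, u i 0, T - ∑ j ∈ range M, v (c - 1) j)])))) := by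
  -- the placed rectangles
  set D1 : List PR := (List.range (c * M)).map fun t => rS M u v (t / M) (t % M) with hD1
  set D2 : List PR := (List.range (c - 1)).flatMap fun i => (List.range (M - 1)).map fun j =>
    rH M u v i j with hD2
  set D3 : List PR := (List.range c).map fun i => rT M u v T i with hD3
  set D4 : List PR := (List.range M).map fun j => rR c M u v W j with hD4
  set D5 : List PR := [rC c M u v W T] with hD5
  have m1 : ∀ r ∈ D1, ∃ i j, i < c ∧ j < M ∧ r = rS M u v i j := by
    intro r hr
    obtain ⟨t, ht, rfl⟩ := List.mem_map.1 hr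
    have ht' := List.mem_range.1 ht
    exact ⟨t / M, t % M, Nat.div_lt_of_lt_mul (by rwa [mul_comm]), Nat.mod_lt _ (by omega), rfl⟩
  have m2 : ∀ r ∈ D2, ∃ i j, i + 1 < c ∧ j + 1 < M ∧ r = rH M u v i j := by
    intro r hr
    obtain ⟨i, hi, hr'⟩ := List.mem_flatMap.1 hr
    obtain ⟨j, hj, rfl⟩ := List.mem_map.1 hr'
    have hi' := List.mem_range.1 hi
    have hj' := List.mem_range.1 hj
    exact ⟨i, j, by omega, by omega, rfl⟩
  have m3 : ∀ r ∈ D3, ∃ i, i < c ∧ r = rT M u v T i := by
    intro r hr
    obtain ⟨i, hi, rfl⟩ := List.mem_map.1 hr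
    exact ⟨i, List.mem_range.1 hi, rfl⟩
  have m4 : ∀ r ∈ D4, ∃ j, j < M ∧ r = rR c M u v W j := by
    intro r hr
    obtain ⟨j, hj, rfl⟩ := List.mem_map.1 hr
    exact ⟨j, List.mem_range.1 hj, rfl⟩
  have m5 : ∀ r ∈ D5, r = rC c M u v W T := by
    intro r hr
    simpa [hD5] using hr
  have X1' := @X1 c M u hu
  have X2' := @X2 c M u hmu
  have Y1' := @Y1 c M v hv
  have Y2' := @Y2 c M v hmv
  have hXW : ∀ i ≤ c, ∀ j < M, X u i j ≤ W := fun i hi j hj => (X1' hi le_rfl hj).trans (hW j hj)
  have hYT : ∀ i < c, ∀ j, Y M v i j ≤ T := fun i hi j =>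
    (Y1' (Nat.zero_le j) hi).trans (by rw [Y_zero]; exact hT i hi)
  -- right and top ends
  have eSx : ∀ i j, (rS M u v i j).x + (rS M u v i j).w = X u (i + 1) j := fun i j =>
    (X_succ u i j).symm
  have eSy : ∀ i j, j < M → (rS M u v i j).y + (rS M u v i j).h = Y M v i j := fun i j hj =>
    (Y_succ v i hj).symm
  have eHx : ∀ i j, (rH M u v i j).x + (rH M u v i j).w = X u (i + 1) j := by
    intro i j
    show X u (i + 1) (j + 1) + _ = _
    rw [show (rH M u v i j).w = _ from X_diff u i j]
    ring
  have eHy : ∀ i j, (rH M u v i j).y + (rH M u v i j).h = Y M v i (j + 1) := by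
    intro i j
    show Y M v (i + 1) (j + 1) + _ = _
    rw [show (rH M u v i j).h = _ from Y_diff M v i j]
    ring
  have eTx : ∀ i, (rT M u v T i).x + (rT M u v T i).w = X u (i + 1) 0 := fun i =>
    (X_succ u i 0).symm
  have eTy : ∀ i, (rT M u v T i).y + (rT M u v T i).h = T := by
    intro i
    show Y M v i 0 + (T - ∑ j ∈ range M, v i j) = T
    rw [Y_zero]
    ring
  have eRx : ∀ j, (rR c M u v W j).x + (rR c M u v W j).w = W := by
    intro j
    show X u c j + (W - ∑ i ∈ range c, u i j) = W
    unfold X
    ring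
  have eRy : ∀ j < M, (rR c M u v W j).y + (rR c M u v W j).h = Y M v (c - 1) j := fun j hj =>
    (Y_succ v (c - 1) hj).symm
  have eCx : (rC c M u v W T).x + (rC c M u v W T).w = W := by
    show X u c 0 + (W - ∑ i ∈ range c, u i 0) = W
    unfold X
    ring
  have eCy : (rC c M u v W T).y + (rC c M u v W T).h = T := by
    show Y M v (c - 1) 0 + (T - ∑ j ∈ range M, v (c - 1) j) = T
    rw [Y_zero]
    ring
  refine ⟨⟨D1 ++ (D2 ++ (D3 ++ (D4 ++ D5))), ?_, ?_, ?_⟩, ?_⟩
  · -- matching
    have : (D1 ++ (D2 ++ (D3 ++ (D4 ++ D5)))).map dim =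
        (((List.range (c * M)).map fun t => (u (t / M) (t % M), v (t / M) (t % M))) ++
      (((List.range (c - 1)).flatMap fun i => (List.range (M - 1)).map fun j =>
          (∑ i' ∈ range (i + 1), (u i' j - u i' (j + 1)),
            ∑ j' ∈ Ico (j + 1) M, (v i j' - v (i + 1) j'))) ++
      (((List.range c).map fun i => (u i 0, T - ∑ j ∈ range M, v i j)) ++
      (((List.range M).map fun j => (W - ∑ i ∈ range c, u i j, v (c - 1) j)) ++
      [(W - ∑ i ∈ range c, u i 0, T - ∑ j ∈ range M, v (c - 1) j)])))) := by
      simp only [hD1, hD2, hD3, hD4, hD5, List.map_append, List.map_map, List.map_flatMap,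
        List.map_cons, List.map_nil]
      rfl
    rw [← this]
    exact forall₂_dim _
  · -- disjointness
    have p1 : D1.Pairwise Disj := by
      rw [hD1, List.pairwise_map]
      refine List.Pairwise.imp_of_mem ?_ List.pairwise_lt_range
      intro t t' ht ht' hlt
      have ht0 := List.mem_range.1 ht
      have ht0' := List.mem_range.1 ht'
      have hj : t % M < M := Nat.mod_lt _ (by omega)
      have hj' : t' % M < M := Nat.mod_lt _ (by omega)
      have hi : t / M < c := Nat.div_lt_of_lt_mul (by rwa [mul_comm])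
      have hi' : t' / M < c := Nat.div_lt_of_lt_mul (by rwa [mul_comm])
      have hle : t / M ≤ t' / M := Nat.div_le_div_right hlt.le
      rcases hle.lt_or_eq with hlt' | heq
      · rcases le_or_gt (t' % M) (t % M) with hjj | hjj
        · left
          rw [eSx]
          exact (X2' hjj (by omega) hj).trans (X1' (by omega) (by omega) hj')
        · right; right; right
          rw [eSy _ _ hj']
          exact (Y1' (by omega : t % M + 1 ≤ t' % M) hi').trans (Y2' hle hi')
      · have hmod : t % M < t' % M := by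
          have e1 := Nat.div_add_mod t M
          have e2 := Nat.div_add_mod t' M
          rw [heq] at e1
          omega
        right; right; right
        rw [eSy _ _ hj', ← heq]
        exact Y1' (by omega : t % M + 1 ≤ t' % M) hi
    have p2 : D2.Pairwise Disj := by
      rw [hD2, List.pairwise_flatMap]
      constructor
      · intro i hi
        have hi' := List.mem_range.1 hi
        rw [List.pairwise_map]
        refine List.Pairwise.imp_of_mem ?_ List.pairwise_lt_range
        intro j j' hj hj' hlt
        have hj0 := List.mem_range.1 hj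
        have hj0' := List.mem_range.1 hj'
        right; left
        rw [eHx]
        exact X2' (by omega : j + 1 ≤ j') (by omega) (by omega)
      · refine List.Pairwise.imp_of_mem ?_ List.pairwise_lt_range
        intro i i' hi hi' hlt p hp q hq
        have hi0 := List.mem_range.1 hi
        have hi0' := List.mem_range.1 hi'
        obtain ⟨j, hj, rfl⟩ := List.mem_map.1 hp
        obtain ⟨j', hj', rfl⟩ := List.mem_map.1 hq
        have hj0 := List.mem_range.1 hj
        have hj0' := List.mem_range.1 hj'
        rcases le_or_gt j j' with hjj | hjj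
        · right; right; right
          rw [eHy]
          exact (Y2' (by omega : i + 1 ≤ i') (by omega)).trans
            (Y1' (by omega : j + 1 ≤ j' + 1) (by omega))
        · left
          rw [eHx]
          exact (X2' (by omega : j' + 1 ≤ j) (by omega) (by omega)).trans
            (X1' (by omega : i + 1 ≤ i' + 1) (by omega) (by omega))
    have p3 : D3.Pairwise Disj := by
      rw [hD3, List.pairwise_map]
      refine List.Pairwise.imp_of_mem ?_ List.pairwise_lt_range
      intro i i' hi hi' hlt
      have hi0 := List.mem_range.1 hi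
      have hi0' := List.mem_range.1 hi'
      left
      rw [eTx]
      exact X1' (by omega) (by omega) (by omega)
    have p4 : D4.Pairwise Disj := by
      rw [hD4, List.pairwise_map]
      refine List.Pairwise.imp_of_mem ?_ List.pairwise_lt_range
      intro j j' hj hj' hlt
      have hj0 := List.mem_range.1 hj
      have hj0' := List.mem_range.1 hj'
      right; right; right
      rw [eRy _ hj0']
      exact Y1' (by omega : j + 1 ≤ j') (by omega)
    have p5 : D5.Pairwise Disj := by
      rw [hD5]
      exact List.pairwise_singleton _ _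
    have p45 : (D4 ++ D5).Pairwise Disj := by
      rw [List.pairwise_append]
      refine ⟨p4, p5, ?_⟩
      intro a ha b hb
      obtain ⟨j, hj, rfl⟩ := m4 a ha
      obtain rfl := m5 b hb
      right; right; left
      rw [eRy _ hj]
      exact Y1' (Nat.zero_le j) (by omega)
    have p345 : (D3 ++ (D4 ++ D5)).Pairwise Disj := by
      rw [List.pairwise_append]
      refine ⟨p3, p45, ?_⟩
      intro a ha b hb
      obtain ⟨i, hi, rfl⟩ := m3 a ha
      rcases List.mem_append.1 hb with hb | hb
      · obtain ⟨j, hj, rfl⟩ := m4 b hb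
        right; right; right
        rw [eRy _ hj]
        exact (Y1' (Nat.zero_le j) (by omega)).trans (Y2' (by omega) (by omega))
      · obtain rfl := m5 b hb
        left
        rw [eTx]
        exact X1' (by omega) (by omega) (by omega)
    have p2345 : (D2 ++ (D3 ++ (D4 ++ D5))).Pairwise Disj := by
      rw [List.pairwise_append]
      refine ⟨p2, p345, ?_⟩
      intro a ha b hb
      obtain ⟨i, j, hi, hj, rfl⟩ := m2 a ha
      rcases List.mem_append.1 hb with hb | hb
      · obtain ⟨i', hi', rfl⟩ := m3 b hb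
        rcases le_or_gt i' i with h | h
        · right; right; left
          rw [eHy]
          exact (Y2' h (by omega)).trans (Y1' (Nat.zero_le _) (by omega))
        · left
          rw [eHx]
          exact (X2' (Nat.zero_le j) (by omega) (by omega)).trans
            (X1' (by omega) (by omega) (by omega))
      · rcases List.mem_append.1 hb with hb | hb
        · obtain ⟨j', hj', rfl⟩ := m4 b hb
          rcases le_or_gt j' j with h | h
          · left
            rw [eHx]
            exact (X2' h (by omega) (by omega)).trans (X1' (by omega) (by omega) (by omega))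
          · right; right; right
            rw [eRy _ hj']
            exact (Y1' (by omega : j + 1 ≤ j') (by omega)).trans (Y2' (by omega) (by omega))
        · obtain rfl := m5 b hb
          left
          rw [eHx]
          exact (X2' (Nat.zero_le j) (by omega) (by omega)).trans
            (X1' (by omega) (by omega) (by omega))
    rw [List.pairwise_append]
    refine ⟨p1, p2345, ?_⟩
    intro a ha b hb
    obtain ⟨i, j, hi, hj, rfl⟩ := m1 a ha
    rcases List.mem_append.1 hb with hb | hb
    · obtain ⟨i', j', hi', hj', rfl⟩ := m2 b hb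
      -- square (i,j), hole (i',j')
      rcases le_or_gt i i' with h | h
      · rcases le_or_gt j j' with h' | h'
        · -- square above the hole
          right; right; right
          rw [eHy]
          exact (Y2' h (by omega)).trans (Y1' (by omega : j + 1 ≤ j' + 1) (by omega))
        · -- square left of the hole
          left
          rw [eSx]
          exact (X2' (by omega : j' + 1 ≤ j) (by omega) (by omega)).trans
            (X1' (by omega : i + 1 ≤ i' + 1) (by omega) (by omega))
      · rcases le_or_gt j j' with h' | h'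
        · -- square right of the hole
          right; left
          rw [eHx]
          exact (X1' (by omega : i' + 1 ≤ i) (by omega) (by omega)).trans
            (X2' h' (by omega) (by omega))
        · -- square below the hole
          right; right; left
          rw [eSy _ _ hj]
          exact (Y1' (by omega : j' + 1 ≤ j) (by omega)).trans
            (Y2' (by omega : i' + 1 ≤ i) (by omega))
    · rcases List.mem_append.1 hb with hb | hb
      · obtain ⟨i', hi', rfl⟩ := m3 b hb
        rcases le_or_gt i' i with h | h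
        · right; right; left
          rw [eSy _ _ hj]
          exact (Y1' (Nat.zero_le j) (by omega)).trans (Y2' h (by omega))
        · left
          rw [eSx]
          exact (X2' (Nat.zero_le j) (by omega) (by omega)).trans
            (X1' (by omega) (by omega) (by omega))
      · rcases List.mem_append.1 hb with hb | hb
        · obtain ⟨j', hj', rfl⟩ := m4 b hb
          rcases le_or_gt j' j with h | h
          · left
            rw [eSx]
            exact (X2' h (by omega) (by omega)).trans (X1' (by omega) (by omega) (by omega))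
          · right; right; right
            rw [eRy _ hj']
            exact (Y1' (by omega : j + 1 ≤ j') (by omega)).trans (Y2' (by omega) (by omega))
        · obtain rfl := m5 b hb
          left
          rw [eSx]
          exact (X2' (Nat.zero_le j) (by omega) (by omega)).trans
            (X1' (by omega) (by omega) (by omega))
  · -- containment
    intro r hr
    rcases List.mem_append.1 hr with hr | hr
    · obtain ⟨i, j, hi, hj, rfl⟩ := m1 r hr
      refine ⟨X_nonneg hu hi.le hj, Y_nonneg hv hi, ?_, ?_⟩
      · rw [eSx]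
        simpa using hXW (i + 1) hi j hj
      · rw [eSy _ _ hj]
        simpa using hYT i hi j
    · rcases List.mem_append.1 hr with hr | hr
      · obtain ⟨i, j, hi, hj, rfl⟩ := m2 r hr
        refine ⟨X_nonneg hu (by omega) hj, Y_nonneg hv hi, ?_, ?_⟩
        · rw [eHx]
          simpa using hXW (i + 1) (by omega) j (by omega)
        · rw [eHy]
          simpa using hYT i (by omega) (j + 1)
      · rcases List.mem_append.1 hr with hr | hr
        · obtain ⟨i, hi, rfl⟩ := m3 r hr
          refine ⟨X_nonneg hu hi.le (by omega), Y_nonneg hv hi, ?_, ?_⟩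
          · rw [eTx]
            simpa using hXW (i + 1) hi 0 (by omega)
          · rw [eTy]
            simp
        · rcases List.mem_append.1 hr with hr | hr
          · obtain ⟨j, hj, rfl⟩ := m4 r hr
            refine ⟨X_nonneg hu le_rfl hj, Y_nonneg hv (by omega), ?_, ?_⟩
            · rw [eRx]
              simp
            · rw [eRy _ hj]
              simpa using hYT (c - 1) (by omega) j
          · obtain rfl := m5 r hr
            refine ⟨X_nonneg hu le_rfl (by omega), Y_nonneg hv (by omega), ?_, ?_⟩
            · rw [eCx]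
              simp
            · rw [eCy]
              simp
  · -- area
    obtain ⟨c, rfl⟩ : ∃ c', c = c' + 1 := ⟨c - 1, by omega⟩
    obtain ⟨M, rfl⟩ : ∃ M', M = M' + 1 := ⟨M - 1, by omega⟩
    rw [areaL_append, areaL_append, areaL_append, areaL_append, areaL_range, areaL_flat,
      areaL_range, areaL_range]
    simp only [Nat.add_sub_cancel]
    rw [sum_divmod (c + 1) (M + 1) hM fun i j => u i j * v i j]
    simp_rw [X_diff, Y_diff]
    have hYZ := Y_zero (M + 1) v
    simp_rw [← hYZ]
    have hXc : ∀ j, ∑ i ∈ range (c + 1), u i j = X u (c + 1) j := fun j => rfl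
    simp_rw [hXc]
    have hlast : areaL [(W - X u (c + 1) 0, T - Y (M + 1) v c 0)] =
        (W - X u (c + 1) 0) * (T - Y (M + 1) v c 0) := by simp [areaL]
    rw [hlast]
    have hvY : ∀ i, ∀ j ∈ range (M + 1), v i j = Y (M + 1) v i j - Y (M + 1) v i (j + 1) := by
      intro i j hj
      rw [Y_succ v i (mem_range.1 hj)]
      ring
    have huX : ∀ i j, u i j = X u (i + 1) j - X u i j := by
      intro i j
      rw [X_succ]
      ring
    have hYM : ∀ i, Y (M + 1) v i (M + 1) = 0 := by
      intro i
      simp [Y]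
    have hX0 : ∀ j, X u 0 j = 0 := by
      intro j
      simp [X]
    -- squares
    have hS : ∑ i ∈ range (c + 1), ∑ j ∈ range (M + 1), u i j * v i j =
        ∑ j ∈ range (M + 1), X u (c + 1) j * v c j +
          ∑ i ∈ range c, ∑ j ∈ range (M + 1), X u (i + 1) j * (v i j - v (i + 1) j) := by
      rw [sum_comm]
      have : ∀ j ∈ range (M + 1), ∑ i ∈ range (c + 1), u i j * v i j =
          X u (c + 1) j * v c j + ∑ i ∈ range c, X u (i + 1) j * (v i j - v (i + 1) j) := by
        intro j hj
        have := abel' c (fun i => X u i j) (fun i => v i j)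
        simp only [hX0, zero_mul, sub_zero] at this
        rw [← this]
        refine sum_congr rfl fun i hi => ?_
        rw [huX i j]
      rw [sum_congr rfl this, sum_add_distrib]
      congr 1
      rw [sum_comm]
    have hA : ∀ i, ∑ j ∈ range (M + 1), X u (i + 1) j * (v i j - v (i + 1) j) =
        X u (i + 1) 0 * (Y (M + 1) v i 0 - Y (M + 1) v (i + 1) 0) -
        ∑ j ∈ range M, (X u (i + 1) j - X u (i + 1) (j + 1)) *
          (Y (M + 1) v i (j + 1) - Y (M + 1) v (i + 1) (j + 1)) := by
      intro i
      have := abel M (fun j => X u (i + 1) j)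
        (fun j => Y (M + 1) v i j - Y (M + 1) v (i + 1) j)
      simp only [hYM, sub_zero, mul_zero] at this
      rw [sub_eq_add_neg, ← sum_neg_distrib]
      have e : ∀ j ∈ range M, -((X u (i + 1) j - X u (i + 1) (j + 1)) *
          (Y (M + 1) v i (j + 1) - Y (M + 1) v (i + 1) (j + 1))) =
          (X u (i + 1) (j + 1) - X u (i + 1) j) *
          (Y (M + 1) v i (j + 1) - Y (M + 1) v (i + 1) (j + 1)) := by
        intro j _
        ring
      rw [sum_congr rfl e, ← this]
      refine sum_congr rfl fun j hj => ?_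
      rw [hvY i j hj, hvY (i + 1) j hj]
      ring
    have hT' : ∑ i ∈ range (c + 1), u i 0 * (T - Y (M + 1) v i 0) =
        X u (c + 1) 0 * (T - Y (M + 1) v c 0) +
          ∑ i ∈ range c, X u (i + 1) 0 * (Y (M + 1) v (i + 1) 0 - Y (M + 1) v i 0) := by
      have := abel' c (fun i => X u i 0) (fun i => T - Y (M + 1) v i 0)
      simp only [hX0, zero_mul, sub_zero] at this
      have e : ∀ i ∈ range c, X u (i + 1) 0 *
          (T - Y (M + 1) v i 0 - (T - Y (M + 1) v (i + 1) 0)) =
          X u (i + 1) 0 * (Y (M + 1) v (i + 1) 0 - Y (M + 1) v i 0) := by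
        intro i _
        ring
      rw [sum_congr rfl e] at this
      rw [← this]
      refine sum_congr rfl fun i _ => ?_
      rw [huX i 0]
    have hR : ∑ j ∈ range (M + 1), (W - X u (c + 1) j) * v c j =
        W * Y (M + 1) v c 0 - ∑ j ∈ range (M + 1), X u (c + 1) j * v c j := by
      rw [Y_zero, mul_sum, ← sum_sub_distrib]
      refine sum_congr rfl fun j _ => ?_
      ring
    rw [hS, hT', hR, sum_congr rfl fun i _ => hA i, sum_sub_distrib]
    have hc2 : ∑ i ∈ range c, X u (i + 1) 0 * (Y (M + 1) v (i + 1) 0 - Y (M + 1) v i 0) =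
        - ∑ i ∈ range c, X u (i + 1) 0 * (Y (M + 1) v i 0 - Y (M + 1) v (i + 1) 0) := by
      rw [← sum_neg_distrib]
      refine sum_congr rfl fun i _ => ?_
      ring
    rw [hc2]
    ring

end Pool.Agent.H180R2.MM
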