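import Pool.Agent.H180R2.MM.Found

namespace Pool.Agent.H180R2.MM
open Finset

/-- state at the beginning of stage `k`: pieces `P`, reserve `W × H`, indices `Us ≥ 2^k` already used -/
structure Inv (x y : ℕ → ℝ) (ρ : ℝ) (k : ℕ) (P : List (ℝ × ℝ)) (W H : ℝ) (Us : Finset ℕ) :
    Prop where
  small : ∀ p ∈ P, 0 ≤ p.1 ∧ 0 ≤ p.2 ∧ min p.1 p.2 ≤ wk k
  pot : PhiL P ≤ 1 / 10 ^ 9 - 20 / k
  Wpos : 0 < W
  WH : W ≤ H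
  HW : H ≤ ρ * W
  us : ∀ n ∈ Us, 2 ^ k ≤ n ∧ n < 2 ^ (k + 1) ∧ Even n
  card : (Us.card : ℝ) ≤ 2 ^ k / 10 ^ 7
  area : W * H + areaL P + ∑ n ∈ Us, x n * y n = ∑' i : ℕ, x (2 ^ k + i) * y (2 ^ k + i)

end Pool.Agent.H180R2.MM
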