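import Pool.Agent.H180R2.MM.Found

namespace Pool.Agent.H180R2.MM
open Finset

theorem limit_step {P A B : List (ℝ × ℝ)} (h : Refines P (A ++ B)) (E : List PR)
    (hE : List.Forall₂ Match P E) (hP : E.Pairwise Disj) :
    ∃ DE : List PR × List PR, List.Forall₂ Match A DE.1 ∧
      (List.Forall₂ Match B DE.2 ∧ DE.2.Pairwise Disj) ∧
      (DE.1 ++ DE.2).Pairwise Disj ∧ ∀ r ∈ DE.1 ++ DE.2, ∃ c ∈ E, Inside r c := by
  obtain ⟨D0, h1, h2, h3⟩ := h.1 E hE hP
  refine ⟨(D0.take A.length, D0.drop A.length), ?_, ⟨?_, ?_⟩, ?_, ?_⟩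
  · have := List.forall₂_take A.length h1
    simpa using this
  · have := List.forall₂_drop A.length h1
    simpa using this
  · exact h2.sublist (List.drop_sublist _ _)
  · simpa using h2
  · simpa using h3

theorem limit (x y : ℕ → ℝ) (a b : ℝ) (P : ℕ → List (ℝ × ℝ)) (S : ℕ → List ℕ)
    (h0 : P 0 = [(a, b)]) (hR : ∀ k, Refines (P k) ((S k).map (sq x y) ++ P (k + 1)))
    (hnd : ∀ k, (S k).Nodup) (hdj : ∀ k l, k < l → ∀ n ∈ S k, n ∉ S l) :
    ∃ pos : ℕ → PR, (∀ k, ∀ n ∈ S k, Match (sq x y n) (pos n) ∧ Inside (pos n) ⟨0, 0, a, b⟩) ∧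
      ∀ k l, ∀ n ∈ S k, ∀ m ∈ S l, n ≠ m → Disj (pos n) (pos m) := by
  classical
  have key := fun (k : ℕ) (E : List PR) (hE : List.Forall₂ Match (P k) E) (hP : E.Pairwise Disj) =>
    limit_step (hR k) E hE hP
  choose nxt hn1 hn2 hn3 hn4 using key
  let T : ℕ → Type := fun k => {E : List PR // List.Forall₂ Match (P k) E ∧ E.Pairwise Disj}
  let st0 : T 0 := ⟨[⟨0, 0, a, b⟩], by rw [h0]; simp [Match], by simp⟩
  let st : ∀ k, T k := fun k => Nat.rec (motive := T) st0
    (fun k E => ⟨(nxt k E.1 E.2.1 E.2.2).2, hn2 k E.1 E.2.1 E.2.2⟩) k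
  have hst0 : (st 0).1 = [⟨0, 0, a, b⟩] := rfl
  let E : ℕ → List PR := fun k => (st k).1
  let D : ℕ → List PR := fun k => (nxt k (st k).1 (st k).2.1 (st k).2.2).1
  have hE1 : ∀ k, E (k + 1) = (nxt k (st k).1 (st k).2.1 (st k).2.2).2 := fun k => rfl
  have hDm : ∀ k, List.Forall₂ Match ((S k).map (sq x y)) (D k) := fun k => hn1 k _ _ _
  have hDP : ∀ k, (D k ++ E (k + 1)).Pairwise Disj := fun k => hn3 k _ _ _
  have hDI : ∀ k, ∀ r ∈ D k ++ E (k + 1), ∃ c ∈ E k, Inside r c := fun k => hn4 k _ _ _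
  -- nesting
  have hnest : ∀ k l, k ≤ l → ∀ r ∈ E l, ∃ c ∈ E k, Inside r c := by
    intro k l hkl
    induction l, hkl using Nat.le_induction with
    | base => exact fun r hr => ⟨r, hr, Inside.refl r⟩
    | succ l _ ih =>
      intro r hr
      obtain ⟨c, hc, hrc⟩ := hDI l r (List.mem_append_right _ hr)
      obtain ⟨c', hc', hcc'⟩ := ih c hc
      exact ⟨c', hc', hrc.trans hcc'⟩
  have hDnest : ∀ k l, k ≤ l → ∀ r ∈ D l, ∃ c ∈ E k, Inside r c := by
    intro k l hkl r hr
    obtain ⟨c, hc, hrc⟩ := hDI l r (List.mem_append_left _ hr)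
    obtain ⟨c', hc', hcc'⟩ := hnest k l hkl c hc
    exact ⟨c', hc', hrc.trans hcc'⟩
  have hlen : ∀ k, (D k).length = (S k).length := by
    intro k
    have := (hDm k).length_eq
    simpa using this.symm
  have huniq : ∀ k l n, n ∈ S k → n ∈ S l → k = l := by
    intro k l n hk hl
    rcases lt_trichotomy k l with h | h | h
    · exact absurd hl (hdj k l h n hk)
    · exact h
    · exact absurd hk (hdj l k h n hl)
  let pos : ℕ → PR := fun n => if h : ∃ k, n ∈ S k then
    (D (Nat.find h)).getD ((S (Nat.find h)).idxOf n) ⟨0, 0, 0, 0⟩ else ⟨0, 0, 0, 0⟩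
  have hpos : ∀ k n (hn : n ∈ S k), ∃ h : (S k).idxOf n < (D k).length,
      pos n = (D k)[(S k).idxOf n] := by
    intro k n hn
    have hex : ∃ k, n ∈ S k := ⟨k, hn⟩
    have hk : Nat.find hex = k := huniq _ _ n (Nat.find_spec hex) hn
    have hlt : (S k).idxOf n < (D k).length := by
      rw [hlen]; exact List.idxOf_lt_length_of_mem hn
    refine ⟨hlt, ?_⟩
    simp only [pos, dif_pos hex, hk]
    exact List.getD_eq_getElem _ _ hlt
  have hposmem : ∀ k n, n ∈ S k → pos n ∈ D k := by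
    intro k n hn
    obtain ⟨h, he⟩ := hpos k n hn
    rw [he]; exact List.getElem_mem h
  refine ⟨pos, ?_, ?_⟩
  · intro k n hn
    obtain ⟨h, he⟩ := hpos k n hn
    refine ⟨?_, ?_⟩
    · have h2 := (List.forall₂_iff_get.1 (hDm k)).2 ((S k).idxOf n)
        (by rw [List.length_map]; exact List.idxOf_lt_length_of_mem hn) h
      rw [he]
      simpa using h2
    · obtain ⟨c, hc, hrc⟩ := hDnest 0 k (Nat.zero_le _) (pos n) (hposmem k n hn)
      have : c = ⟨0, 0, a, b⟩ := by
        have h3 : E 0 = [⟨0, 0, a, b⟩] := hst0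
        rw [h3] at hc
        simpa using hc
      rw [this] at hrc
      exact hrc
  · have main : ∀ k l, k < l → ∀ n ∈ S k, ∀ m ∈ S l, Disj (pos n) (pos m) := by
      intro k l hkl n hn m hm
      obtain ⟨c, hc, hrc⟩ := hDnest (k + 1) l hkl (pos m) (hposmem l m hm)
      have h4 := (List.pairwise_append.1 (hDP k)).2.2 (pos n) (hposmem k n hn) c hc
      exact h4.mono (Inside.refl _) hrc
    intro k l n hn m hm hnm
    rcases lt_trichotomy k l with h | h | h
    · exact main k l h n hn m hm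
    · subst h
      obtain ⟨hi, hei⟩ := hpos k n hn
      obtain ⟨hj, hej⟩ := hpos k m hm
      have hne : (S k).idxOf n ≠ (S k).idxOf m := by
        intro h
        exact hnm ((List.idxOf_inj hn).1 h)
      have hp := (List.pairwise_append.1 (hDP k)).1
      rw [List.pairwise_iff_getElem] at hp
      rw [hei, hej]
      rcases lt_or_gt_of_ne hne with hlt | hlt
      · exact hp _ _ hi hj hlt
      · exact (hp _ _ hj hi hlt).symm
    · exact (main l k h m hm n hn).symm

end Pool.Agent.H180R2.MM
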