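import Pool.Agent.H180R2.MM.Found
import Pool.Agent.H180R2.MM.Grid

/-! Module G: a slab filled with `c` columns and `M` rows. -/

namespace Pool.Agent.H180R2.MM
open Finset

namespace SlabG

theorem Fam.antx {x y : ℕ → ℝ} (hF : Fam x y) {m n : ℕ} (hm : 1 ≤ m) (h : m ≤ n) : x n ≤ x m := by
  have h1 := hF.lowx m n hm h
  have h2 : (0 : ℝ) ≤ ((n : ℝ) - m) / ((n : ℝ) + 1) ^ 2 := by
    have : (m : ℝ) ≤ n := by exact_mod_cast h
    apply div_nonneg (by linarith) (by positivity)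
  linarith

theorem Fam.anty {x y : ℕ → ℝ} (hF : Fam x y) {m n : ℕ} (hm : 1 ≤ m) (h : m ≤ n) : y n ≤ y m := by
  have h1 := hF.lowy m n hm h
  have h2 : (0 : ℝ) ≤ ((n : ℝ) - m) / ((n : ℝ) + 1) ^ 2 := by
    have : (m : ℝ) ≤ n := by exact_mod_cast h
    apply div_nonneg (by linarith) (by positivity)
  linarith

theorem y_pos {x y : ℕ → ℝ} (hF : Fam x y) {n : ℕ} (hn : 1 ≤ n) : 0 < y n :=
  lt_of_lt_of_le (by positivity) (hF.lo n hn)

theorem x_pos {x y : ℕ → ℝ} (hF : Fam x y) {n : ℕ} (hn : 1 ≤ n) : 0 < x n :=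
  lt_of_lt_of_le (y_pos hF hn) (hF.le n hn)

/-- steps of size at most `a` cost at most `a/4^k` -/
theorem step_x {x y : ℕ → ℝ} (hF : Fam x y) {k m n : ℕ} {a : ℝ} (hm : 2 ^ k ≤ m) (h : m ≤ n)
    (ha : (n : ℝ) - m ≤ a) : x m - x n ≤ a / 4 ^ k := by
  have h1 : 1 ≤ m := le_trans (Nat.one_le_two_pow) hm
  have h2 := hF.lipx m n h1 h
  have h3 : ((2 : ℝ) ^ k) ≤ m := by exact_mod_cast hm
  have h4 : (4 : ℝ) ^ k ≤ (m : ℝ) ^ 2 := by
    have : (4 : ℝ) ^ k = (2 ^ k) ^ 2 := by rw [← pow_mul, mul_comm, pow_mul]; norm_num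
    rw [this]
    exact pow_le_pow_left₀ (by positivity) h3 2
  have h5 : (m : ℝ) ≤ n := by exact_mod_cast h
  refine h2.trans ?_
  exact div_le_div₀ (by linarith) ha (by positivity) h4

theorem step_y {x y : ℕ → ℝ} (hF : Fam x y) {k m n : ℕ} {a : ℝ} (hm : 2 ^ k ≤ m) (h : m ≤ n)
    (ha : (n : ℝ) - m ≤ a) : y m - y n ≤ a / 4 ^ k := by
  have h1 : 1 ≤ m := le_trans (Nat.one_le_two_pow) hm
  have h2 := hF.lipy m n h1 h
  have h3 : ((2 : ℝ) ^ k) ≤ m := by exact_mod_cast hm
  have h4 : (4 : ℝ) ^ k ≤ (m : ℝ) ^ 2 := by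
    have : (4 : ℝ) ^ k = (2 ^ k) ^ 2 := by rw [← pow_mul, mul_comm, pow_mul]; norm_num
    rw [this]
    exact pow_le_pow_left₀ (by positivity) h3 2
  have h5 : (m : ℝ) ≤ n := by exact_mod_cast h
  refine h2.trans ?_
  exact div_le_div₀ (by linarith) ha (by positivity) h4

theorem near_k {x y : ℕ → ℝ} (hF : Fam x y) {k m : ℕ} (hm : 2 ^ k ≤ m) :
    x m - y m ≤ 1 / 4 ^ k := by
  have h1 : 1 ≤ m := le_trans (Nat.one_le_two_pow) hm
  have h2 := hF.near m h1
  have h3 : ((2 : ℝ) ^ k) ≤ m := by exact_mod_cast hm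
  have h4 : (4 : ℝ) ^ k ≤ (m : ℝ) ^ 2 := by
    have : (4 : ℝ) ^ k = (2 ^ k) ^ 2 := by rw [← pow_mul, mul_comm, pow_mul]; norm_num
    rw [this]
    exact pow_le_pow_left₀ (by positivity) h3 2
  exact h2.trans (div_le_div_of_nonneg_left (by norm_num) (by positivity) h4)

theorem x_le {x y : ℕ → ℝ} (hF : Fam x y) {k m : ℕ} (hm : 2 ^ k ≤ m) : x m ≤ 1 / 2 ^ k := by
  have h1 : 1 ≤ m := le_trans (Nat.one_le_two_pow) hm
  have h3 : ((2 : ℝ) ^ k) ≤ m := by exact_mod_cast hm
  exact (hF.up m h1).trans (div_le_div_of_nonneg_left (by norm_num) (by positivity) h3)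

theorem gap_le {V : List ℕ} (hV : Gap2 V) :
    ∀ s t : ℕ, s ≤ t → t < V.length → V.getD s 0 ≤ V.getD t 0 ∧
      V.getD t 0 ≤ V.getD s 0 + 2 * (t - s) := by
  intro s t hst
  induction t, hst using Nat.le_induction with
  | base => intro _; simp
  | succ t hst ih =>
    intro ht
    have h1 := ih (by omega)
    have h2 := (List.isChain_iff_getElem.1 hV) t ht
    have h3 : V.getD t 0 = V[t] := List.getD_eq_getElem V 0 (by omega)
    have h4 : V.getD (t + 1) 0 = V[t + 1] := List.getD_eq_getElem V 0 ht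
    rw [h4]
    rw [h3] at h1
    omega

theorem PhiL_le_length {L : List (ℝ × ℝ)} {B : ℝ} (h : ∀ p ∈ L, Phi p ≤ B) :
    PhiL L ≤ L.length * B := by
  induction L with
  | nil => simp [PhiL]
  | cons a L ih =>
    rw [PhiL_cons, List.length_cons]
    have h1 := h a (by simp)
    have h2 := ih (fun p hp => h p (by simp [hp]))
    push_cast
    linarith

/-- cut every piece in two halves -/
noncomputable def halve (L : List (ℝ × ℝ)) : List (ℝ × ℝ) := L.flatMap fun d => [(d.1, d.2 / 2), (d.1, d.2 / 2)]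

theorem Refines_halve (L : List (ℝ × ℝ)) (h : ∀ p ∈ L, 0 ≤ p.1 ∧ 0 ≤ p.2) :
    Refines L (halve L) := by
  induction L with
  | nil => exact Refines.refl _
  | cons a L ih =>
    have h1 := h a (by simp)
    have h2 := ih (fun p hp => h p (by simp [hp]))
    have h3 : Refines [a] [(a.1, a.2 / 2), (a.1, a.2 / 2)] := by
      have := Refines.cut (a := a.1) (b := a.2 / 2) (c := a.2 / 2) h1.1 (by linarith) (by linarith)
      rwa [add_halves] at this
    exact Refines.append h3 h2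

theorem mem_halve {L : List (ℝ × ℝ)} {p : ℝ × ℝ} (h : p ∈ halve L) :
    ∃ d ∈ L, p = (d.1, d.2 / 2) := by
  unfold halve at h
  rw [List.mem_flatMap] at h
  obtain ⟨d, hd, hp⟩ := h
  refine ⟨d, hd, ?_⟩
  simpa using hp

theorem length_halve (L : List (ℝ × ℝ)) : (halve L).length = 2 * L.length := by
  induction L with
  | nil => rfl
  | cons a L ih =>
    unfold halve at *
    rw [List.flatMap_cons, List.length_append, ih]
    simp
    ring

end SlabG

open SlabG in
theorem slab {x y : ℕ → ℝ} (hF : Fam x y) (k M c : ℕ) (hM : 1 ≤ M) (hc : 1 ≤ c)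
    (V : List ℕ) (hV : Gap2 V) (hlen : V.length = c * M)
    (hr : ∀ n ∈ V, 2 ^ k ≤ n ∧ n < 2 ^ (k + 1))
    (n0 n1 : ℕ) (hn0 : n0 ∈ V.head?) (hn1 : n1 ∈ V.getLast?)
    (W W' : ℝ) (hW : c * x n0 ≤ W) (hW1 : W - c * x n1 ≤ W') (hW2 : 1 / 2 ^ k ≤ W')
    (hW3 : W' ≤ 1) (hsmall : 4 * (c : ℝ) * M ^ 2 ≤ 2 ^ k) :
    ∃ P' : List (ℝ × ℝ), Refines [(W, M * x n0)] (V.map (sq x y) ++ P') ∧
      (∀ p ∈ P', 0 ≤ p.1 ∧ 0 ≤ p.2 ∧ min p.1 p.2 ≤ wk (k + 1)) ∧
      PhiL P' ≤ 7 * (4 * c * M * (c + M ^ 2) / 4 ^ k + c / 2 ^ k + 3 * M * W') := by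
  have hlen1 : 1 ≤ c * M := Nat.mul_pos hc hM
  set g : ℕ → ℕ := fun t => V.getD t 0 with hg
  have hgm : ∀ t, t < c * M → g t ∈ V := by
    intro t ht
    have h3 : g t = V[t]'(by omega) := List.getD_eq_getElem V 0 (by omega)
    rw [h3]
    exact List.getElem_mem _
  have hgk : ∀ t, t < c * M → 2 ^ k ≤ g t := fun t ht => (hr _ (hgm t ht)).1
  have hg1 : ∀ t, t < c * M → 1 ≤ g t := fun t ht => le_trans Nat.one_le_two_pow (hgk t ht)
  have hmono : ∀ s t, s ≤ t → t < c * M → g s ≤ g t := fun s t hst ht =>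
    (gap_le hV s t hst (by omega)).1
  have hgap : ∀ s t, s ≤ t → t < c * M → (g t : ℝ) - g s ≤ 2 * ((t : ℝ) - s) := by
    intro s t hst ht
    have h1 := (gap_le hV s t hst (by omega)).2
    have h2 : ((g t : ℕ) : ℝ) ≤ g s + 2 * ((t - s : ℕ) : ℝ) := by exact_mod_cast h1
    rw [Nat.cast_sub hst] at h2
    linarith
  have hn0' : n0 = g 0 := by
    rw [Option.mem_def, List.head?_eq_getElem?] at hn0
    show n0 = V.getD 0 0
    rw [List.getD_eq_getElem?_getD, hn0]
    rfl
  have hn1' : n1 = g (c * M - 1) := by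
    rw [Option.mem_def, List.getLast?_eq_getElem?, hlen] at hn1
    show n1 = V.getD (c * M - 1) 0
    rw [List.getD_eq_getElem?_getD, hn1]
    rfl
  have hn0k : 2 ^ k ≤ n0 := hn0' ▸ hgk 0 (by omega)
  have hn01 : 1 ≤ n0 := hn0' ▸ hg1 0 (by omega)
  have hn11 : 1 ≤ n1 := hn1' ▸ hg1 _ (by omega)
  -- indices
  have hidx : ∀ i j, i < c → j < M → i * M + j < c * M := by
    intro i j hi hj
    calc i * M + j < i * M + M := by omega
      _ = (i + 1) * M := by ring
      _ ≤ c * M := Nat.mul_le_mul_right M hi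
  set u : ℕ → ℕ → ℝ := fun i j => x (g (i * M + j)) with hu
  set v : ℕ → ℕ → ℝ := fun i j => y (g (i * M + j)) with hv
  have hu0 : ∀ i < c, ∀ j < M, 0 ≤ u i j := fun i hi j hj => (x_pos hF (hg1 _ (hidx i j hi hj))).le
  have hv0 : ∀ i < c, ∀ j < M, 0 ≤ v i j := fun i hi j hj => (y_pos hF (hg1 _ (hidx i j hi hj))).le
  have hmu : ∀ i < c, ∀ j, j + 1 < M → u i (j + 1) ≤ u i j := by
    intro i hi j hj
    have h1 := hidx i (j + 1) hi hj
    exact Fam.antx hF (hg1 _ (by omega)) (hmono _ _ (by omega) h1)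
  have hmv : ∀ i, i + 1 < c → ∀ j < M, v (i + 1) j ≤ v i j := by
    intro i hi j hj
    have h1 := hidx (i + 1) j hi hj
    have h2 : i * M ≤ (i + 1) * M := Nat.mul_le_mul_right M (by omega)
    exact Fam.anty hF (hg1 _ (by omega)) (hmono _ _ (by omega) h1)
  have hux : ∀ i < c, ∀ j < M, u i j ≤ x n0 := by
    intro i hi j hj
    rw [hn0']
    exact Fam.antx hF (hg1 _ (by omega)) (hmono _ _ (by omega) (hidx i j hi hj))
  have hux1 : ∀ i < c, ∀ j < M, x n1 ≤ u i j := by
    intro i hi j hj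
    have := hidx i j hi hj
    rw [hn1']
    exact Fam.antx hF (hg1 _ this) (hmono _ _ (by omega) (by omega))
  have hvx : ∀ i < c, ∀ j < M, v i j ≤ x n0 := fun i hi j hj =>
    (hF.le _ (hg1 _ (hidx i j hi hj))).trans (hux i hi j hj)
  have hvy1 : ∀ i < c, ∀ j < M, x n0 - v i j ≤ 2 * c * M / 4 ^ k := by
    intro i hi j hj
    have h0 := hidx i j hi hj
    have h1 : y n1 ≤ v i j := by
      rw [hn1']
      exact Fam.anty hF (hg1 _ h0) (hmono _ _ (by omega) (by omega))
    have h2 := near_k hF hn0k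
    have h3 : (n1 : ℝ) - n0 ≤ 2 * ((c * M : ℕ) - 1 : ℝ) := by
      have := hgap 0 (c * M - 1) (by omega) (by omega)
      rw [← hn0', ← hn1'] at this
      rw [Nat.cast_sub hlen1] at this
      push_cast at this ⊢
      linarith
    have h4 : n0 ≤ n1 := by
      rw [hn0', hn1']
      exact hmono _ _ (by omega) (by omega)
    have h5 := step_y hF hn0k h4 h3
    have h6 : 2 * ((c * M : ℕ) - 1 : ℝ) / 4 ^ k + 1 / 4 ^ k ≤ 2 * c * M / 4 ^ k := by
      rw [← add_div]
      apply div_le_div_of_nonneg_right _ (by positivity)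
      push_cast
      linarith
    linarith
  have hWs : ∀ j < M, ∑ i ∈ range c, u i j ≤ W := by
    intro j hj
    calc ∑ i ∈ range c, u i j ≤ ∑ i ∈ range c, x n0 :=
          Finset.sum_le_sum fun i hi => hux i (Finset.mem_range.1 hi) j hj
      _ = c * x n0 := by simp
      _ ≤ W := hW
  have hTs : ∀ i < c, ∑ j ∈ range M, v i j ≤ M * x n0 := by
    intro i hi
    calc ∑ j ∈ range M, v i j ≤ ∑ j ∈ range M, x n0 :=
          Finset.sum_le_sum fun j hj => hvx i hi j (Finset.mem_range.1 hj)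
      _ = M * x n0 := by simp
  have htile := grid c M hc hM u v hu0 hv0 hmu hmv W (M * x n0) hWs hTs
  -- the squares
  have hsq : ((List.range (c * M)).map fun t => (u (t / M) (t % M), v (t / M) (t % M))) =
      V.map (sq x y) := by
    apply List.ext_getElem
    · simp [hlen]
    · intro t h1 h2
      simp only [List.getElem_map, List.getElem_range, hu, hv, sq]
      have h3 : t / M * M + t % M = t := Nat.div_add_mod' t M
      rw [h3]
      have h4 : t < V.length := by simpa using h2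
      have h5 : g t = V[t] := List.getD_eq_getElem V 0 h4
      rw [h5]
  rw [hsq] at htile
  set holes := ((List.range (c - 1)).flatMap fun i => (List.range (M - 1)).map fun j =>
          (∑ i' ∈ range (i + 1), (u i' j - u i' (j + 1)),
            ∑ j' ∈ Ico (j + 1) M, (v i j' - v (i + 1) j'))) with hholes
  set tops := ((List.range c).map fun i => (u i 0, M * x n0 - ∑ j ∈ range M, v i j)) with htops
  set rights := ((List.range M).map fun j => (W - ∑ i ∈ range c, u i j, v (c - 1) j)) with hrights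
  set corner := [(W - ∑ i ∈ range c, u i 0, M * x n0 - ∑ j ∈ range M, v (c - 1) j)] with hcorner
  -- numerical facts
  have p2 : (0 : ℝ) < 2 ^ k := by positivity
  have p4 : (4 : ℝ) ^ k = 2 ^ k * 2 ^ k := by rw [← mul_pow]; norm_num
  have hcR : (1 : ℝ) ≤ c := by exact_mod_cast hc
  have hMR : (1 : ℝ) ≤ M := by exact_mod_cast hM
  have hM2 : (1 : ℝ) ≤ (M : ℝ) ^ 2 := by nlinarith
  have hsc : 4 * (c : ℝ) ≤ 2 ^ k := by nlinarith
  have hsM : 4 * (M : ℝ) ^ 2 ≤ 2 ^ k := by nlinarith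
  have b1 : 2 * (c : ℝ) / 4 ^ k ≤ (1 / 2) / 2 ^ k := by
    rw [p4, div_le_div_iff₀ (by positivity) (by positivity)]
    nlinarith
  have b2 : 2 * (M : ℝ) ^ 2 / 4 ^ k ≤ (1 / 2) / 2 ^ k := by
    rw [p4, div_le_div_iff₀ (by positivity) (by positivity)]
    nlinarith
  have b3 : 2 * (c : ℝ) * M ^ 2 / 4 ^ k ≤ (1 / 2) / 2 ^ k := by
    rw [p4, div_le_div_iff₀ (by positivity) (by positivity)]
    nlinarith
  have b4 : (1 / 2 : ℝ) / 2 ^ k ≤ wk (k + 1) := by
    unfold wk
    rw [pow_succ, div_le_div_iff₀ (by positivity) (by positivity)]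
    nlinarith
  have b5 : (1 / 2 : ℝ) / 2 ^ k ≤ W' := by
    refine le_trans ?_ hW2
    apply div_le_div_of_nonneg_right (by norm_num) (by positivity)
  have b6 : (1 : ℝ) / 2 ^ k ≤ 1 := by
    rw [div_le_one p2]
    exact one_le_pow₀ (by norm_num)
  -- heights above the columns
  have htop : ∀ i < c, 0 ≤ M * x n0 - ∑ j ∈ range M, v i j ∧
      M * x n0 - ∑ j ∈ range M, v i j ≤ (1 / 2) / 2 ^ k := by
    intro i hi
    refine ⟨by linarith [hTs i hi], ?_⟩
    have h1 : M * x n0 - ∑ j ∈ range M, v i j = ∑ j ∈ range M, (x n0 - v i j) := by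
      rw [Finset.sum_sub_distrib]
      simp
    rw [h1]
    calc ∑ j ∈ range M, (x n0 - v i j) ≤ ∑ j ∈ range M, 2 * (c : ℝ) * M / 4 ^ k :=
          Finset.sum_le_sum fun j hj => hvy1 i hi j (Finset.mem_range.1 hj)
      _ = 2 * (c : ℝ) * M ^ 2 / 4 ^ k := by
          rw [Finset.sum_const, Finset.card_range, nsmul_eq_mul]
          ring
      _ ≤ _ := b3
  have hright : ∀ j < M, 0 ≤ W - ∑ i ∈ range c, u i j ∧ W - ∑ i ∈ range c, u i j ≤ W' := by
    intro j hj
    refine ⟨by linarith [hWs j hj], ?_⟩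
    have h1 : c * x n1 ≤ ∑ i ∈ range c, u i j := by
      calc c * x n1 = ∑ i ∈ range c, x n1 := by simp
        _ ≤ _ := Finset.sum_le_sum fun i hi => hux1 i (Finset.mem_range.1 hi) j hj
    linarith
  have hvk : ∀ i < c, ∀ j < M, v i j ≤ 1 / 2 ^ k := fun i hi j hj =>
    (hvx i hi j hj).trans (x_le hF hn0k)
  have huk : ∀ i < c, ∀ j < M, u i j ≤ 1 / 2 ^ k := fun i hi j hj =>
    (hux i hi j hj).trans (x_le hF hn0k)
  -- holes
  have hhole : ∀ p ∈ holes, 0 ≤ p.1 ∧ 0 ≤ p.2 ∧ p.1 ≤ 2 * c / 4 ^ k ∧ p.2 ≤ 2 * M ^ 2 / 4 ^ k := by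
    intro p hp
    rw [hholes, List.mem_flatMap] at hp
    obtain ⟨i, hi, hp⟩ := hp
    rw [List.mem_map] at hp
    obtain ⟨j, hj, rfl⟩ := hp
    rw [List.mem_range] at hi hj
    have hi' : i + 1 < c := by omega
    have hj' : j + 1 < M := by omega
    refine ⟨?_, ?_, ?_, ?_⟩
    · show 0 ≤ ∑ i' ∈ range (i + 1), (u i' j - u i' (j + 1))
      apply Finset.sum_nonneg
      intro i' hi'2
      rw [Finset.mem_range] at hi'2
      linarith [hmu i' (by omega) j hj']
    · show 0 ≤ ∑ j' ∈ Ico (j + 1) M, (v i j' - v (i + 1) j')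
      apply Finset.sum_nonneg
      intro j' hj'2
      rw [Finset.mem_Ico] at hj'2
      linarith [hmv i hi' j' hj'2.2]
    · calc ∑ i' ∈ range (i + 1), (u i' j - u i' (j + 1))
          ≤ ∑ i' ∈ range (i + 1), (2 : ℝ) / 4 ^ k := by
            apply Finset.sum_le_sum
            intro i' hi'2
            rw [Finset.mem_range] at hi'2
            have h1 := hidx i' (j + 1) (by omega) hj'
            apply step_x hF (hgk _ (by omega)) (hmono _ _ (by omega) h1)
            have := hgap (i' * M + j) (i' * M + (j + 1)) (by omega) h1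
            push_cast at this
            linarith
        _ = (i + 1) * (2 / 4 ^ k) := by
            rw [Finset.sum_const, Finset.card_range, nsmul_eq_mul]
            push_cast
            ring
        _ ≤ c * (2 / 4 ^ k) := by
            apply mul_le_mul_of_nonneg_right _ (by positivity)
            exact_mod_cast hi'.le
        _ = 2 * c / 4 ^ k := by ring
    · calc ∑ j' ∈ Ico (j + 1) M, (v i j' - v (i + 1) j')
          ≤ ∑ j' ∈ Ico (j + 1) M, (2 * (M : ℝ)) / 4 ^ k := by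
            apply Finset.sum_le_sum
            intro j' hj'2
            rw [Finset.mem_Ico] at hj'2
            have h1 := hidx (i + 1) j' hi' hj'2.2
            have h2 : i * M ≤ (i + 1) * M := Nat.mul_le_mul_right M (by omega)
            apply step_y hF (hgk _ (by omega)) (hmono _ _ (by omega) h1)
            have := hgap (i * M + j') ((i + 1) * M + j') (by omega) h1
            push_cast at this
            linarith
        _ = ((M - (j + 1) : ℕ) : ℝ) * (2 * M / 4 ^ k) := by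
            rw [Finset.sum_const, Nat.card_Ico, nsmul_eq_mul]
        _ ≤ M * (2 * M / 4 ^ k) := by
            apply mul_le_mul_of_nonneg_right _ (by positivity)
            exact_mod_cast Nat.sub_le _ _
        _ = 2 * M ^ 2 / 4 ^ k := by ring
  have hrt0 : ∀ p ∈ rights, 0 ≤ p.1 ∧ 0 ≤ p.2 ∧ p.1 ≤ W' ∧ p.2 ≤ 1 / 2 ^ k := by
    intro p hp
    rw [hrights, List.mem_map] at hp
    obtain ⟨j, hj, rfl⟩ := hp
    rw [List.mem_range] at hj
    exact ⟨(hright j hj).1, hv0 _ (by omega) j hj, (hright j hj).2, hvk _ (by omega) j hj⟩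
  have hrt : ∀ p ∈ halve rights, 0 ≤ p.1 ∧ 0 ≤ p.2 ∧ p.1 ≤ W' ∧ p.2 ≤ (1 / 2) / 2 ^ k := by
    intro p hp
    obtain ⟨d, hd, rfl⟩ := mem_halve hp
    have h1 := hrt0 d hd
    refine ⟨h1.1, by simp only; linarith [h1.2.1], h1.2.2.1, ?_⟩
    have h2 := h1.2.2.2
    simp only
    calc d.2 / 2 ≤ (1 / 2 ^ k) / 2 := by linarith
      _ = (1 / 2) / 2 ^ k := by ring
  have htp : ∀ p ∈ tops, 0 ≤ p.1 ∧ 0 ≤ p.2 ∧ p.1 ≤ 1 / 2 ^ k ∧ p.2 ≤ (1 / 2) / 2 ^ k := by
    intro p hp
    rw [htops, List.mem_map] at hp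
    obtain ⟨i, hi, rfl⟩ := hp
    rw [List.mem_range] at hi
    exact ⟨hu0 i hi 0 (by omega), (htop i hi).1, huk i hi 0 (by omega), (htop i hi).2⟩
  have hcn : ∀ p ∈ corner, 0 ≤ p.1 ∧ 0 ≤ p.2 ∧ p.1 ≤ W' ∧ p.2 ≤ (1 / 2) / 2 ^ k := by
    intro p hp
    rw [hcorner, List.mem_singleton] at hp
    subst hp
    exact ⟨(hright 0 (by omega)).1, (htop (c - 1) (by omega)).1, (hright 0 (by omega)).2,
      (htop (c - 1) (by omega)).2⟩
  refine ⟨holes ++ (tops ++ (halve rights ++ corner)), ?_, ?_, ?_⟩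
  · refine (Refines.of_tile htile).trans ?_
    refine Refines.append (Refines.refl _) (Refines.append (Refines.refl _)
      (Refines.append (Refines.refl _) (Refines.append ?_ (Refines.refl _))))
    exact Refines_halve _ fun p hp => ⟨(hrt0 p hp).1, (hrt0 p hp).2.1⟩
  · intro p hp
    rcases List.mem_append.1 hp with hp | hp
    · have h := hhole p hp
      exact ⟨h.1, h.2.1, (min_le_left _ _).trans (h.2.2.1.trans (b1.trans b4))⟩
    rcases List.mem_append.1 hp with hp | hp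
    · have h := htp p hp
      exact ⟨h.1, h.2.1, (min_le_right _ _).trans (h.2.2.2.trans b4)⟩
    rcases List.mem_append.1 hp with hp | hp
    · have h := hrt p hp
      exact ⟨h.1, h.2.1, (min_le_right _ _).trans (h.2.2.2.trans b4)⟩
    · have h := hcn p hp
      exact ⟨h.1, h.2.1, (min_le_right _ _).trans (h.2.2.2.trans b4)⟩
  · rw [PhiL_append, PhiL_append, PhiL_append]
    have q1 : PhiL holes ≤ holes.length * (7 * (2 * c / 4 ^ k + 2 * M ^ 2 / 4 ^ k)) := by
      apply PhiL_le_length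
      intro p hp
      have h := hhole p hp
      have e1 : (0 : ℝ) ≤ 2 * c / 4 ^ k := by positivity
      have e2 : (0 : ℝ) ≤ 2 * M ^ 2 / 4 ^ k := by positivity
      have e3 : (1 / 2 : ℝ) / 2 ^ k = (1 / 2) * (1 / 2 ^ k) := by ring
      apply Phi_le_seven h.1 h.2.1 (by linarith) (by linarith)
      nlinarith
    have q1' : (holes.length : ℝ) ≤ c * M := by
      have : holes.length = (c - 1) * (M - 1) := by
        rw [hholes, List.length_flatMap]
        simp
      rw [this]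
      have h1 : (c - 1) * (M - 1) ≤ c * M := Nat.mul_le_mul (by omega) (by omega)
      exact_mod_cast h1
    have q2 : PhiL tops ≤ tops.length * (7 * (1 / 2 ^ k)) := by
      apply PhiL_le_length
      intro p hp
      have h := htp p hp
      apply Phi_le_seven h.1 h.2.1 h.2.2.1 _ b6
      refine h.2.2.2.trans ?_
      apply div_le_div_of_nonneg_right (by norm_num) (by positivity)
    have q2' : (tops.length : ℝ) = c := by
      rw [htops]; simp
    have q3 : PhiL (halve rights) ≤ (halve rights).length * (7 * W') := by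
      apply PhiL_le_length
      intro p hp
      have h := hrt p hp
      exact Phi_le_seven h.1 h.2.1 h.2.2.1 (h.2.2.2.trans b5) hW3
    have q3' : ((halve rights).length : ℝ) = 2 * M := by
      rw [length_halve, hrights]; simp
    have q4 : PhiL corner ≤ corner.length * (7 * W') := by
      apply PhiL_le_length
      intro p hp
      have h := hcn p hp
      exact Phi_le_seven h.1 h.2.1 h.2.2.1 (h.2.2.2.trans b5) hW3
    have q4' : (corner.length : ℝ) = 1 := by
      rw [hcorner]; simp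
    rw [q2'] at q2
    rw [q3'] at q3
    rw [q4'] at q4
    have hW'0 : 0 ≤ W' := by
      refine le_trans ?_ hW2
      positivity
    have q1'' : PhiL holes ≤ c * M * (7 * (2 * c / 4 ^ k + 2 * M ^ 2 / 4 ^ k)) := by
      refine q1.trans ?_
      apply mul_le_mul_of_nonneg_right q1' (by positivity)
    have e5 : c * M * (7 * (2 * c / 4 ^ k + 2 * (M : ℝ) ^ 2 / 4 ^ k)) ≤
        7 * (4 * c * M * (c + M ^ 2) / 4 ^ k) := by
      have : 7 * (4 * c * M * (c + (M : ℝ) ^ 2) / 4 ^ k) =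
          c * M * (7 * (2 * c / 4 ^ k + 2 * (M : ℝ) ^ 2 / 4 ^ k)) +
            c * M * (7 * (2 * c / 4 ^ k + 2 * (M : ℝ) ^ 2 / 4 ^ k)) := by ring
      rw [this]
      have : (0 : ℝ) ≤ c * M * (7 * (2 * c / 4 ^ k + 2 * (M : ℝ) ^ 2 / 4 ^ k)) := by positivity
      linarith
    have e6 : (c : ℝ) * (7 * (1 / 2 ^ k)) = 7 * (c / 2 ^ k) := by ring
    have e7 : 1 * (7 * W') ≤ M * (7 * W') := by
      apply mul_le_mul_of_nonneg_right hMR (by positivity)
    rw [e6] at q2
    have e8 : 2 * M * (7 * W') + M * (7 * W') = 7 * (3 * M * W') := by ring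
    have e9 : 7 * (4 * c * M * (c + (M : ℝ) ^ 2) / 4 ^ k + c / 2 ^ k + 3 * M * W') =
        7 * (4 * c * M * (c + (M : ℝ) ^ 2) / 4 ^ k) + 7 * (c / 2 ^ k) + 7 * (3 * M * W') := by ring
    rw [e9, ← e8]
    linarith

end Pool.Agent.H180R2.MM
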