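import Pool.Agent.H180R2.MM.Found
import Pool.Agent.H180R2.MM.Slab

/-! TEAM MM, module H: all unused indices of a block go into the reserve. -/

namespace Pool.Agent.H180R2.MM
open Finset

namespace Rs

theorem gap_bounds {V : List ℕ} (hV : Gap2 V) : ∀ n0 n1 : ℕ, n0 ∈ V.head? → n1 ∈ V.getLast? →
    n0 + V.length ≤ n1 + 1 ∧ n1 + 2 ≤ n0 + 2 * V.length := by
  induction V with
  | nil => intro n0 n1 h; simp at h
  | cons a V ih =>
    intro n0 n1 h0 h1
    have ha : n0 = a := by simpa using h0.symm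
    subst ha
    cases V with
    | nil =>
      have : n1 = n0 := by simpa using h1.symm
      subst this
      simp
    | cons b V =>
      have hc := List.isChain_cons_cons.1 hV
      have hb : b ∈ (b :: V).head? := by simp
      have hl : n1 ∈ (b :: V).getLast? := by simpa using h1
      have := ih hc.2 b n1 hb hl
      simp only [List.length_cons] at this ⊢
      omega

theorem Gap2.take {V : List ℕ} (hV : Gap2 V) (n : ℕ) : Gap2 (V.take n) := List.IsChain.take hV n
theorem Gap2.drop {V : List ℕ} (hV : Gap2 V) (n : ℕ) : Gap2 (V.drop n) := List.IsChain.drop hV n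

/-- the invariant on the leftover pieces -/
def Small (k : ℕ) (P : List (ℝ × ℝ)) : Prop :=
  ∀ p ∈ P, 0 ≤ p.1 ∧ 0 ≤ p.2 ∧ min p.1 p.2 ≤ wk (k + 1)

/-- numerical facts -/
structure Num (k M : ℕ) (W : ℝ) : Prop where
  M200 : 200 ≤ M
  Wpos : 0 < W
  WM : W * (M : ℝ) ^ 2 ≤ 1 / 500
  WN : 500 * (M : ℝ) ^ 2 ≤ W * 2 ^ k
  NM : 10 ^ 6 * (M : ℝ) ^ 4 ≤ 2 ^ k
  NW : 2 ^ k * W ^ 2 ≤ 2

theorem x_pos {x y : ℕ → ℝ} (hF : Fam x y) {n : ℕ} (hn : 1 ≤ n) : 0 < x n := by
  have h1 := hF.lo n hn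
  have h2 := hF.le n hn
  have : (0 : ℝ) < 1 / ((n : ℝ) + 1) := by positivity
  linarith

theorem y_pos {x y : ℕ → ℝ} (hF : Fam x y) {n : ℕ} (hn : 1 ≤ n) : 0 < y n := by
  have h1 := hF.lo n hn
  have : (0 : ℝ) < 1 / ((n : ℝ) + 1) := by positivity
  linarith

theorem x_le {x y : ℕ → ℝ} (hF : Fam x y) {k n : ℕ} (hn : 2 ^ k ≤ n) : x n ≤ 1 / 2 ^ k := by
  have h0 : 1 ≤ n := le_trans Nat.one_le_two_pow hn
  refine (hF.up n h0).trans ?_
  have : (2 : ℝ) ^ k ≤ n := by exact_mod_cast hn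
  exact one_div_le_one_div_of_le (by positivity) this

theorem x_ge {x y : ℕ → ℝ} (hF : Fam x y) {k n : ℕ} (hn : 2 ^ k ≤ n) (hn' : n < 2 ^ (k + 1)) :
    1 / (2 * 2 ^ k) ≤ x n := by
  have h0 : 1 ≤ n := le_trans Nat.one_le_two_pow hn
  refine le_trans ?_ ((hF.lo n h0).trans (hF.le n h0))
  have : (n : ℝ) + 1 ≤ 2 * 2 ^ k := by
    have : n + 1 ≤ 2 * 2 ^ k := by
      rw [pow_succ] at hn'
      omega
    exact_mod_cast this
  exact one_div_le_one_div_of_le (by positivity) this

theorem areaV_nonneg {x y : ℕ → ℝ} (hF : Fam x y) {k : ℕ} {V : List ℕ} (hr : ∀ n ∈ V, 2 ^ k ≤ n) :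
    0 ≤ areaL (V.map (sq x y)) := by
  apply areaL_nonneg
  intro p hp
  obtain ⟨n, hn, rfl⟩ := List.mem_map.1 hp
  have h0 : 1 ≤ n := le_trans Nat.one_le_two_pow (hr n hn)
  exact ⟨(x_pos hF h0).le, (y_pos hF h0).le⟩

/-- one slab -/
theorem slabStep {x y : ℕ → ℝ} (hF : Fam x y) {k M : ℕ} {W : ℝ} (hN : Num k M W) {V : List ℕ}
    (hV : Gap2 V) (hr : ∀ n ∈ V, 2 ^ k ≤ n ∧ n < 2 ^ (k + 1)) {H : ℝ} {P : List (ℝ × ℝ)}
    (hP : Small k P) (hA : areaL (V.map (sq x y)) + (1 / 4) / 2 ^ k ≤ W * H + areaL P)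
    (hPhi : PhiL P ≤ 10 / M) (M' c : ℕ) (hM' : 1 ≤ M') (hMM : M' ≤ M) (hc : 1 ≤ c)
    (hlen : c * M' ≤ V.length) (W' : ℝ) (hW : ∀ n0 ∈ V.head?, c * x n0 ≤ W)
    (hW1 : ∀ n1 ∈ (V.take (c * M')).getLast?, W - c * x n1 ≤ W') (hW2 : 1 / 2 ^ k ≤ W')
    (hW3 : W' ≤ 1) (hsmall : 4 * (c : ℝ) * M' ^ 2 ≤ 2 ^ k) :
    ∃ (H2 : ℝ) (P2 : List (ℝ × ℝ)), 0 ≤ H2 ∧ H2 ≤ H ∧
      Refines ((W, H) :: P) ((V.take (c * M')).map (sq x y) ++ (W, H2) :: P2) ∧ Small k P2 ∧
      areaL ((V.drop (c * M')).map (sq x y)) + (1 / 4) / 2 ^ k ≤ W * H2 + areaL P2 ∧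
      PhiL P2 ≤ PhiL P + 7 * (4 * c * M' * (c + M' ^ 2) / 4 ^ k + c / 2 ^ k + 3 * M' * W') := by
  have hcM : 1 ≤ c * M' := Nat.mul_pos hc hM'
  have hVne : V ≠ [] := by
    rintro rfl
    simp at hlen
    omega
  obtain ⟨n0, hn0⟩ : ∃ n0, n0 ∈ V.head? := by
    cases V with
    | nil => exact absurd rfl hVne
    | cons a V => exact ⟨a, by simp⟩
  have hn0V : n0 ∈ V := List.mem_of_mem_head? hn0
  have hlen1 : (V.take (c * M')).length = c * M' := by
    rw [List.length_take]
    omega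
  have htne : V.take (c * M') ≠ [] := by
    intro h
    rw [h] at hlen1
    simp at hlen1
    omega
  obtain ⟨n1, hn1⟩ : ∃ n1, n1 ∈ (V.take (c * M')).getLast? := by
    refine ⟨(V.take (c * M')).getLast htne, ?_⟩
    rw [List.getLast?_eq_getLast_of_ne_nil htne]
    rfl
  have hn0t : n0 ∈ (V.take (c * M')).head? := by
    cases V with
    | nil => exact absurd rfl hVne
    | cons a V =>
      obtain ⟨m, hm⟩ : ∃ m, c * M' = m + 1 := ⟨c * M' - 1, by omega⟩
      rw [hm, List.take_succ_cons]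
      simpa using hn0
  have hk1 : (1 : ℕ) ≤ 2 ^ k := Nat.one_le_two_pow
  have hx0 : 0 < x n0 := x_pos hF (le_trans hk1 (hr n0 hn0V).1)
  have hxle : x n0 ≤ 1 / 2 ^ k := x_le hF (hr n0 hn0V).1
  have h2k : (0 : ℝ) < 2 ^ k := by positivity
  obtain ⟨P1, hR1, hS1, hPhi1⟩ := slab hF k M' c hM' hc (V.take (c * M')) (Gap2.take hV _) hlen1
    (fun n hn => hr n (List.mem_of_mem_take hn)) n0 n1 hn0t hn1 W W' (hW n0 hn0) (hW1 n1 hn1)
    hW2 hW3 hsmall
  -- the height is available
  have hMr : (200 : ℝ) ≤ M := by exact_mod_cast hN.M200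
  have hM'r : (M' : ℝ) ≤ M := by exact_mod_cast hMM
  have hM'1 : (1 : ℝ) ≤ M' := by exact_mod_cast hM'
  have hWpos := hN.Wpos
  have hareaP : areaL P ≤ (1 / 20) / 2 ^ k := by
    refine (areaL_le_PhiL hP).trans ?_
    have h1 : wk (k + 1) = (5 / 6) / 2 ^ k := by
      unfold wk
      rw [pow_succ]
      field_simp
      norm_num
    rw [h1]
    have h2 : PhiL P ≤ 10 / 200 := hPhi.trans (by
      apply div_le_div_of_nonneg_left (by norm_num) (by norm_num) hMr)
    have h3 : PhiL P * ((5 / 6) / 2 ^ k) ≤ 10 / 200 * ((5 / 6) / 2 ^ k) :=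
      mul_le_mul_of_nonneg_right h2 (by positivity)
    refine h3.trans ?_
    rw [← mul_div_assoc]
    apply div_le_div_of_nonneg_right _ h2k.le
    norm_num
  have hareaV := areaV_nonneg hF (k := k) (V := V) fun n hn => (hr n hn).1
  have hWH : (1 / 5) / 2 ^ k ≤ W * H := by
    have : (1 / 4 : ℝ) / 2 ^ k = (1 / 5) / 2 ^ k + (1 / 20) / 2 ^ k := by
      rw [← add_div]
      norm_num
    linarith
  have hMx : M' * x n0 ≤ H := by
    have h1 : (M' : ℝ) * x n0 ≤ M * (1 / 2 ^ k) := by gcongr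
    have h2 : W * ((M : ℝ) * (1 / 2 ^ k)) ≤ (1 / 5) / 2 ^ k := by
      have h3 : W * (M : ℝ) ≤ W * (M : ℝ) ^ 2 := by
        apply mul_le_mul_of_nonneg_left _ hWpos.le
        nlinarith
      have h4 : W * ((M : ℝ) * (1 / 2 ^ k)) = (W * M) / 2 ^ k := by ring
      rw [h4]
      apply div_le_div_of_nonneg_right _ h2k.le
      linarith [hN.WM]
    have h5 : W * ((M' : ℝ) * x n0) ≤ W * H :=
      (mul_le_mul_of_nonneg_left h1 hWpos.le).trans (h2.trans hWH)
    exact le_of_mul_le_mul_left h5 hWpos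
  have hMx0 : 0 ≤ M' * x n0 := by positivity
  have hR : Refines ((W, H) :: P) ((V.take (c * M')).map (sq x y) ++
      (W, H - M' * x n0) :: (P1 ++ P)) := by
    have c1 : Refines [(W, H)] [(W, M' * x n0), (W, H - M' * x n0)] := by
      have := Refines.cut (a := W) (b := M' * x n0) (c := H - M' * x n0) hWpos.le hMx0
        (sub_nonneg.2 hMx)
      rwa [add_sub_cancel] at this
    have c2 : Refines ((W, H) :: P) ([(W, M' * x n0), (W, H - M' * x n0)] ++ P) :=
      Refines.append (P := [(W, H)]) c1 (Refines.refl P)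
    have c3 : Refines ([(W, M' * x n0), (W, H - M' * x n0)] ++ P)
        (((V.take (c * M')).map (sq x y) ++ P1) ++ ([(W, H - M' * x n0)] ++ P)) :=
      Refines.append (P := [(W, M' * x n0)]) (P' := [(W, H - M' * x n0)] ++ P) hR1
        (Refines.refl _)
    refine c2.trans (c3.trans (Refines.of_perm ?_))
    rw [List.append_assoc]
    apply List.Perm.append_left
    rw [List.singleton_append]
    exact List.perm_middle
  refine ⟨H - M' * x n0, P1 ++ P, sub_nonneg.2 hMx, by linarith, hR, ?_, ?_, ?_⟩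
  · intro p hp
    rcases List.mem_append.1 hp with hp | hp
    · exact hS1 p hp
    · exact hP p hp
  · have := hR.2
    rw [areaL_cons, areaL_append, areaL_cons] at this
    have h2 : areaL (V.map (sq x y)) = areaL ((V.take (c * M')).map (sq x y)) +
        areaL ((V.drop (c * M')).map (sq x y)) := by
      rw [← areaL_append, ← List.map_append, List.take_append_drop]
    simp only at this
    linarith
  · rw [PhiL_append]
    linarith

/-- composition of two slab steps -/
theorem Refines.step {W H H2 H3 : ℝ} {P P2 P3 A B : List (ℝ × ℝ)}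
    (h1 : Refines ((W, H) :: P) (A ++ (W, H2) :: P2))
    (h2 : Refines ((W, H2) :: P2) (B ++ (W, H3) :: P3)) :
    Refines ((W, H) :: P) ((A ++ B) ++ (W, H3) :: P3) := by
  rw [List.append_assoc]
  exact h1.trans (Refines.append (Refines.refl A) h2)

/-- the column number `c = ⌊W / x n0⌋` -/
theorem col_facts {x y : ℕ → ℝ} (hF : Fam x y) {k M : ℕ} {W : ℝ} (hN : Num k M W) {n0 : ℕ}
    (h1 : 2 ^ k ≤ n0) (h2 : n0 < 2 ^ (k + 1)) :
    ∃ c : ℕ, 1 ≤ c ∧ c * x n0 ≤ W ∧ W < (c + 1) * x n0 ∧ (c : ℝ) ≤ 2 * 2 ^ k * W ∧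
      499 * (M : ℝ) ^ 2 ≤ c := by
  have hx0 : 0 < x n0 := x_pos hF (le_trans Nat.one_le_two_pow h1)
  have hxle : x n0 ≤ 1 / 2 ^ k := x_le hF h1
  have hxge := x_ge hF h1 h2
  have h2k : (0 : ℝ) < 2 ^ k := by positivity
  have hWpos := hN.Wpos
  have hMr : (200 : ℝ) ≤ M := by exact_mod_cast hN.M200
  refine ⟨⌊W / x n0⌋₊, ?_, ?_, ?_, ?_, ?_⟩
  · rw [Nat.one_le_floor_iff, le_div_iff₀ hx0, one_mul]
    refine hxle.trans ?_
    rw [div_le_iff₀ h2k]
    have := hN.WN
    nlinarith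
  · have := Nat.floor_le (div_pos hWpos hx0).le
    rwa [le_div_iff₀ hx0] at this
  · have := Nat.lt_floor_add_one (W / x n0)
    rwa [div_lt_iff₀ hx0] at this
  · have h3 := Nat.floor_le (div_pos hWpos hx0).le
    rw [le_div_iff₀ hx0] at h3
    have h4 : (⌊W / x n0⌋₊ : ℝ) * (1 / (2 * 2 ^ k)) ≤ W :=
      (mul_le_mul_of_nonneg_left hxge (by positivity)).trans h3
    rw [mul_one_div, div_le_iff₀ (by positivity)] at h4
    linarith
  · have h3 := Nat.lt_floor_add_one (W / x n0)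
    have h4 : W * 2 ^ k ≤ W / x n0 := by
      rw [le_div_iff₀ hx0]
      calc W * 2 ^ k * x n0 ≤ W * 2 ^ k * (1 / 2 ^ k) := by gcongr
        _ = W := by field_simp
    have h5 := hN.WN
    nlinarith

/-- full slabs until fewer than `c M` indices remain -/
theorem loop {x y : ℕ → ℝ} (hF : Fam x y) {k M : ℕ} {W : ℝ} (hN : Num k M W) : ∀ (m : ℕ)
    (V : List ℕ), V.length ≤ m → Gap2 V → (∀ n ∈ V, 2 ^ k ≤ n ∧ n < 2 ^ (k + 1)) →
    ∀ (H : ℝ) (P : List (ℝ × ℝ)), 0 ≤ H → Small k P →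
    areaL (V.map (sq x y)) + (1 / 4) / 2 ^ k ≤ W * H + areaL P →
    PhiL P + 8 / (M * 2 ^ k) * V.length + 56 * M * W ≤ 10 / M →
    ∃ (H2 : ℝ) (P2 : List (ℝ × ℝ)), 0 ≤ H2 ∧ H2 ≤ H ∧
      Refines ((W, H) :: P) (V.map (sq x y) ++ (W, H2) :: P2) ∧ Small k P2 ∧
      PhiL P2 ≤ 10 / M := by
  have h2k : (0 : ℝ) < 2 ^ k := by positivity
  have h4k : (4 : ℝ) ^ k = 2 ^ k * 2 ^ k := by
    rw [← mul_pow]
    norm_num
  have hWpos := hN.Wpos
  have hMr : (200 : ℝ) ≤ M := by exact_mod_cast hN.M200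
  have hWM := hN.WM
  have hWN := hN.WN
  have hNM := hN.NM
  have hNW := hN.NW
  have hWM1 : W * M ≤ 1 / 100000 := by
    have h1 : W * M * 200 ≤ W * (M : ℝ) ^ 2 := by
      have : W * M * 200 ≤ W * M * M := by gcongr
      nlinarith
    linarith
  have hW1 : W ≤ 1 / 100000 := by nlinarith
  have hN2 : (10 : ℝ) ^ 6 ≤ 2 ^ k := by
    have : (1 : ℝ) ≤ (M : ℝ) ^ 4 := one_le_pow₀ (by linarith)
    nlinarith
  have hM3 : (M : ℝ) ^ 3 ≤ 2 ^ k / (2 * 10 ^ 8) := by
    rw [le_div_iff₀ (by norm_num)]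
    have : (M : ℝ) ^ 4 = M * (M : ℝ) ^ 3 := by ring
    have h3 : (0 : ℝ) ≤ (M : ℝ) ^ 3 := by positivity
    nlinarith
  have hWge : 1 / 2 ^ k ≤ W := by
    rw [div_le_iff₀ h2k]
    nlinarith
  intro m
  induction m with
  | zero =>
    intro V hm _ _ H P hH hP _ hPhi
    have : V = [] := List.length_eq_zero_iff.1 (by omega)
    subst this
    refine ⟨H, P, hH, le_rfl, by simpa using Refines.refl _, hP, ?_⟩
    simp only [List.length_nil, Nat.cast_zero, mul_zero, add_zero] at hPhi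
    have : 0 ≤ 56 * M * W := by positivity
    linarith
  | succ m ih =>
    intro V hm hV hr H P hH hP hA hPhi
    rcases eq_or_ne V [] with rfl | hVne
    · exact ih [] (by simp) hV hr H P hH hP hA hPhi
    obtain ⟨n0, hn0⟩ : ∃ n0, n0 ∈ V.head? := by
      cases V with
      | nil => exact absurd rfl hVne
      | cons a V => exact ⟨a, by simp⟩
    have hn0V : n0 ∈ V := List.mem_of_mem_head? hn0
    have hnr := hr n0 hn0V
    obtain ⟨c, hc1, hcW, hcW', hc2, hc3⟩ := col_facts hF hN hnr.1 hnr.2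
    have hx0 : 0 < x n0 := x_pos hF (le_trans Nat.one_le_two_pow hnr.1)
    have hxle : x n0 ≤ 1 / 2 ^ k := x_le hF hnr.1
    have hlen0 : (0 : ℝ) ≤ 8 / (M * 2 ^ k) * V.length := by positivity
    have h56 : 0 ≤ 56 * M * W := by positivity
    have hPhiP : PhiL P ≤ 10 / M := by linarith
    have hc0 : (0 : ℝ) ≤ c := by positivity
    have hcN : (c : ℝ) / 2 ^ k ≤ 2 * W := by
      rw [div_le_iff₀ h2k]
      linarith
    have hMc : 4 * (c : ℝ) * M ^ 2 ≤ 2 ^ k := by
      calc 4 * (c : ℝ) * M ^ 2 ≤ 4 * (2 * 2 ^ k * W) * M ^ 2 := by gcongr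
        _ = 8 * 2 ^ k * (W * M ^ 2) := by ring
        _ ≤ 8 * 2 ^ k * (1 / 500) := by gcongr
        _ ≤ 2 ^ k := by linarith
    -- common estimate
    have hsm : 4 * (M : ℝ) * (c + M ^ 2) / 2 ^ k ≤ 1 / 1000 := by
      rw [div_le_iff₀ h2k]
      have e1 : 4 * (M : ℝ) * c ≤ 4 * M * (2 * 2 ^ k * W) := by gcongr
      have e2 : 4 * (M : ℝ) * (2 * 2 ^ k * W) = 8 * 2 ^ k * (W * M) := by ring
      have e3 : 8 * 2 ^ k * (W * M) ≤ 8 * 2 ^ k * (1 / 100000 : ℝ) := by gcongr
      have e4 : 4 * (M : ℝ) * (c + M ^ 2) = 4 * M * c + 4 * M ^ 3 := by ring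
      rw [e4]
      linarith
    by_cases hbig : c * M ≤ V.length
    · -- a full slab
      set W' : ℝ := (1 + 16 * M) / 2 ^ k with hW'
      have hW2 : 1 / 2 ^ k ≤ W' := by
        rw [hW']
        gcongr
        nlinarith
      have hW3 : W' ≤ 1 := by
        rw [hW', div_le_one h2k]
        have : (M : ℝ) ≤ (M : ℝ) ^ 4 := by
          have h1 : (1 : ℝ) ≤ (M : ℝ) ^ 3 := one_le_pow₀ (by linarith)
          calc (M : ℝ) = M * 1 := by ring
            _ ≤ M * (M : ℝ) ^ 3 := by gcongr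
            _ = (M : ℝ) ^ 4 := by ring
        linarith
      have hWlast : ∀ n1 ∈ (V.take (c * M)).getLast?, W - c * x n1 ≤ W' := by
        intro n1 hn1
        have hlen1 : (V.take (c * M)).length = c * M := by
          rw [List.length_take]
          omega
        have hn0t : n0 ∈ (V.take (c * M)).head? := by
          cases V with
          | nil => exact absurd rfl hVne
          | cons a V =>
            have hcM : 1 ≤ c * M := Nat.mul_pos hc1 (by have := hN.M200; omega)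
            obtain ⟨m', hm'⟩ : ∃ m', c * M = m' + 1 := ⟨c * M - 1, by omega⟩
            rw [hm', List.take_succ_cons]
            simpa using hn0
        have hgb := gap_bounds (Gap2.take hV (c * M)) n0 n1 hn0t hn1
        rw [hlen1] at hgb
        have hle : n0 ≤ n1 := by
          have hcM : 1 ≤ c * M := Nat.mul_pos hc1 (by have := hN.M200; omega)
          omega
        have h1n : 1 ≤ n0 := le_trans Nat.one_le_two_pow hnr.1
        have hlip := hF.lipx n0 n1 h1n hle
        have hd : ((n1 : ℝ) - n0) ≤ 2 * (c * M) := by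
          have : (n1 : ℝ) + 2 ≤ n0 + 2 * (c * M) := by exact_mod_cast hgb.2
          linarith
        have hn0r : (2 : ℝ) ^ k ≤ n0 := by exact_mod_cast hnr.1
        have hlip2 : x n0 - x n1 ≤ 2 * (c * M) / (2 ^ k) ^ 2 := by
          refine hlip.trans ?_
          gcongr
        have h5 : (c : ℝ) * (x n0 - x n1) ≤ c * (2 * (c * M) / (2 ^ k) ^ 2) := by gcongr
        have h6 : (c : ℝ) * (2 * (c * M) / (2 ^ k) ^ 2) ≤ 16 * M / 2 ^ k := by
          have e1 : (c : ℝ) * (2 * (c * M) / (2 ^ k) ^ 2) = 2 * M * (c / 2 ^ k) ^ 2 := by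
            field_simp
          rw [e1]
          have e2 : ((c : ℝ) / 2 ^ k) ^ 2 ≤ (2 * W) ^ 2 := by gcongr
          have e3 : (2 * W) ^ 2 ≤ 8 / 2 ^ k := by
            rw [le_div_iff₀ h2k]
            have : (2 * W) ^ 2 * 2 ^ k = 4 * (2 ^ k * W ^ 2) := by ring
            linarith
          calc 2 * (M : ℝ) * (c / 2 ^ k) ^ 2 ≤ 2 * M * (8 / 2 ^ k) := by
                gcongr
                exact e2.trans e3
            _ = 16 * M / 2 ^ k := by ring
        have h7 : W - c * x n1 = (W - c * x n0) + c * (x n0 - x n1) := by ring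
        rw [h7, hW', add_div]
        have h8 : W - c * x n0 ≤ 1 / 2 ^ k := by
          have : ((c : ℝ) + 1) * x n0 = c * x n0 + x n0 := by ring
          linarith
        linarith
      obtain ⟨H2, P2, hH2, hH2', hR, hS, hA2, hPhi2⟩ := slabStep hF hN hV hr hP hA hPhiP M c
        (by have := hN.M200; omega) le_rfl hc1 hbig W'
        (fun n hn => by
          have : n = n0 := by
            rw [Option.mem_def] at hn hn0
            rw [hn] at hn0
            exact (Option.some.inj hn0)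
          rw [this]; exact hcW) hWlast hW2 hW3 hMc
      have hcost : 7 * (4 * c * M * (c + (M : ℝ) ^ 2) / 4 ^ k + c / 2 ^ k + 3 * M * W') ≤
          8 / (M * 2 ^ k) * (c * M : ℕ) := by
        have e1 : 4 * c * M * (c + (M : ℝ) ^ 2) / 4 ^ k =
            (c / 2 ^ k) * (4 * (M : ℝ) * (c + M ^ 2) / 2 ^ k) := by
          rw [h4k]
          field_simp
        have e2 : (c / 2 ^ k) * (4 * (M : ℝ) * (c + M ^ 2) / 2 ^ k) ≤ (c / 2 ^ k) * (1 / 1000) := by
          gcongr
        have e3 : 3 * M * W' ≤ (c / 2 ^ k) * (52 / 499) := by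
          rw [hW']
          have : 3 * (M : ℝ) * ((1 + 16 * M) / 2 ^ k) = (3 * M + 48 * M ^ 2) / 2 ^ k := by ring
          rw [this, div_mul_eq_mul_div]
          apply div_le_div_of_nonneg_right _ h2k.le
          nlinarith
        have e4 : 8 / (M * 2 ^ k) * ((c * M : ℕ) : ℝ) = 8 * (c / 2 ^ k) := by
          push_cast
          have : (M : ℝ) ≠ 0 := by linarith
          field_simp
        rw [e4, e1]
        have e5 : (0 : ℝ) ≤ c / 2 ^ k := by positivity
        linarith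
      have hlenV : (V.length : ℝ) = (c * M : ℕ) + ((V.drop (c * M)).length : ℝ) := by
        rw [List.length_drop]
        have : V.length = c * M + (V.length - c * M) := by omega
        exact_mod_cast this
      have hcM : 1 ≤ c * M := Nat.mul_pos hc1 (by have := hN.M200; omega)
      obtain ⟨H3, P3, hH3, hH3', hR3, hS3, hPhi3⟩ := ih (V.drop (c * M))
        (by rw [List.length_drop]; omega) (Gap2.drop hV _)
        (fun n hn => hr n (List.mem_of_mem_drop hn)) H2 P2 hH2 hS hA2 (by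
          rw [hlenV, mul_add] at hPhi
          linarith)
      refine ⟨H3, P3, hH3, hH3'.trans hH2', ?_, hS3, hPhi3⟩
      have := Refines.step hR hR3
      rwa [← List.map_append, List.take_append_drop] at this
    · -- the last slabs
      have hM1 : 1 ≤ M := by have := hN.M200; omega
      set c' : ℕ := V.length / M with hc'
      set r : ℕ := V.length % M with hr'
      have hdm : V.length = c' * M + r := by
        rw [hc', hr', mul_comm]
        exact (Nat.div_add_mod _ _).symm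
      have hrM : r < M := Nat.mod_lt _ hM1
      have hc'c : c' < c := by
        rw [hc', Nat.div_lt_iff_lt_mul (by omega)]
        omega
      have hc'r : (c' : ℝ) ≤ c := by exact_mod_cast hc'c.le
      -- first part: `c'` columns
      obtain ⟨H2, P2, hH2, hH2', hR, hS, hA2, hPhi2⟩ : ∃ (H2 : ℝ) (P2 : List (ℝ × ℝ)),
          0 ≤ H2 ∧ H2 ≤ H ∧
          Refines ((W, H) :: P) ((V.take (c' * M)).map (sq x y) ++ (W, H2) :: P2) ∧
          Small k P2 ∧
          areaL ((V.drop (c' * M)).map (sq x y)) + (1 / 4) / 2 ^ k ≤ W * H2 + areaL P2 ∧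
          PhiL P2 ≤ PhiL P + 28 * M * W := by
        rcases Nat.eq_zero_or_pos c' with h0 | hpos
        · refine ⟨H, P, hH, le_rfl, ?_, hP, ?_, ?_⟩
          · rw [h0]
            simpa using Refines.refl _
          · rw [h0]
            simpa using hA
          · have : 0 ≤ 28 * M * W := by positivity
            linarith
        · obtain ⟨H2, P2, hH2, hH2', hR, hS, hA2, hPhi2⟩ := slabStep hF hN hV hr hP hA hPhiP M c'
            hM1 le_rfl hpos (by omega) W
            (fun n hn => by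
              have : n = n0 := by
                rw [Option.mem_def] at hn hn0
                rw [hn] at hn0
                exact (Option.some.inj hn0)
              rw [this]
              exact (mul_le_mul_of_nonneg_right hc'r hx0.le).trans hcW)
            (fun n hn => by
              have hnV : n ∈ V := List.mem_of_mem_take (List.mem_of_mem_getLast? hn)
              have := x_pos hF (le_trans Nat.one_le_two_pow (hr n hnV).1)
              have : (0 : ℝ) ≤ c' * x n := by positivity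
              linarith) hWge (by linarith)
            (by
              refine le_trans ?_ hMc
              gcongr)
          refine ⟨H2, P2, hH2, hH2', hR, hS, hA2, hPhi2.trans ?_⟩
          have e1 : 4 * (c' : ℝ) * M * (c' + (M : ℝ) ^ 2) / 4 ^ k ≤ W := by
            calc 4 * (c' : ℝ) * M * (c' + (M : ℝ) ^ 2) / 4 ^ k
                ≤ 4 * (c : ℝ) * M * (c + (M : ℝ) ^ 2) / 4 ^ k := by gcongr
              _ = (c / 2 ^ k) * (4 * (M : ℝ) * (c + M ^ 2) / 2 ^ k) := by
                rw [h4k]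
                field_simp
              _ ≤ (2 * W) * (1 / 1000) := by gcongr
              _ ≤ W := by linarith
          have e2 : (c' : ℝ) / 2 ^ k ≤ 2 * W := by
            refine le_trans ?_ hcN
            gcongr
          have e3 : W * 200 ≤ W * M := by gcongr
          have e4 : M * W = W * M := mul_comm _ _
          have e5 : 7 * (4 * (c' : ℝ) * M * (c' + (M : ℝ) ^ 2) / 4 ^ k + c' / 2 ^ k + 3 * M * W) =
            7 * (4 * (c' : ℝ) * M * (c' + (M : ℝ) ^ 2) / 4 ^ k) + 7 * (c' / 2 ^ k) +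
              21 * (W * M) := by ring
          have e6 : 28 * (M : ℝ) * W = 28 * (W * M) := by ring
          rw [e5, e6]
          linarith
      -- second part: `r` columns, one row
      obtain ⟨H3, P3, hH3, hH3', hR3, hS3, hPhi3⟩ : ∃ (H3 : ℝ) (P3 : List (ℝ × ℝ)),
          0 ≤ H3 ∧ H3 ≤ H2 ∧
          Refines ((W, H2) :: P2) ((V.drop (c' * M)).map (sq x y) ++ (W, H3) :: P3) ∧
          Small k P3 ∧ PhiL P3 ≤ PhiL P2 + 28 * M * W := by
        have hld : (V.drop (c' * M)).length = r := by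
          rw [List.length_drop]
          omega
        rcases Nat.eq_zero_or_pos r with h0 | hpos
        · have : V.drop (c' * M) = [] := List.length_eq_zero_iff.1 (by omega)
          refine ⟨H2, P2, hH2, le_rfl, ?_, hS, ?_⟩
          · rw [this]
            simpa using Refines.refl _
          · have : 0 ≤ 28 * M * W := by positivity
            linarith
        · have hPhiP2 : PhiL P2 ≤ 10 / M := by linarith
          have hrr : (r : ℝ) ≤ M := by exact_mod_cast hrM.le
          obtain ⟨H3, P3, hH3, hH3', hR3, hS3, hA3, hPhi3⟩ := slabStep hF hN (Gap2.drop hV (c' * M))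
            (fun n hn => hr n (List.mem_of_mem_drop hn)) hS hA2 hPhiP2 1 r le_rfl hM1 hpos
            (by omega) W
            (fun n hn => by
              have hnV : n ∈ V := List.mem_of_mem_drop (List.mem_of_mem_head? hn)
              have h1 := x_le hF (hr n hnV).1
              have h1' := (x_pos hF (le_trans Nat.one_le_two_pow (hr n hnV).1)).le
              calc (r : ℝ) * x n ≤ M * (1 / 2 ^ k) := by gcongr
                _ ≤ W := by
                  rw [mul_one_div, div_le_iff₀ h2k]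
                  nlinarith)
            (fun n hn => by
              have hnV : n ∈ V := List.mem_of_mem_drop (List.mem_of_mem_take (List.mem_of_mem_getLast? hn))
              have := x_pos hF (le_trans Nat.one_le_two_pow (hr n hnV).1)
              have : (0 : ℝ) ≤ r * x n := by positivity
              linarith) hWge (by linarith)
            (by
              have : (M : ℝ) ≤ (M : ℝ) ^ 4 := by
                have h1 : (1 : ℝ) ≤ (M : ℝ) ^ 3 := one_le_pow₀ (by linarith)
                calc (M : ℝ) = M * 1 := by ring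
                  _ ≤ M * (M : ℝ) ^ 3 := by gcongr
                  _ = (M : ℝ) ^ 4 := by ring
              push_cast
              nlinarith)
          have htake : (V.drop (c' * M)).take (r * 1) = V.drop (c' * M) := by
            rw [mul_one, List.take_of_length_le (by omega)]
          rw [htake] at hR3
          refine ⟨H3, P3, hH3, hH3', hR3, hS3, hPhi3.trans ?_⟩
          have e0 : (r : ℝ) / 2 ^ k ≤ W := by
            rw [div_le_iff₀ h2k]
            nlinarith
          have e1 : 4 * (r : ℝ) * (1 : ℕ) * (r + ((1 : ℕ) : ℝ) ^ 2) / 4 ^ k ≤ W := by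
            calc 4 * (r : ℝ) * (1 : ℕ) * (r + ((1 : ℕ) : ℝ) ^ 2) / 4 ^ k
                ≤ 4 * (c : ℝ) * M * (c + (M : ℝ) ^ 2) / 4 ^ k := by
                  have hrc : (r : ℝ) ≤ c := by nlinarith
                  have h1M : ((1 : ℕ) : ℝ) ≤ M := by
                    push_cast
                    linarith
                  gcongr
              _ = (c / 2 ^ k) * (4 * (M : ℝ) * (c + M ^ 2) / 2 ^ k) := by
                rw [h4k]
                field_simp
              _ ≤ (2 * W) * (1 / 1000) := by gcongr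
              _ ≤ W := by linarith
          have e3 : W * 200 ≤ W * M := by gcongr
          have e6 : 28 * (M : ℝ) * W = 28 * (W * M) := by ring
          rw [e6]
          push_cast at e1 ⊢
          linarith
      refine ⟨H3, P3, hH3, hH3'.trans hH2', ?_, hS3, ?_⟩
      · have := Refines.step hR hR3
        rwa [← List.map_append, List.take_append_drop] at this
      · linarith

end Rs

open Rs in
theorem reserveStage {x y : ℕ → ℝ} (hF : Fam x y) (ρ : ℝ) (hρ : 1 ≤ ρ) : ∃ k0 : ℕ, ∀ k ≥ k0,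
    ∀ V : List ℕ, Gap2 V → (∀ n ∈ V, 2 ^ k ≤ n ∧ n < 2 ^ (k + 1)) → ∀ W H : ℝ,
    0 < W → W ≤ H → H ≤ ρ * W → W * H ≤ 2 / 2 ^ k →
    areaL (V.map (sq x y)) + (1 / 4) / 2 ^ k ≤ W * H →
    ∃ (H' : ℝ) (P' : List (ℝ × ℝ)), 0 ≤ H' ∧ H' ≤ H ∧
      Refines [(W, H)] (V.map (sq x y) ++ (W, H') :: P') ∧
      (∀ p ∈ P', 0 ≤ p.1 ∧ 0 ≤ p.2 ∧ min p.1 p.2 ≤ wk (k + 1)) ∧
      PhiL P' ≤ 10 / (k : ℝ) ^ 2 := by
  -- large k
  have hlim : Filter.Tendsto (fun k : ℕ => (k : ℝ) ^ 8 / 2 ^ k) Filter.atTop (nhds 0) :=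
    tendsto_pow_const_div_const_pow_of_one_lt 8 (by norm_num)
  have hev : ∀ᶠ k : ℕ in Filter.atTop, (k : ℝ) ^ 8 / 2 ^ k ≤ 1 / (10 ^ 6 * ρ) :=
    hlim.eventually_le_const (by positivity)
  obtain ⟨k1, hk1⟩ := Filter.eventually_atTop.1 hev
  refine ⟨max k1 15, fun k hk V hV hr W H hW hWH hHW hup hA => ?_⟩
  have hk15 : 15 ≤ k := le_trans (le_max_right _ _) hk
  have hkk := hk1 k (le_trans (le_max_left _ _) hk)
  have h2k : (0 : ℝ) < 2 ^ k := by positivity
  rw [div_le_iff₀ h2k, one_div, ← div_eq_inv_mul, le_div_iff₀ (by positivity)] at hkk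
  have hM8 : ((k ^ 2 : ℕ) : ℝ) ^ 4 = (k : ℝ) ^ 8 := by
    push_cast
    ring
  have hareaV := areaV_nonneg hF (k := k) (V := V) fun n hn => (hr n hn).1
  have hNum : Num k (k ^ 2) W := by
    have hM : 200 ≤ k ^ 2 := by nlinarith
    have hMr : (200 : ℝ) ≤ ((k ^ 2 : ℕ) : ℝ) := by exact_mod_cast hM
    set M : ℝ := ((k ^ 2 : ℕ) : ℝ) with hMdef
    have hNM : 10 ^ 6 * ρ * M ^ 4 ≤ 2 ^ k := by
      rw [hM8]
      linarith
    have hM4 : (0 : ℝ) ≤ M ^ 4 := by positivity
    have hNM' : 10 ^ 6 * M ^ 4 ≤ 2 ^ k := by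
      refine le_trans ?_ hNM
      have : 10 ^ 6 * M ^ 4 * 1 ≤ 10 ^ 6 * M ^ 4 * ρ := by gcongr
      nlinarith
    have hNW : 2 ^ k * W ^ 2 ≤ 2 := by
      have h1 : W * W ≤ W * H := by gcongr
      have h2 : W * H * 2 ^ k ≤ 2 := by
        rwa [le_div_iff₀ h2k] at hup
      nlinarith
    have hNWlow : 1 ≤ 4 * ρ * (2 ^ k * W ^ 2) := by
      have h1 : (1 / 4) / 2 ^ k ≤ W * H := by linarith
      rw [div_le_iff₀ h2k] at h1
      have h2 : W * H * 2 ^ k ≤ W * (ρ * W) * 2 ^ k := by gcongr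
      nlinarith
    refine ⟨hM, hW, ?_, ?_, hNM', hNW⟩
    · -- W M² ≤ 1/500
      refine (pow_le_pow_iff_left₀ (by positivity) (by norm_num : (0 : ℝ) ≤ 1 / 500)
        two_ne_zero).1 ?_
      have h1 : (W * M ^ 2) ^ 2 = W ^ 2 * M ^ 4 := by ring
      rw [h1]
      have h2 : W ^ 2 * (10 ^ 6 * M ^ 4) ≤ W ^ 2 * 2 ^ k := by gcongr
      nlinarith
    · refine (pow_le_pow_iff_left₀ (by positivity) (by positivity) two_ne_zero).1 ?_
      have h1 : (500 * M ^ 2) ^ 2 = 250000 * M ^ 4 := by ring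
      have h2 : (W * 2 ^ k) ^ 2 = 2 ^ k * (2 ^ k * W ^ 2) := by ring
      rw [h1, h2]
      -- 4ρ·(2^k W²) ≥ 1, 2^k ≥ 10^6 ρ M⁴
      have h3 : 10 ^ 6 * ρ * M ^ 4 * (2 ^ k * W ^ 2) ≤ 2 ^ k * (2 ^ k * W ^ 2) := by gcongr
      have h4 : 250000 * M ^ 4 * 1 ≤ 250000 * M ^ 4 * (4 * ρ * (2 ^ k * W ^ 2)) := by gcongr
      nlinarith
  have hlenV : V.length ≤ 2 ^ k := by
    rcases eq_or_ne V [] with rfl | hne
    · simp
    · have h0 : V.head hne ∈ V.head? := by
        rw [List.head?_eq_some_head hne]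
        rfl
      have h1 : V.getLast hne ∈ V.getLast? := by
        rw [List.getLast?_eq_getLast_of_ne_nil hne]
        rfl
      have hg := (gap_bounds hV _ _ h0 h1).1
      have a0 := (hr _ (List.head_mem hne)).1
      have a1 := (hr _ (List.getLast_mem hne)).2
      rw [pow_succ] at a1
      omega
  have hMpos : (0 : ℝ) < ((k ^ 2 : ℕ) : ℝ) := by
    have : (200 : ℝ) ≤ ((k ^ 2 : ℕ) : ℝ) := by exact_mod_cast hNum.M200
    linarith
  obtain ⟨H2, P2, hH2, hH2', hR, hS, hPhi⟩ := loop hF hNum V.length V le_rfl hV hr H []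
    (hW.le.trans hWH) (by intro p hp; simp at hp) (by simpa [areaL] using hA) (by
      have e0 : PhiL ([] : List (ℝ × ℝ)) = 0 := PhiL_nil
      rw [e0]
      have e1 : 8 / (((k ^ 2 : ℕ) : ℝ) * 2 ^ k) * (V.length : ℝ) ≤ 8 / ((k ^ 2 : ℕ) : ℝ) := by
        have : (V.length : ℝ) ≤ 2 ^ k := by exact_mod_cast hlenV
        calc 8 / (((k ^ 2 : ℕ) : ℝ) * 2 ^ k) * (V.length : ℝ)
            ≤ 8 / (((k ^ 2 : ℕ) : ℝ) * 2 ^ k) * 2 ^ k := by gcongr
          _ = 8 / ((k ^ 2 : ℕ) : ℝ) := by field_simp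
      have e2 : 56 * ((k ^ 2 : ℕ) : ℝ) * W ≤ 1 / ((k ^ 2 : ℕ) : ℝ) := by
        rw [le_div_iff₀ hMpos]
        have := hNum.WM
        nlinarith
      have e3 : 10 / ((k ^ 2 : ℕ) : ℝ) = 8 / ((k ^ 2 : ℕ) : ℝ) + 1 / ((k ^ 2 : ℕ) : ℝ) +
          1 / ((k ^ 2 : ℕ) : ℝ) := by ring
      have e4 : 0 < 1 / ((k ^ 2 : ℕ) : ℝ) := by positivity
      linarith)
  refine ⟨H2, P2, hH2, hH2', hR, hS, ?_⟩
  have : ((k ^ 2 : ℕ) : ℝ) = (k : ℝ) ^ 2 := by push_cast; rfl
  rwa [this] at hPhi

end Pool.Agent.H180R2.MM
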