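import Pool.Agent.H180R2.MM.Piece

namespace Pool.Agent.H180R2.MM
open Finset

/-- one round over a list of pieces -/
theorem smallRound {x y : ℕ → ℝ} (k : ℕ)
    (hpiece : ∀ d : ℝ × ℝ,
      wk (k + 1) < min d.1 d.2 → min d.1 d.2 ≤ wk k → Phi d ≤ 1 / 10 ^ 9 →
      ∀ U : Finset ℕ, (U.card : ℝ) ≤ 2 ^ k / 10 ^ 6 →
      ∃ (S : List ℕ) (P' : List (ℝ × ℝ)), S.Nodup ∧
        (∀ n ∈ S, 2 ^ k ≤ n ∧ n < 3 * 2 ^ k ∧ Even n ∧ n ∉ U) ∧
        Refines [d] (S.map (sq x y) ++ P') ∧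
        (∀ p ∈ P', 0 ≤ p.1 ∧ 0 ≤ p.2 ∧ min p.1 p.2 ≤ 6 / 10 * min d.1 d.2) ∧
        PhiL P' ≤ Phi d ∧ (S.length : ℝ) ≤ 8 * Phi d * 2 ^ k)
    (v : ℝ) (hv : v ≤ wk k) :
    ∀ P : List (ℝ × ℝ), (∀ p ∈ P, 0 ≤ p.1 ∧ 0 ≤ p.2 ∧ min p.1 p.2 ≤ v) →
    PhiL P ≤ 1 / 10 ^ 9 → ∀ U : Finset ℕ, (U.card : ℝ) + 8 * PhiL P * 2 ^ k ≤ 2 ^ k / 10 ^ 6 →
    ∃ (S : List ℕ) (P' : List (ℝ × ℝ)), S.Nodup ∧
      (∀ n ∈ S, 2 ^ k ≤ n ∧ n < 3 * 2 ^ k ∧ Even n ∧ n ∉ U) ∧
      Refines P (S.map (sq x y) ++ P') ∧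
      (∀ p ∈ P', 0 ≤ p.1 ∧ 0 ≤ p.2 ∧ min p.1 p.2 ≤ max (wk (k + 1)) (6 / 10 * v)) ∧
      PhiL P' ≤ PhiL P ∧ (S.length : ℝ) ≤ 8 * PhiL P * 2 ^ k := by
  classical
  intro P
  induction P with
  | nil =>
    intro _ _ U _
    exact ⟨[], [], List.nodup_nil, by simp, by simpa using Refines.refl [], by simp, le_refl _,
      by simp [PhiL]⟩
  | cons d P ih =>
    intro hP hPhi U hU
    have hP' : ∀ p ∈ P, 0 ≤ p.1 ∧ 0 ≤ p.2 ∧ min p.1 p.2 ≤ v := fun p hp => hP p (by simp [hp])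
    have hd := hP d (by simp)
    have hd0 : 0 ≤ Phi d := Phi_nonneg hd.1 hd.2.1
    have hP0 : 0 ≤ PhiL P := PhiL_nonneg fun p hp => ⟨(hP' p hp).1, (hP' p hp).2.1⟩
    rw [PhiL_cons] at hPhi hU
    have h2 : (0 : ℝ) < 2 ^ k := by positivity
    by_cases hmin : wk (k + 1) < min d.1 d.2
    · obtain ⟨S1, P1, hS1, hS1r, hR1, hP1, hPhi1, hL1⟩ := hpiece d hmin (hd.2.2.trans hv)
        (by linarith) U (by nlinarith)
      have hcard : ((U ∪ S1.toFinset).card : ℝ) ≤ U.card + S1.length := by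
        have h3 : (U ∪ S1.toFinset).card ≤ U.card + S1.length :=
          (Finset.card_union_le _ _).trans (Nat.add_le_add_left (List.toFinset_card_le _) _)
        exact_mod_cast h3
      obtain ⟨S2, P2, hS2, hS2r, hR2, hP2, hPhi2, hL2⟩ := ih hP' (by linarith)
        (U ∪ S1.toFinset) (by nlinarith)
      refine ⟨S1 ++ S2, P1 ++ P2, ?_, ?_, ?_, ?_, ?_, ?_⟩
      · rw [List.nodup_append]
        refine ⟨hS1, hS2, ?_⟩
        intro a ha b hb hab
        subst hab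
        have := (hS2r a hb).2.2.2
        simp [ha] at this
      · intro n hn
        rcases List.mem_append.1 hn with hn | hn
        · exact hS1r n hn
        · have := hS2r n hn
          refine ⟨this.1, this.2.1, this.2.2.1, ?_⟩
          intro h; exact this.2.2.2 (Finset.mem_union_left _ h)
      · have h4 : Refines (d :: P) ((S1.map (sq x y) ++ P1) ++ (S2.map (sq x y) ++ P2)) := by
          have := hR1.append hR2
          simpa using this
        refine h4.trans (Refines.of_perm ?_)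
        rw [List.map_append, List.append_assoc, List.append_assoc]
        refine List.Perm.append_left _ ?_
        rw [← List.append_assoc, ← List.append_assoc]
        exact List.Perm.append_right _ List.perm_append_comm
      · intro p hp
        rcases List.mem_append.1 hp with hp | hp
        · have := hP1 p hp
          refine ⟨this.1, this.2.1, this.2.2.trans (le_max_of_le_right ?_)⟩
          have := hd.2.2
          linarith
        · exact hP2 p hp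
      · rw [PhiL_append, PhiL_cons]; linarith
      · rw [PhiL_cons, List.length_append]
        push_cast
        nlinarith
    · obtain ⟨S2, P2, hS2, hS2r, hR2, hP2, hPhi2, hL2⟩ := ih hP' (by linarith)
        U (by nlinarith)
      refine ⟨S2, d :: P2, hS2, hS2r, ?_, ?_, ?_, ?_⟩
      · have h4 : Refines (d :: P) ([d] ++ (S2.map (sq x y) ++ P2)) := by
          have := (Refines.refl [d]).append hR2
          simpa using this
        refine h4.trans (Refines.of_perm ?_)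
        simp only [List.singleton_append]
        exact List.perm_middle.symm
      · intro p hp
        rcases List.mem_cons.1 hp with rfl | hp
        · exact ⟨hd.1, hd.2.1, le_max_of_le_left (not_lt.1 hmin)⟩
        · exact hP2 p hp
      · rw [PhiL_cons, PhiL_cons]; linarith
      · rw [PhiL_cons]
        nlinarith

theorem wk_succ (k : ℕ) : wk (k + 1) = wk k / 2 := by
  unfold wk; rw [pow_succ]; field_simp

theorem wk_pos (k : ℕ) : 0 < wk k := by unfold wk; positivity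

theorem smallStage {x y : ℕ → ℝ} (hF : Fam x y) : ∃ k0 : ℕ, ∀ k ≥ k0, ∀ P : List (ℝ × ℝ),
    (∀ p ∈ P, 0 ≤ p.1 ∧ 0 ≤ p.2 ∧ min p.1 p.2 ≤ wk k) → PhiL P ≤ 1 / 10 ^ 9 →
    ∀ U : Finset ℕ, (U.card : ℝ) ≤ 2 ^ k / 10 ^ 7 →
    ∃ (S : List ℕ) (P' : List (ℝ × ℝ)), S.Nodup ∧
      (∀ n ∈ S, 2 ^ k ≤ n ∧ n < 3 * 2 ^ k ∧ Even n ∧ n ∉ U) ∧
      Refines P (S.map (sq x y) ++ P') ∧
      (∀ p ∈ P', 0 ≤ p.1 ∧ 0 ≤ p.2 ∧ min p.1 p.2 ≤ wk (k + 1)) ∧
      PhiL P' ≤ PhiL P ∧ (S.length : ℝ) ≤ 2 ^ k / 10 ^ 7 := by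
  classical
  obtain ⟨k0, hk0⟩ := piece hF
  refine ⟨k0, fun k hk P hP hPhi U hU => ?_⟩
  have hpk := hk0 k hk
  have h2 : (0 : ℝ) < 2 ^ k := by positivity
  have hP0 : 0 ≤ PhiL P := PhiL_nonneg fun p hp => ⟨(hP p hp).1, (hP p hp).2.1⟩
  have hw0 := wk_pos k
  obtain ⟨S1, P1, hS1, hS1r, hR1, hP1, hPhi1, hL1⟩ := smallRound k hpk (wk k) le_rfl P hP hPhi U
    (by nlinarith)
  have hP1' : ∀ p ∈ P1, 0 ≤ p.1 ∧ 0 ≤ p.2 ∧ min p.1 p.2 ≤ 6 / 10 * wk k := by
    intro p hp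
    have := hP1 p hp
    refine ⟨this.1, this.2.1, this.2.2.trans ?_⟩
    rw [wk_succ]
    apply max_le <;> linarith
  have hP10 : 0 ≤ PhiL P1 := PhiL_nonneg fun p hp => ⟨(hP1' p hp).1, (hP1' p hp).2.1⟩
  have hcard : ((U ∪ S1.toFinset).card : ℝ) ≤ U.card + S1.length := by
    have h3 : (U ∪ S1.toFinset).card ≤ U.card + S1.length :=
      (Finset.card_union_le _ _).trans (Nat.add_le_add_left (List.toFinset_card_le _) _)
    exact_mod_cast h3
  obtain ⟨S2, P2, hS2, hS2r, hR2, hP2, hPhi2, hL2⟩ := smallRound k hpk (6 / 10 * wk k)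
    (by linarith) P1 hP1' (by linarith) (U ∪ S1.toFinset) (by nlinarith)
  refine ⟨S1 ++ S2, P2, ?_, ?_, ?_, ?_, ?_, ?_⟩
  · rw [List.nodup_append]
    refine ⟨hS1, hS2, ?_⟩
    intro a ha b hb hab
    subst hab
    have := (hS2r a hb).2.2.2
    simp [ha] at this
  · intro n hn
    rcases List.mem_append.1 hn with hn | hn
    · exact hS1r n hn
    · have := hS2r n hn
      refine ⟨this.1, this.2.1, this.2.2.1, ?_⟩
      intro h; exact this.2.2.2 (Finset.mem_union_left _ h)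
  · have h5 := hR1.trans ((Refines.refl (S1.map (sq x y))).append hR2)
    simpa [List.append_assoc] using h5
  · intro p hp
    have := hP2 p hp
    refine ⟨this.1, this.2.1, this.2.2.trans ?_⟩
    rw [wk_succ]
    apply max_le <;> linarith
  · linarith
  · rw [List.length_append]
    push_cast
    nlinarith

end Pool.Agent.H180R2.MM
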