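import Pool.Agent.H180R2.MM.Found

namespace Pool.Agent.H180R2.MM
open Finset

section
variable {x y : ℕ → ℝ}

theorem Fam.antix (hF : Fam x y) {m n : ℕ} (hm : 1 ≤ m) (h : m ≤ n) : x n ≤ x m := by
  have h1 := hF.lowx m n hm h
  have h2 : (0 : ℝ) ≤ ((n : ℝ) - m) / ((n : ℝ) + 1) ^ 2 := by
    have : (m : ℝ) ≤ n := by exact_mod_cast h
    apply div_nonneg (by linarith) (by positivity)
  linarith

theorem Fam.antiy (hF : Fam x y) {m n : ℕ} (hm : 1 ≤ m) (h : m ≤ n) : y n ≤ y m := by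
  have h1 := hF.lowy m n hm h
  have h2 : (0 : ℝ) ≤ ((n : ℝ) - m) / ((n : ℝ) + 1) ^ 2 := by
    have : (m : ℝ) ≤ n := by exact_mod_cast h
    apply div_nonneg (by linarith) (by positivity)
  linarith

theorem Fam.ypos (hF : Fam x y) {n : ℕ} (hn : 1 ≤ n) : 0 < y n :=
  lt_of_lt_of_le (by positivity) (hF.lo n hn)

theorem Fam.xpos (hF : Fam x y) {n : ℕ} (hn : 1 ≤ n) : 0 < x n :=
  lt_of_lt_of_le (hF.ypos hn) (hF.le n hn)

theorem Fam.area_le (hF : Fam x y) {n : ℕ} (hn : 1 ≤ n) : x n * y n ≤ 1 / (n : ℝ) ^ 2 := by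
  have h1 := hF.up n hn
  have h2 := hF.le n hn
  have h3 := hF.ypos hn
  have h4 := hF.xpos hn
  have h5 : (1 : ℝ) / (n : ℝ) ^ 2 = 1 / n * (1 / n) := by rw [pow_two]; field_simp
  rw [h5]
  exact mul_le_mul h1 (h2.trans h1) h3.le (by positivity)

theorem Fam.le_area (hF : Fam x y) {n : ℕ} (hn : 1 ≤ n) : 1 / ((n : ℝ) + 1) ^ 2 ≤ x n * y n := by
  have h1 := hF.lo n hn
  have h2 := hF.le n hn
  have h5 : (1 : ℝ) / ((n : ℝ) + 1) ^ 2 = 1 / ((n : ℝ) + 1) * (1 / ((n : ℝ) + 1)) := by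
    rw [pow_two]; field_simp
  rw [h5]
  exact mul_le_mul (h1.trans h2) h1 (by positivity) (hF.xpos hn).le

/-- the area of the rectangles with index at least `N` -/
noncomputable def Tl (x y : ℕ → ℝ) (N : ℕ) : ℝ := ∑' i : ℕ, x (N + i) * y (N + i)

theorem Fam.partial_le (hF : Fam x y) {N : ℕ} (hN : 2 ≤ N) (m : ℕ) :
    ∑ i ∈ range m, x (N + i) * y (N + i) ≤ 1 / ((N : ℝ) - 1) - 1 / ((N : ℝ) - 1 + m) := by
  have hN' : (2 : ℝ) ≤ N := by exact_mod_cast hN
  induction m with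
  | zero => simp
  | succ m ih =>
    rw [sum_range_succ]
    have h1 := hF.area_le (n := N + m) (by omega)
    have h2 : (1 : ℝ) / ((N + m : ℕ) : ℝ) ^ 2 ≤
        1 / ((N : ℝ) - 1 + m) - 1 / ((N : ℝ) - 1 + (m + 1 : ℕ)) := by
      push_cast
      have e1 : (0 : ℝ) < (N : ℝ) - 1 + m := by
        have : (0 : ℝ) ≤ m := Nat.cast_nonneg m
        linarith
      have e2 : (0 : ℝ) < (N : ℝ) + m := by linarith
      have e3 : (N : ℝ) - 1 + (m + 1) = N + m := by ring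
      rw [e3, div_sub_div _ _ e1.ne' e2.ne', div_le_div_iff₀ (by positivity) (by positivity)]
      nlinarith
    linarith

theorem Fam.le_partial (hF : Fam x y) {N : ℕ} (hN : 1 ≤ N) (m : ℕ) :
    1 / ((N : ℝ) + 1) - 1 / ((N : ℝ) + 1 + m) ≤ ∑ i ∈ range m, x (N + i) * y (N + i) := by
  induction m with
  | zero => simp
  | succ m ih =>
    rw [sum_range_succ]
    have h1 := hF.le_area (n := N + m) (by omega)
    have h2 : 1 / ((N : ℝ) + 1 + m) - 1 / ((N : ℝ) + 1 + (m + 1 : ℕ)) ≤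
        (1 : ℝ) / (((N + m : ℕ) : ℝ) + 1) ^ 2 := by
      push_cast
      have e1 : (0 : ℝ) < (N : ℝ) + 1 + m := by positivity
      have e2 : (0 : ℝ) < (N : ℝ) + 1 + (m + 1) := by positivity
      have e3 : (N : ℝ) + m + 1 = N + 1 + m := by ring
      rw [e3, div_sub_div _ _ e1.ne' e2.ne', div_le_div_iff₀ (by positivity) (by positivity)]
      nlinarith
    linarith

theorem Fam.summable (hF : Fam x y) {N : ℕ} (hN : 2 ≤ N) :
    Summable fun i : ℕ => x (N + i) * y (N + i) := by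
  apply summable_of_sum_range_le (c := 1 / ((N : ℝ) - 1))
  · intro i
    exact mul_nonneg (hF.xpos (by omega)).le (hF.ypos (by omega)).le
  · intro m
    refine (hF.partial_le hN m).trans ?_
    have hN' : (2 : ℝ) ≤ N := by exact_mod_cast hN
    have : (0 : ℝ) ≤ 1 / ((N : ℝ) - 1 + m) := by
      apply div_nonneg zero_le_one
      have : (0 : ℝ) ≤ m := Nat.cast_nonneg m
      linarith
    linarith

theorem Fam.Tl_le (hF : Fam x y) {N : ℕ} (hN : 2 ≤ N) : Tl x y N ≤ 1 / ((N : ℝ) - 1) := by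
  apply Real.tsum_le_of_sum_range_le
  · intro i
    exact mul_nonneg (hF.xpos (by omega)).le (hF.ypos (by omega)).le
  · intro m
    refine (hF.partial_le hN m).trans ?_
    have hN' : (2 : ℝ) ≤ N := by exact_mod_cast hN
    have : (0 : ℝ) ≤ 1 / ((N : ℝ) - 1 + m) := by
      apply div_nonneg zero_le_one
      have : (0 : ℝ) ≤ m := Nat.cast_nonneg m
      linarith
    linarith

theorem Fam.le_Tl (hF : Fam x y) {N : ℕ} (hN : 2 ≤ N) : 1 / ((N : ℝ) + 1) ≤ Tl x y N := by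
  have hs := hF.summable hN
  have h1 : ∀ m : ℕ, 1 / ((N : ℝ) + 1) - 1 / ((N : ℝ) + 1 + m) ≤ Tl x y N := by
    intro m
    refine (hF.le_partial (by omega) m).trans ?_
    apply hs.sum_le_tsum
    intro i _
    exact mul_nonneg (hF.xpos (by omega)).le (hF.ypos (by omega)).le
  have h2 : Filter.Tendsto (fun m : ℕ => 1 / ((N : ℝ) + 1) - 1 / ((N : ℝ) + 1 + m)) Filter.atTop
      (nhds (1 / ((N : ℝ) + 1) - 0)) := by
    apply Filter.Tendsto.sub tendsto_const_nhds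
    apply Filter.Tendsto.div_atTop tendsto_const_nhds
    exact Filter.tendsto_atTop_add_const_left _ _ tendsto_natCast_atTop_atTop
  rw [sub_zero] at h2
  exact le_of_tendsto' h2 h1

theorem Fam.Tl_split (hF : Fam x y) {N M : ℕ} (hN : 2 ≤ N) (h : N ≤ M) :
    Tl x y N = ∑ n ∈ Ico N M, x n * y n + Tl x y M := by
  have hs := hF.summable hN
  unfold Tl
  rw [← hs.sum_add_tsum_nat_add (M - N), Finset.sum_Ico_eq_sum_range]
  congr 1
  apply tsum_congr
  intro i
  have : N + (i + (M - N)) = M + i := by omega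
  rw [this]

end

/-- reorient the reserve after a stage -/
theorem orient {ρ W H H' : ℝ} (hρ : 4 ≤ ρ) (hW : 0 < W) (hWH : W ≤ H) (hH : H ≤ ρ * W)
    (hH' : H' ≤ H) (hr : W * H ≤ 4 * (W * H')) :
    ∃ W2 H2, 0 < W2 ∧ W2 ≤ H2 ∧ H2 ≤ ρ * W2 ∧ W2 * H2 = W * H' ∧
      Refines [(W, H')] [(W2, H2)] := by
  rcases le_total W H' with h | h
  · exact ⟨W, H', hW, h, hH'.trans hH, rfl, Refines.refl _⟩
  · have h1 : H ≤ 4 * H' := by
      have : W * H ≤ W * (4 * H') := by linarith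
      exact le_of_mul_le_mul_left this hW
    have h2 : 0 < H' := by linarith
    refine ⟨H', W, h2, h, ?_, mul_comm _ _, Refines.swap _ _⟩
    have : 4 * H' ≤ ρ * H' := mul_le_mul_of_nonneg_right hρ h2.le
    linarith

end Pool.Agent.H180R2.MM
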