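import Pool.Agent.H180R2.MM.InvDef
import Pool.Agent.H180R2.MM.Tail
import Pool.Agent.H180R2.MM.SmallStage
import Pool.Agent.H180R2.MM.Reserve

namespace Pool.Agent.H180R2.MM
open Finset

theorem gap2_filter (p : ℕ → Bool) (hp : ∀ n, Odd n → p n = true) (m : ℕ) : ∀ n : ℕ,
    Gap2 ((List.range' n m).filter p) ∧
      ∀ h ∈ ((List.range' n m).filter p).head?, n ≤ h ∧ h ≤ n + 1 := by
  induction m with
  | zero => intro n; simp [Gap2]
  | succ m ih =>
    intro n
    obtain ⟨ih1, ih2⟩ := ih (n + 1)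
    rw [List.range'_succ]
    by_cases hn : p n = true
    · rw [List.filter_cons_of_pos hn]
      refine ⟨?_, by simp⟩
      unfold Gap2 at *
      cases hL : (List.range' (n + 1) m).filter p with
      | nil => simp
      | cons b t =>
        rw [hL] at ih1 ih2
        have := ih2 b (by simp)
        exact List.IsChain.cons_cons (by omega) ih1
    · rw [List.filter_cons_of_neg hn]
      refine ⟨ih1, ?_⟩
      have hodd : Odd (n + 1) := by
        by_contra h
        apply hn
        apply hp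
        rw [Nat.not_odd_iff_even] at h
        rcases Nat.even_or_odd n with h' | h'
        · exfalso
          have := h'.add_one
          exact (Nat.not_even_iff_odd.2 this) h
        · exact h'
      cases m with
      | zero => simp
      | succ m =>
        rw [List.range'_succ, List.filter_cons_of_pos (hp _ hodd)]
        simp

theorem areaL_sq (x y : ℕ → ℝ) {L : List ℕ} (hL : L.Nodup) :
    areaL (L.map (sq x y)) = ∑ n ∈ L.toFinset, x n * y n := by
  rw [List.sum_toFinset _ hL]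
  unfold areaL
  rw [List.map_map]
  rfl

theorem step {x y : ℕ → ℝ} (hF : Fam x y) (ρ : ℝ) (hρ : 4 ≤ ρ) : ∃ k0 : ℕ, ∀ k ≥ k0,
    ∀ (P : List (ℝ × ℝ)) (W H : ℝ) (Us : Finset ℕ), Inv x y ρ k P W H Us →
    ∃ (S : List ℕ) (P' : List (ℝ × ℝ)) (W' H' : ℝ) (Us' : Finset ℕ),
      Inv x y ρ (k + 1) P' W' H' Us' ∧ S.Nodup ∧
      Refines ((W, H) :: P) (S.map (sq x y) ++ (W', H') :: P') ∧
      ∀ n, n ∈ S ↔ (2 ^ k ≤ n ∧ n < 2 ^ (k + 1) ∧ n ∉ Us) ∨ n ∈ Us' := by
  classical
  obtain ⟨k1, hk1⟩ := smallStage hF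
  obtain ⟨k2, hk2⟩ := reserveStage hF ρ (by linarith)
  refine ⟨k1 + k2 + 10, fun k hk P W H Us hI => ?_⟩
  have hk10 : (10 : ℝ) ≤ k := by exact_mod_cast (by omega : 10 ≤ k)
  have hkpos : (0 : ℝ) < k := by linarith
  have h2k : (10 : ℝ) ≤ 2 ^ k := by
    have h1 : (2 : ℝ) ^ 10 ≤ 2 ^ k := pow_le_pow_right₀ (by norm_num) (by omega)
    have h2 : (10 : ℝ) ≤ 2 ^ 10 := by norm_num
    linarith
  have h2kN : 10 ≤ 2 ^ k := by exact_mod_cast h2k
  have hpow : 2 ^ (k + 1) = 2 ^ k + 2 ^ k := by rw [pow_succ]; omega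
  have hPhiP : PhiL P ≤ 1 / 10 ^ 9 := by
    have := hI.pot
    have h3 : (0 : ℝ) ≤ 20 / k := by positivity
    linarith
  obtain ⟨S1, P1, hS1, hS1r, hR1, hP1, hPhi1, hL1⟩ := hk1 k (by omega) P hI.small hPhiP Us hI.card
  set p : ℕ → Bool := fun n => decide (n ∉ Us ∧ n ∉ S1) with hp
  have hpodd : ∀ n, Odd n → p n = true := by
    intro n hn
    simp only [hp, decide_eq_true_eq]
    constructor
    · intro h
      have := (hI.us n h).2.2
      exact (Nat.not_even_iff_odd.2 hn) this
    · intro h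
      have := (hS1r n h).2.2.1
      exact (Nat.not_even_iff_odd.2 hn) this
  set V := (List.range' (2 ^ k) (2 ^ k)).filter p with hV
  have hVmem : ∀ n, n ∈ V ↔ 2 ^ k ≤ n ∧ n < 2 ^ (k + 1) ∧ n ∉ Us ∧ n ∉ S1 := by
    intro n
    rw [hV, List.mem_filter, List.mem_range'_1, hpow]
    simp only [hp, decide_eq_true_eq]
    tauto
  have hVnd : V.Nodup := List.Nodup.filter _ List.nodup_range'
  -- areas
  set B := Ico (2 ^ k) (2 ^ (k + 1)) with hB
  set f : ℕ → ℝ := fun n => x n * y n with hf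
  have hfpos : ∀ n, 1 ≤ n → 0 ≤ f n := fun n hn => mul_nonneg (hF.xpos hn).le (hF.ypos hn).le
  set Sa := S1.toFinset.filter (fun n => n < 2 ^ (k + 1)) with hSa
  set Sb := S1.toFinset.filter (fun n => ¬ n < 2 ^ (k + 1)) with hSb
  have hSsum : ∑ n ∈ S1.toFinset, f n = ∑ n ∈ Sa, f n + ∑ n ∈ Sb, f n :=
    (Finset.sum_filter_add_sum_filter_not _ _ _).symm
  have hBsum : ∑ n ∈ B, f n = ∑ n ∈ Us, f n + ∑ n ∈ Sa, f n + ∑ n ∈ V.toFinset, f n := by
    have e1 : B = (Us ∪ Sa) ∪ V.toFinset := by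
      ext n
      simp only [hB, Finset.mem_Ico, Finset.mem_union, hSa, Finset.mem_filter, List.mem_toFinset,
        hVmem]
      constructor
      · intro h
        by_cases h1 : n ∈ Us
        · tauto
        · by_cases h2 : n ∈ S1
          · tauto
          · tauto
      · rintro ((h | h) | h)
        · exact ⟨(hI.us n h).1, (hI.us n h).2.1⟩
        · exact ⟨(hS1r n h.1).1, h.2⟩
        · exact ⟨h.1, h.2.1⟩
    rw [e1, Finset.sum_union, Finset.sum_union]
    · rw [Finset.disjoint_left]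
      intro n hn hn'
      simp only [hSa, Finset.mem_filter, List.mem_toFinset] at hn'
      exact (hS1r n hn'.1).2.2.2 hn
    · rw [Finset.disjoint_left]
      intro n hn hn'
      rw [List.mem_toFinset, hVmem] at hn'
      rcases Finset.mem_union.1 hn with h | h
      · exact hn'.2.2.1 h
      · simp only [hSa, Finset.mem_filter, List.mem_toFinset] at h
        exact hn'.2.2.2 h.1
  have h2k2 : 2 ≤ 2 ^ k := by omega
  have hTsplit : Tl x y (2 ^ k) = ∑ n ∈ B, f n + Tl x y (2 ^ (k + 1)) :=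
    hF.Tl_split h2k2 (by omega)
  have hArea : W * H + areaL P + ∑ n ∈ Us, f n = Tl x y (2 ^ k) := hI.area
  have hAR1 := hR1.2
  rw [areaL_append, areaL_sq x y hS1] at hAR1
  have hVarea : areaL (V.map (sq x y)) = ∑ n ∈ V.toFinset, f n := areaL_sq x y hVnd
  have hSb0 : 0 ≤ ∑ n ∈ Sb, f n := by
    apply Finset.sum_nonneg
    intro n hn
    simp only [hSb, Finset.mem_filter, List.mem_toFinset] at hn
    exact hfpos n (by omega)
  have hSa0 : 0 ≤ ∑ n ∈ Sa, f n := by
    apply Finset.sum_nonneg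
    intro n hn
    simp only [hSa, Finset.mem_filter, List.mem_toFinset] at hn
    exact hfpos n (by have := (hS1r n hn.1).1; omega)
  have hUs0 : 0 ≤ ∑ n ∈ Us, f n := by
    apply Finset.sum_nonneg
    intro n hn
    exact hfpos n (by have := (hI.us n hn).1; omega)
  have hP10 : 0 ≤ areaL P1 := areaL_nonneg fun p hp => ⟨(hP1 p hp).1, (hP1 p hp).2.1⟩
  have hP0 : 0 ≤ areaL P := areaL_nonneg fun p hp => ⟨(hI.small p hp).1, (hI.small p hp).2.1⟩
  have hPPhi0 : 0 ≤ PhiL P := PhiL_nonneg fun p hp => ⟨(hI.small p hp).1, (hI.small p hp).2.1⟩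
  have hwk : wk k ≤ 2 / 2 ^ k := by
    unfold wk
    apply div_le_div_of_nonneg_right _ (by positivity)
    norm_num
  have hwk0 : 0 ≤ wk k := by unfold wk; positivity
  have hAP : areaL P ≤ (1 / 100) / 2 ^ k := by
    refine (areaL_le_PhiL hI.small).trans ?_
    calc PhiL P * wk k ≤ (1 / 10 ^ 9) * (2 / 2 ^ k) := mul_le_mul hPhiP hwk hwk0 (by positivity)
      _ = (2 / 10 ^ 9) / 2 ^ k := by ring
      _ ≤ (1 / 100) / 2 ^ k := by
          apply div_le_div_of_nonneg_right _ (by positivity)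
          norm_num
  have hWHeq : W * H = ∑ n ∈ V.toFinset, f n + Tl x y (2 ^ (k + 1)) - ∑ n ∈ Sb, f n - areaL P1 := by
    linarith
  have hT2 : (45 / 100) / 2 ^ k ≤ Tl x y (2 ^ (k + 1)) := by
    refine le_trans ?_ (hF.le_Tl (by omega))
    rw [div_le_div_iff₀ (by linarith) (by positivity)]
    push_cast
    rw [pow_succ]
    linarith
  have hT1 : Tl x y (2 ^ k) ≤ (3 / 2) / 2 ^ k := by
    refine (hF.Tl_le h2k2).trans ?_
    push_cast
    rw [div_le_div_iff₀ (by linarith) (by linarith)]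
    linarith
  have hWHle : W * H ≤ (3 / 2) / 2 ^ k := by linarith
  have hsubs : ∀ c1 c2 : ℝ, c1 / 2 ^ k - c2 / 2 ^ k = (c1 - c2) / 2 ^ k := fun c1 c2 => by ring
  have hmonod : ∀ c1 c2 : ℝ, c1 ≤ c2 → c1 / 2 ^ k ≤ c2 / 2 ^ k := fun c1 c2 h =>
    div_le_div_of_nonneg_right h (by positivity)
  obtain ⟨H', Pr, hH'0, hH', hRef, hPr, hPhir⟩ := hk2 k (by omega) V
    ((gap2_filter p hpodd (2 ^ k) (2 ^ k)).1)
    (fun n hn => by have := (hVmem n).1 hn; omega) W H hI.Wpos hI.WH hI.HW
    (hWHle.trans (hmonod _ _ (by norm_num)))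
    (by
      rw [hVarea]
      have e1 := hmonod (1 / 4) (45 / 100 - 1 / 100) (by norm_num)
      have e2 := hsubs (45 / 100) (1 / 100)
      linarith)
  have hAr := hRef.2
  have hAr0 : areaL [(W, H)] = W * H := by simp [areaL]
  rw [hAr0, areaL_append, areaL_cons, hVarea] at hAr
  simp only at hAr
  have hpotstep : 10 / (k : ℝ) ^ 2 ≤ 20 / k - 20 / ((k + 1 : ℕ) : ℝ) := by
    push_cast
    rw [div_sub_div _ _ (by positivity) (by positivity), div_le_div_iff₀ (by positivity) (by positivity)]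
    nlinarith
  have hPhir' : PhiL Pr ≤ 1 / 10 ^ 9 := by
    have e1 := hI.pot
    have e2 : (0 : ℝ) ≤ 20 / ((k + 1 : ℕ) : ℝ) := by positivity
    have e3 : PhiL Pr ≤ 20 / k := by linarith
    linarith
  have hareaPr : areaL Pr ≤ (1 / 100) / 2 ^ k := by
    refine (areaL_le_PhiL (v := wk (k + 1)) hPr).trans ?_
    have e2 : wk (k + 1) ≤ 1 / 2 ^ k := by
      unfold wk; rw [pow_succ, div_le_div_iff₀ (by positivity) (by positivity)]
      linarith
    have e3 : 0 ≤ wk (k + 1) := by unfold wk; positivity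
    calc PhiL Pr * wk (k + 1) ≤ (1 / 10 ^ 9) * (1 / 2 ^ k) :=
          mul_le_mul hPhir' e2 e3 (by positivity)
      _ = (1 / 10 ^ 9) / 2 ^ k := by ring
      _ ≤ (1 / 100) / 2 ^ k := hmonod _ _ (by norm_num)
  have hWH' : (43 / 100) / 2 ^ k ≤ W * H' := by
    have e1 := hsubs (45 / 100) (1 / 100)
    have e2 := hsubs (45 / 100 - 1 / 100) (1 / 100)
    have e3 := hmonod (43 / 100) (45 / 100 - 1 / 100 - 1 / 100) (by norm_num)
    linarith
  obtain ⟨W2, H2, hW2, hW2H2, hH2, hprod, hRef2⟩ := orient hρ hI.Wpos hI.WH hI.HW hH'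
    (by
      have e1 : (4 : ℝ) * ((43 / 100) / 2 ^ k) = (172 / 100) / 2 ^ k := by ring
      have e2 := hmonod (3 / 2) (172 / 100) (by norm_num)
      linarith)
  refine ⟨S1 ++ V, P1 ++ Pr, W2, H2, Sb, ?_, ?_, ?_, ?_⟩
  · refine ⟨?_, ?_, hW2, hW2H2, hH2, ?_, ?_, ?_⟩
    · intro q hq
      rcases List.mem_append.1 hq with h | h
      · exact hP1 q h
      · exact hPr q h
    · rw [PhiL_append]
      have := hI.pot
      linarith
    · intro n hn
      simp only [hSb, Finset.mem_filter, List.mem_toFinset, not_lt] at hn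
      have h5 := hS1r n hn.1
      refine ⟨hn.2, ?_, h5.2.2.1⟩
      have : 2 ^ (k + 1 + 1) = 2 ^ (k + 1) + 2 ^ (k + 1) := by rw [pow_succ]; omega
      omega
    · have e1 : (Sb.card : ℝ) ≤ S1.length := by
        have : Sb.card ≤ S1.length :=
          (Finset.card_filter_le _ _).trans (List.toFinset_card_le _)
        exact_mod_cast this
      refine e1.trans (hL1.trans ?_)
      apply div_le_div_of_nonneg_right _ (by positivity)
      rw [pow_succ]; linarith
    · rw [hprod, areaL_append]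
      change _ = Tl x y (2 ^ (k + 1))
      change W * H' + (areaL P1 + areaL Pr) + ∑ n ∈ Sb, f n = _
      linarith
  · rw [List.nodup_append]
    refine ⟨hS1, hVnd, ?_⟩
    intro a ha b hb hab
    subst hab
    exact ((hVmem a).1 hb).2.2.2 ha
  · have e1 : Refines [(W, H)] (V.map (sq x y) ++ (W2, H2) :: Pr) := by
      refine hRef.trans ((Refines.refl _).append ?_)
      have := hRef2.append (Refines.refl Pr)
      simpa using this
    have e2 : Refines ((W, H) :: P) ((V.map (sq x y) ++ (W2, H2) :: Pr) ++ (S1.map (sq x y) ++ P1)) := by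
      have := e1.append hR1
      simpa using this
    refine e2.trans (Refines.of_perm ?_)
    rw [List.map_append]
    refine List.Perm.trans List.perm_append_comm ?_
    rw [List.append_assoc, List.append_assoc]
    refine List.Perm.append_left _ ?_
    refine List.Perm.trans (List.perm_append_comm) ?_
    rw [List.append_assoc]
    refine List.Perm.append_left _ ?_
    rw [List.cons_append]
    exact List.Perm.cons _ List.perm_append_comm
  · intro n
    rw [List.mem_append, hVmem]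
    simp only [hSb, Finset.mem_filter, List.mem_toFinset, not_lt]
    constructor
    · rintro (h | h)
      · have h5 := hS1r n h
        by_cases hlt : n < 2 ^ (k + 1)
        · left; exact ⟨h5.1, hlt, h5.2.2.2⟩
        · right; exact ⟨h, not_lt.1 hlt⟩
      · left; exact ⟨h.1, h.2.1, h.2.2.1⟩
    · rintro (h | h)
      · by_cases hs : n ∈ S1
        · left; exact hs
        · right; exact ⟨h.1, h.2.1, h.2.2, hs⟩
      · left; exact h.1

end Pool.Agent.H180R2.MM
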