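import Pool.Agent.H180R2.MM.InvDef
import Pool.Agent.H180R2.MM.Tail
import Pool.Agent.H180R2.MM.Limit
import Pool.Agent.H180R2.MM.Step
import Pool.Agent.H180R2.MM.Reserve

namespace Pool.Agent.H180R2.MM
open Finset

/-- a state at the beginning of stage `k` -/
structure St (x y : ℕ → ℝ) (ρ : ℝ) (k : ℕ) where
  P : List (ℝ × ℝ)
  W : ℝ
  H : ℝ
  Us : Finset ℕ
  inv : Inv x y ρ k P W H Us

theorem gap2_range' (n m : ℕ) : Gap2 (List.range' n m) := by
  unfold Gap2
  induction m generalizing n with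
  | zero => simp
  | succ m ih =>
    cases m with
    | zero => simp
    | succ m =>
      have := ih (n + 1)
      rw [List.range'_succ, List.range'_succ]
      rw [List.range'_succ] at this
      exact List.IsChain.cons_cons (by omega) this

theorem areaL_range' (x y : ℕ → ℝ) (n m : ℕ) (h : n ≤ m) :
    areaL ((List.range' n (m - n)).map (sq x y)) = ∑ i ∈ Ico n m, x i * y i := by
  unfold areaL
  rw [List.map_map]
  have : ((fun d : ℝ × ℝ => d.1 * d.2) ∘ sq x y) = fun i => x i * y i := by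
    funext i; rfl
  rw [this]
  clear this
  obtain ⟨t, rfl⟩ := Nat.exists_eq_add_of_le h
  rw [Nat.add_sub_cancel_left, Finset.sum_Ico_eq_sum_range, Nat.add_sub_cancel_left]
  clear h
  induction t with
  | zero => simp
  | succ t ih =>
    rw [List.range'_concat, List.map_append, List.sum_append, ih, Finset.sum_range_succ]
    simp

theorem mainCase {x y : ℕ → ℝ} (hF : Fam x y) (ρ : ℝ) (hρ : 4 ≤ ρ) : ∃ N : ℕ, ∀ n0 ≥ N,
    ∀ a b : ℝ, 0 < a → a ≤ b → b ≤ ρ * a →
    a * b = Tl x y n0 →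
    ∃ pos : ℕ → PR, (∀ n ≥ n0, Match (sq x y n) (pos n) ∧ Inside (pos n) ⟨0, 0, a, b⟩) ∧
      ∀ n ≥ n0, ∀ m ≥ n0, n ≠ m → Disj (pos n) (pos m) := by
  classical
  obtain ⟨k1, hk1⟩ := step hF ρ hρ
  obtain ⟨k2, hk2⟩ := reserveStage hF ρ (by linarith)
  obtain ⟨k3, hk3⟩ := exists_nat_gt ((30 : ℝ) * 10 ^ 9)
  refine ⟨2 ^ (k1 + k2 + k3 + 10), fun n0 hn0 a b ha hab hba harea => ?_⟩
  set k := Nat.log 2 n0 with hk
  have hn0pos : n0 ≠ 0 := by
    have : 0 < 2 ^ (k1 + k2 + k3 + 10) := by positivity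
    omega
  have hkl : 2 ^ k ≤ n0 := Nat.pow_log_le_self 2 hn0pos
  have hku : n0 < 2 ^ (k + 1) := Nat.lt_pow_succ_log_self (by norm_num) n0
  have hkK : k1 + k2 + k3 + 10 ≤ k := by
    rw [hk]
    exact Nat.le_log_of_pow_le (by norm_num) hn0
  have hkbig : (30 : ℝ) * 10 ^ 9 ≤ k := by
    have : (k3 : ℝ) ≤ k := by exact_mod_cast (by omega : k3 ≤ k)
    linarith
  have h2k : (10 : ℝ) ≤ 2 ^ k := by
    have h1 : (2 : ℝ) ^ 10 ≤ 2 ^ k := pow_le_pow_right₀ (by norm_num) (by omega)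
    have h2 : (10 : ℝ) ≤ 2 ^ 10 := by norm_num
    linarith
  have hn0k : (2 : ℝ) ^ k ≤ n0 := by exact_mod_cast hkl
  have hn02 : 2 ≤ n0 := by
    have : (2 : ℝ) ≤ n0 := by linarith
    exact_mod_cast this
  have hab0 : 0 < b := lt_of_lt_of_le ha hab
  -- numbers
  have hT1 : Tl x y n0 ≤ (3 / 2) / 2 ^ k := by
    refine (hF.Tl_le hn02).trans ?_
    rw [div_le_div_iff₀ (by linarith) (by linarith)]
    linarith
  have h2k1 : 2 ≤ 2 ^ (k + 1) := by
    have : 2 ^ 1 ≤ 2 ^ (k + 1) := Nat.pow_le_pow_right (by norm_num) (by omega)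
    simpa using this
  have hT2 : (45 / 100) / 2 ^ k ≤ Tl x y (2 ^ (k + 1)) := by
    refine le_trans ?_ (hF.le_Tl h2k1)
    rw [div_le_div_iff₀ (by linarith) (by positivity)]
    push_cast
    rw [pow_succ]
    linarith
  set V := List.range' n0 (2 ^ (k + 1) - n0) with hV
  have hVmem : ∀ n, n ∈ V ↔ n0 ≤ n ∧ n < 2 ^ (k + 1) := by
    intro n
    rw [hV, List.mem_range'_1]
    omega
  have hVarea : areaL (V.map (sq x y)) + Tl x y (2 ^ (k + 1)) = a * b := by
    rw [hV, areaL_range' x y _ _ hku.le, harea, hF.Tl_split hn02 hku.le]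
  obtain ⟨H', P', hH'0, hH', hRef, hP', hPhi'⟩ := hk2 k (by omega) V (gap2_range' _ _)
    (fun n hn => by have := (hVmem n).1 hn; omega) a b ha hab hba
    (by
      rw [harea]; refine hT1.trans ?_
      apply div_le_div_of_nonneg_right _ (by positivity)
      norm_num)
    (by
      have : (1 / 4 : ℝ) / 2 ^ k ≤ (45 / 100) / 2 ^ k := by
        apply div_le_div_of_nonneg_right _ (by positivity)
        norm_num
      linarith)
  have hAr := hRef.2
  have hAr0 : areaL [(a, b)] = a * b := by simp [areaL]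
  rw [hAr0, areaL_append, areaL_cons] at hAr
  have hkpos : (0 : ℝ) < k := by linarith
  have hpot : 10 / (k : ℝ) ^ 2 ≤ 1 / 10 ^ 9 - 20 / ((k + 1 : ℕ) : ℝ) := by
    have e1 : 10 / (k : ℝ) ^ 2 ≤ 1 / (30 * 10 ^ 9) := by
      rw [div_le_div_iff₀ (by positivity) (by positivity)]
      nlinarith
    have e2 : 20 / ((k + 1 : ℕ) : ℝ) ≤ 20 / (30 * 10 ^ 9) := by
      apply div_le_div_of_nonneg_left (by norm_num) (by positivity)
      push_cast; linarith
    have e3 : (1 : ℝ) / (30 * 10 ^ 9) + 20 / (30 * 10 ^ 9) ≤ 1 / 10 ^ 9 := by norm_num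
    linarith
  have hareaP' : areaL P' ≤ (1 / 100) / 2 ^ k := by
    refine (areaL_le_PhiL (v := wk (k + 1)) hP').trans ?_
    have e1 : PhiL P' ≤ 1 / 10 ^ 9 := by
      have : (0 : ℝ) ≤ 20 / ((k + 1 : ℕ) : ℝ) := by positivity
      linarith
    have e2 : wk (k + 1) ≤ 1 / 2 ^ k := by
      unfold wk; rw [pow_succ, div_le_div_iff₀ (by positivity) (by positivity)]
      linarith
    have e3 : 0 ≤ wk (k + 1) := by unfold wk; positivity
    calc PhiL P' * wk (k + 1) ≤ (1 / 10 ^ 9) * (1 / 2 ^ k) :=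
          mul_le_mul e1 e2 e3 (by positivity)
      _ = (1 / 10 ^ 9) / 2 ^ k := by ring
      _ ≤ (1 / 100) / 2 ^ k := by
          apply div_le_div_of_nonneg_right _ (by positivity)
          norm_num
  have hWH' : (44 / 100) / 2 ^ k ≤ a * H' := by
    have : (45 / 100 : ℝ) / 2 ^ k - (1 / 100) / 2 ^ k = (44 / 100) / 2 ^ k := by ring
    linarith
  obtain ⟨W2, H2, hW2, hW2H2, hH2, hprod, hRef2⟩ := orient hρ ha hab hba hH'
    (by
      have e1 : (4 : ℝ) * ((44 / 100) / 2 ^ k) = (176 / 100) / 2 ^ k := by ring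
      have e2 : (3 / 2 : ℝ) / 2 ^ k ≤ (176 / 100) / 2 ^ k := by
        apply div_le_div_of_nonneg_right _ (by positivity)
        norm_num
      linarith)
  have inv0 : Inv x y ρ (k + 1) P' W2 H2 ∅ := by
    refine ⟨hP', hPhi'.trans hpot, hW2, hW2H2, hH2, by simp, by simp; positivity, ?_⟩
    rw [hprod]
    simp only [Finset.sum_empty, add_zero]
    change _ = Tl x y (2 ^ (k + 1))
    linarith
  have hRef3 : Refines [(a, b)] (V.map (sq x y) ++ (W2, H2) :: P') := by
    refine hRef.trans ((Refines.refl _).append ?_)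
    have := hRef2.append (Refines.refl P')
    simpa using this
  -- iteration
  have hst : ∀ (j : ℕ) (s : St x y ρ (k + 1 + j)), ∃ (S : List ℕ) (s' : St x y ρ (k + 1 + (j + 1))),
      S.Nodup ∧ Refines ((s.W, s.H) :: s.P) (S.map (sq x y) ++ (s'.W, s'.H) :: s'.P) ∧
      ∀ n, n ∈ S ↔ (2 ^ (k + 1 + j) ≤ n ∧ n < 2 ^ (k + 1 + (j + 1)) ∧ n ∉ s.Us) ∨ n ∈ s'.Us := by
    intro j s
    obtain ⟨S, P'', W'', H'', Us'', hinv, hnd, hr, hm⟩ := hk1 (k + 1 + j) (by omega) s.P s.W s.H s.Us s.inv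
    exact ⟨S, ⟨P'', W'', H'', Us'', hinv⟩, hnd, hr, hm⟩
  choose Sf nxt hSf1 hSf2 hSf3 using hst
  let s0 : St x y ρ (k + 1 + 0) := ⟨P', W2, H2, ∅, inv0⟩
  let st : ∀ j, St x y ρ (k + 1 + j) := fun j =>
    Nat.rec (motive := fun j => St x y ρ (k + 1 + j)) s0 (fun j s => nxt j s) j
  have hst0 : st 0 = s0 := rfl
  have hsts : ∀ j, st (j + 1) = nxt j (st j) := fun j => rfl
  let PP : ℕ → List (ℝ × ℝ) := fun j => match j with
    | 0 => [(a, b)]
    | j + 1 => ((st j).W, (st j).H) :: (st j).P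
  let SS : ℕ → List ℕ := fun j => match j with
    | 0 => V
    | j + 1 => Sf j (st j)
  have hPS : ∀ j, Refines (PP j) ((SS j).map (sq x y) ++ PP (j + 1)) := by
    intro j
    cases j with
    | zero => exact hRef3
    | succ j => exact hSf2 j (st j)
  have hSm : ∀ j n, n ∈ SS (j + 1) ↔
      (2 ^ (k + 1 + j) ≤ n ∧ n < 2 ^ (k + 1 + (j + 1)) ∧ n ∉ (st j).Us) ∨ n ∈ (st (j + 1)).Us :=
    fun j n => hSf3 j (st j) n
  have hUs : ∀ j n, n ∈ (st j).Us → 2 ^ (k + 1 + j) ≤ n ∧ n < 2 ^ (k + 1 + (j + 1)) := by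
    intro j n hn
    have := (st j).inv.us n hn
    exact ⟨this.1, this.2.1⟩
  have hnd : ∀ j, (SS j).Nodup := by
    intro j
    cases j with
    | zero => exact List.nodup_range'
    | succ j => exact hSf1 j (st j)
  have hmono : ∀ i j : ℕ, i ≤ j → 2 ^ (k + 1 + i) ≤ 2 ^ (k + 1 + j) := fun i j h =>
    Nat.pow_le_pow_right (by norm_num) (by omega)
  have hlow : ∀ j n, n ∈ SS (j + 1) → 2 ^ (k + 1 + j) ≤ n := by
    intro j n hn
    rcases (hSm j n).1 hn with h | h
    · exact h.1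
    · exact (hmono j (j + 1) (by omega)).trans (hUs (j + 1) n h).1
  have hdj : ∀ i l, i < l → ∀ n ∈ SS i, n ∉ SS l := by
    intro i l hil n hn hn'
    obtain ⟨l', rfl⟩ : ∃ l', l = l' + 1 := ⟨l - 1, by omega⟩
    cases i with
    | zero =>
      have h1 := (hVmem n).1 hn
      have h2 := hlow l' n hn'
      have h3 := hmono 0 l' (by omega)
      simp only [Nat.add_zero] at h3
      omega
    | succ i' =>
      rcases (hSm i' n).1 hn with h | h
      · have h2 := hlow l' n hn'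
        have h3 := hmono (i' + 1) l' (by omega)
        omega
      · have hu := hUs (i' + 1) n h
        rcases (hSm l' n).1 hn' with g | g
        · rcases Nat.lt_or_ge (i' + 1) l' with hlt | hge
          · have h3 := hmono (i' + 1 + 1) l' (by omega)
            omega
          · have : l' = i' + 1 := by omega
            subst this
            exact g.2.2 h
        · have g2 := (hUs (l' + 1) n g).1
          have h3 := hmono (i' + 1 + 1) (l' + 1) (by omega)
          omega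
  have hcov : ∀ n ≥ n0, ∃ j, n ∈ SS j := by
    intro n hn
    by_cases h : n < 2 ^ (k + 1)
    · exact ⟨0, (hVmem n).2 ⟨hn, h⟩⟩
    · -- find j with 2^(k+1+j) ≤ n < 2^(k+1+j+1)
      push Not at h
      have hnne : n ≠ 0 := by omega
      have hl1 : k + 1 ≤ Nat.log 2 n := Nat.le_log_of_pow_le (by norm_num) h
      obtain ⟨j, hj⟩ := Nat.exists_eq_add_of_le hl1
      have e1 : 2 ^ (k + 1 + j) ≤ n := by rw [← hj]; exact Nat.pow_log_le_self 2 hnne
      have e2 : n < 2 ^ (k + 1 + (j + 1)) := by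
        have := Nat.lt_pow_succ_log_self (b := 2) (by norm_num) n
        rw [hj] at this
        exact this
      by_cases hu : n ∈ (st j).Us
      · cases j with
        | zero => simp [hst0, s0] at hu
        | succ j => exact ⟨j + 1, (hSm j n).2 (Or.inr hu)⟩
      · exact ⟨j + 1, (hSm j n).2 (Or.inl ⟨e1, e2, hu⟩)⟩
  obtain ⟨pos, hp1, hp2⟩ := limit x y a b PP SS rfl hPS hnd hdj
  refine ⟨pos, ?_, ?_⟩
  · intro n hn
    obtain ⟨j, hj⟩ := hcov n hn
    exact hp1 j n hj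
  · intro n hn m hm hnm
    obtain ⟨j, hj⟩ := hcov n hn
    obtain ⟨l, hl⟩ := hcov m hm
    exact hp2 j l n hj m hl hnm

theorem mainThm {x y : ℕ → ℝ} (hF : Fam x y) (ρ : ℝ) (hρ : 4 ≤ ρ) : ∃ N : ℕ, ∀ n0 ≥ N,
    ∀ a b : ℝ, 0 < a → 0 < b → a ≤ ρ * b → b ≤ ρ * a →
    a * b = ∑' i : ℕ, x (n0 + i) * y (n0 + i) →
    ∃ pos : ℕ → PR, (∀ n ≥ n0, Match (sq x y n) (pos n) ∧ Inside (pos n) ⟨0, 0, a, b⟩) ∧
      ∀ n ≥ n0, ∀ m ≥ n0, n ≠ m → Disj (pos n) (pos m) := by
  obtain ⟨N, hN⟩ := mainCase hF ρ hρ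
  refine ⟨N, fun n0 hn0 a b ha hb hab hba harea => ?_⟩
  rcases le_total a b with h | h
  · exact hN n0 hn0 a b ha h hba harea
  · obtain ⟨pos, h1, h2⟩ := hN n0 hn0 b a hb h hab (by rw [mul_comm]; exact harea)
    refine ⟨fun n => ⟨(pos n).y, (pos n).x, (pos n).h, (pos n).w⟩, ?_, ?_⟩
    · intro n hn
      obtain ⟨g1, g2⟩ := h1 n hn
      refine ⟨?_, ?_⟩
      · unfold Match at *
        simp only
        tauto
      · unfold Inside at *
        simp only at *
        tauto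
    · intro n hn m hm hnm
      have := h2 n hn m hm hnm
      unfold Disj at *
      simp only
      tauto

end Pool.Agent.H180R2.MM
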