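import Pool.Agent.H180R2.MM.Defs

namespace Pool.Agent.H180R2.MM

theorem potIneq (w h : ℝ) (hw : 0 < w) (hwh : w ≤ h) (hh : h ≤ 1 / 10 ^ 9) :
    h + 3500 * h ^ 2 + √w * (h + 700 * h ^ 2) + 46 / 10 * w + 3 / 2 * (w * √w) ≤
      h + 5 * w + h * √h := by
  set s := √w with hs
  set t := √h with ht
  have hh0 : 0 < h := lt_of_lt_of_le hw hwh
  have hs0 : 0 < s := Real.sqrt_pos.2 hw
  have ht0 : 0 < t := Real.sqrt_pos.2 hh0
  have hsw : s * s = w := Real.mul_self_sqrt hw.le
  have hth : t * t = h := Real.mul_self_sqrt hh0.le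
  have hst : s ≤ t := Real.sqrt_le_sqrt hwh
  have ht1 : t ≤ 1 / 10 ^ 4 := by
    rw [ht]
    apply Real.sqrt_le_iff.2
    constructor
    · norm_num
    · refine hh.trans ?_; norm_num
  rcases le_total (2 * s) t with hc | hc
  · -- s ≤ t/2
    have h1 : w ≤ h / 4 := by nlinarith
    have e1 : h * s ≤ h * t / 2 := by nlinarith
    have e2 : w * s ≤ h * t / 8 := by
      have : w * s ≤ (h / 4) * (t / 2) := mul_le_mul h1 (by linarith) hs0.le (by positivity)
      linarith
    have e3 : h ^ 2 ≤ h * t * (1 / 10 ^ 4) := by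
      have : h ^ 2 = h * t * t := by rw [mul_assoc, hth]; ring
      rw [this]
      exact mul_le_mul_of_nonneg_left ht1 (by positivity)
    have e4 : s * h ^ 2 ≤ h ^ 2 * (1 / 10 ^ 4) := by
      have : s ≤ 1 / 10 ^ 4 := hst.trans ht1
      nlinarith [sq_nonneg h]
    have e5 : 0 < h * t := by positivity
    nlinarith
  · -- t ≤ 2 s
    have h1 : h ≤ 4 * w := by nlinarith
    have hs1 : s ≤ 1 / 10 ^ 4 := hst.trans ht1
    have e1 : h * s ≤ 4 * w * (1 / 10 ^ 4) := mul_le_mul h1 hs1 hs0.le (by positivity)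
    have e2 : w * s ≤ w * (1 / 10 ^ 4) := mul_le_mul_of_nonneg_left hs1 hw.le
    have e3 : h ^ 2 ≤ 4 * w * (1 / 10 ^ 9) := by
      rw [pow_two]
      exact mul_le_mul h1 hh hh0.le (by positivity)
    have e4 : s * h ^ 2 ≤ 1 * h ^ 2 := mul_le_mul_of_nonneg_right (hs1.trans (by norm_num)) (by positivity)
    have e5 : 0 < h * t := by positivity
    nlinarith

end Pool.Agent.H180R2.MM
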