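import Pool.Agent.H180R2.MM.Found

/-! Module C (helper13): choice of the indices of the two columns. -/

namespace Pool.Agent.H180R2.MM
open Finset

namespace Sel

theorem prefix_exists (y : ℕ → ℝ) (c : ℝ) : ∀ (l : List ℕ) (h : ℝ), (∀ n ∈ l, y n ≤ c) → 0 ≤ h →
    h < (l.map y).sum → ∃ A : List ℕ, A <+: l ∧ (A.map y).sum ≤ h ∧ h < (A.map y).sum + c := by
  intro l
  induction l with
  | nil => intro h _ h0 hs; simp at hs; linarith
  | cons a l ih =>
    intro h hc h0 hs
    by_cases ha : h < y a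
    · refine ⟨[], List.nil_prefix, by simpa using h0, ?_⟩
      have := hc a (by simp)
      simp only [List.map_nil, List.sum_nil, zero_add]
      linarith
    · push Not at ha
      rw [List.map_cons, List.sum_cons] at hs
      obtain ⟨A, h1, h2, h3⟩ := ih (h - y a) (fun n hn => hc n (List.mem_cons_of_mem _ hn))
        (by linarith) (by linarith)
      refine ⟨a :: A, (List.prefix_cons_inj a).2 h1, ?_, ?_⟩
      · rw [List.map_cons, List.sum_cons]; linarith
      · rw [List.map_cons, List.sum_cons]; linarith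

/-- The free even numbers of a window. -/
def free (U : Finset ℕ) (a m : ℕ) : List ℕ :=
  ((List.range (2 * m)).map fun i => a + 2 * i).filter fun n => decide (n ∉ U)

theorem mem_free {U : Finset ℕ} {a m n : ℕ} (h : n ∈ free U a m) :
    a ≤ n ∧ n < a + 4 * m ∧ n ∉ U ∧ (Even a → Even n) := by
  unfold free at h
  rw [List.mem_filter, List.mem_map] at h
  obtain ⟨⟨i, hi, rfl⟩, h2⟩ := h
  rw [List.mem_range] at hi
  refine ⟨by omega, by omega, by simpa using h2, fun ha => ?_⟩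
  exact ha.add (even_two_mul i)

theorem nodup_free (U : Finset ℕ) (a m : ℕ) : (free U a m).Nodup := by
  unfold free
  refine List.Nodup.filter _ (List.Nodup.map (fun i j hij => ?_) List.nodup_range)
  have hij' : a + 2 * i = a + 2 * j := hij
  omega

theorem length_free (U : Finset ℕ) (a m : ℕ) :
    2 * m ≤ (free U a m).length + (U ∩ Ico a (a + 4 * m)).card := by
  unfold free
  set l := (List.range (2 * m)).map fun i => a + 2 * i with hl
  have h1 : l.length = 2 * m := by simp [hl]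
  have hnd : l.Nodup := List.Nodup.map (fun i j hij => by
    have hij' : a + 2 * i = a + 2 * j := hij
    omega) List.nodup_range
  have h2 := List.length_eq_length_filter_add (l := l) (fun n => decide (n ∉ U))
  have h3 : (l.filter fun n => !decide (n ∉ U)).length ≤ (U ∩ Ico a (a + 4 * m)).card := by
    rw [← List.toFinset_card_of_nodup (hnd.filter _)]
    refine card_le_card fun n hn => ?_
    rw [List.mem_toFinset, List.mem_filter] at hn
    obtain ⟨hn1, hn2⟩ := hn
    rw [hl, List.mem_map] at hn1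
    obtain ⟨i, hi, rfl⟩ := hn1
    rw [List.mem_range] at hi
    simp only [decide_not, Bool.not_not, decide_eq_true_eq] at hn2
    rw [mem_inter, mem_Ico]
    exact ⟨hn2, by omega, by omega⟩
  omega

/-- The choice in one window. -/
theorem column {y : ℕ → ℝ} {U : Finset ℕ} {a m : ℕ} {w h : ℝ} (hw : 0 < w) (hwh : w ≤ h)
    (hU : (U ∩ Ico a (a + 4 * m)).card < m) (hm : h ≤ 39 / 100 * w * m)
    (hlo : ∀ n, a ≤ n → n < a + 4 * m → 39 / 100 * w ≤ y n)
    (hup : ∀ n, a ≤ n → n < a + 4 * m → y n ≤ 6 / 10 * w) :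
    ∃ A : List ℕ, A.Nodup ∧ A ≠ [] ∧ (∀ n ∈ A, n ∈ free U a m) ∧ (A.map y).sum ≤ h ∧
      h < (A.map y).sum + 6 / 10 * w := by
  have hlen : m + 1 ≤ (free U a m).length := by
    have := length_free U a m
    omega
  have hsum : h < ((free U a m).map y).sum := by
    have h1 : ((free U a m).map y).length • (39 / 100 * w) ≤ ((free U a m).map y).sum := by
      refine List.card_nsmul_le_sum _ _ ?_
      intro z hz
      obtain ⟨n, hn, rfl⟩ := List.mem_map.1 hz
      obtain ⟨h2, h3, _, _⟩ := mem_free hn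
      exact hlo n h2 h3
    rw [List.length_map, nsmul_eq_mul] at h1
    have h2 : ((m : ℝ) + 1) ≤ ((free U a m).length : ℝ) := by exact_mod_cast hlen
    nlinarith
  obtain ⟨A, h1, h2, h3⟩ := prefix_exists y (6 / 10 * w) (free U a m) h (fun n hn => by
    obtain ⟨h2, h3, _, _⟩ := mem_free hn
    exact hup n h2 h3) (by linarith) hsum
  refine ⟨A, (nodup_free U a m).sublist h1.sublist, ?_, fun n hn => h1.subset hn, h2, h3⟩
  rintro rfl
  simp at h3
  linarith

theorem anti {x y : ℕ → ℝ} (hF : Fam x y) {m n : ℕ} (h1 : 1 ≤ m) (h2 : m ≤ n) : x n ≤ x m := by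
  have h3 := hF.lowx m n h1 h2
  have h4 : (0 : ℝ) ≤ ((n : ℝ) - m) / ((n : ℝ) + 1) ^ 2 := by
    have : (m : ℝ) ≤ n := by exact_mod_cast h2
    exact div_nonneg (by linarith) (by positivity)
  linarith

theorem x_le {x y : ℕ → ℝ} (hF : Fam x y) {n : ℕ} {w c : ℝ} (hc : 0 < c) (hn : 1 ≤ n)
    (h : c ≤ n * w) : x n ≤ w / c := by
  refine (hF.up n hn).trans ?_
  have : (0 : ℝ) < n := by exact_mod_cast hn
  rw [div_le_div_iff₀ this hc]
  linarith

theorem le_y {x y : ℕ → ℝ} (hF : Fam x y) {n : ℕ} {w c : ℝ} (hc : 0 < c) (hn : 1 ≤ n)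
    (h : ((n : ℝ) + 1) * w ≤ c) : w / c ≤ y n := by
  refine le_trans ?_ (hF.lo n hn)
  have : (0 : ℝ) < n := by exact_mod_cast hn
  rw [div_le_div_iff₀ hc (by linarith)]
  linarith

/-- The partner window. -/
theorem partner {x y : ℕ → ℝ} (hF : Fam x y) {w : ℝ} (hw : 0 < w) (hw9 : w ≤ 1 / 10 ^ 9) {p : ℕ}
    (hp1 : 20 / 9 ≤ p * w) (hp2 : ((p : ℝ) + 1) * w ≤ 236 / 100) :
    ∃ q : ℕ, Even q ∧ 172 / 100 ≤ ((q : ℝ) - 2) * w ∧ q * w ≤ 182 / 100 ∧ x p + x q ≤ w ∧
      w - x p - x q ≤ 72 / 100 * w ^ 2 := by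
  have hp : 1 ≤ p := by
    by_contra h0
    have : p = 0 := by omega
    subst this
    norm_num at hp1
  have hxp1 : x p ≤ 45 / 100 * w := by
    have := x_le hF (c := 20 / 9) (by norm_num) hp hp1
    linarith [show w / (20 / 9 : ℝ) = 45 / 100 * w by ring]
  have hxp2 : 42 / 100 * w ≤ x p := by
    have h1 := le_y hF (c := 236 / 100) (by norm_num) hp hp2
    have h2 := hF.le p hp
    have h3 : 42 / 100 * w ≤ w / (236 / 100 : ℝ) := by
      rw [le_div_iff₀ (by norm_num)]; nlinarith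
    linarith
  have hex : ∃ q : ℕ, 1 ≤ q ∧ Even q ∧ x q ≤ w - x p := by
    have hceil : 1 / w ≤ (⌈1 / w⌉₊ : ℝ) := Nat.le_ceil _
    have hpos : (0 : ℝ) < 1 / w := by positivity
    have hc1 : 1 ≤ ⌈1 / w⌉₊ := Nat.one_le_ceil_iff.2 hpos
    refine ⟨2 * ⌈1 / w⌉₊, by omega, even_two_mul _, ?_⟩
    have h1 : (2 : ℝ) ≤ ((2 * ⌈1 / w⌉₊ : ℕ) : ℝ) * w := by
      push_cast
      have : 1 ≤ (⌈1 / w⌉₊ : ℝ) * w := by
        rw [div_le_iff₀ hw] at hceil
        exact hceil
      linarith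
    have h2 := x_le hF (c := 2) (by norm_num) (by omega) h1
    linarith
  classical
  set q := Nat.find hex with hq
  obtain ⟨hq1, hq2, hq3⟩ := Nat.find_spec hex
  rw [← hq] at hq1 hq2 hq3
  have hlow : (1 : ℝ) / (58 / 100) ≤ ((q : ℝ) + 1) * w := by
    have h1 := hF.lo q hq1
    have h2 := hF.le q hq1
    have h3 : 1 / ((q : ℝ) + 1) ≤ 58 / 100 * w := by linarith
    have h4 : (0 : ℝ) < (q : ℝ) + 1 := by positivity
    rw [div_le_iff₀ h4] at h3
    rw [div_le_iff₀ (by norm_num)]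
    linarith
  have hq172 : 172 / 100 ≤ ((q : ℝ) - 2) * w := by
    norm_num at hw9 hlow ⊢
    nlinarith
  have hq3' : (3 : ℝ) ≤ q := by
    by_contra hcon
    push Not at hcon
    have : ((q : ℝ) - 2) * w ≤ 1 * w := by
      refine mul_le_mul_of_nonneg_right (by linarith) hw.le
    norm_num at hw9
    linarith
  have hq3n : 3 ≤ q := by exact_mod_cast hq3'
  have hmin : w - x p < x (q - 2) := by
    have h1 := Nat.find_min hex (m := q - 2) (by omega)
    push Not at h1
    have h2 : Even (q - 2) := by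
      rcases hq2 with ⟨s, hs⟩
      exact ⟨s - 1, by omega⟩
    exact h1 (by omega) h2
  have hcast : ((q - 2 : ℕ) : ℝ) = (q : ℝ) - 2 := by
    rw [Nat.cast_sub (by omega)]; norm_num
  refine ⟨q, hq2, hq172, ?_, by linarith, ?_⟩
  · have h1 := hF.up (q - 2) (by omega)
    rw [hcast] at h1
    have h2 : 55 / 100 * w < 1 / ((q : ℝ) - 2) := by linarith
    have h3 : (0 : ℝ) < (q : ℝ) - 2 := by linarith
    rw [lt_div_iff₀ h3] at h2
    norm_num at hw9
    nlinarith
  · have h1 := hF.lipx (q - 2) q (by omega) (by omega)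
    rw [hcast] at h1
    have h2 : ((q : ℝ) - ((q : ℝ) - 2)) / ((q : ℝ) - 2) ^ 2 ≤ 72 / 100 * w ^ 2 := by
      have h3 : (0 : ℝ) < (q : ℝ) - 2 := by linarith
      rw [div_le_iff₀ (by positivity)]
      have h4 : (172 / 100 : ℝ) ^ 2 ≤ (((q : ℝ) - 2) * w) ^ 2 := by
        refine pow_le_pow_left₀ (by norm_num) hq172 2
      nlinarith
    linarith

end Sel

open Sel in
theorem select {x y : ℕ → ℝ} (hF : Fam x y) : ∃ k0 : ℕ, ∀ k ≥ k0, ∀ w h : ℝ,
    wk (k + 1) < w → w ≤ wk k → w ≤ h → h ≤ 1 / 10 ^ 9 →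
    ∀ U : Finset ℕ, (U.card : ℝ) ≤ 2 ^ k / 10 ^ 6 →
    ∃ A B : List ℕ, (A ++ B).Nodup ∧ A ≠ [] ∧ B ≠ [] ∧
      (∀ n ∈ A ++ B, 2 ^ k ≤ n ∧ n < 3 * 2 ^ k ∧ Even n ∧ n ∉ U ∧
        39 / 100 * w ≤ y n ∧ x n ≤ 6 / 10 * w) ∧
      (∀ p ∈ A, ∀ q ∈ B, x p + x q ≤ w ∧ w - x p - x q ≤ 100 * h * w) ∧
      (A.map y).sum ≤ h ∧ h < (A.map y).sum + 6 / 10 * w ∧
      (B.map y).sum ≤ h ∧ h < (B.map y).sum + 6 / 10 * w := by
  refine ⟨0, fun k _ w h hw1 hw2 hwh hh U hU => ?_⟩
  set T : ℝ := 2 ^ k with hT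
  have hT0 : 0 < T := by positivity
  have hwT1 : 5 / 6 < w * T := by
    unfold wk at hw1
    rw [pow_succ, div_lt_iff₀ (by positivity)] at hw1
    linarith
  have hwT2 : w * T ≤ 5 / 3 := by
    unfold wk at hw2
    rw [le_div_iff₀ (by positivity)] at hw2
    exact hw2
  have hw : 0 < w := by
    by_contra h0
    push Not at h0
    nlinarith
  have hw9 : w ≤ 1 / 10 ^ 9 := hwh.trans hh
  have hh0 : 0 < h := hw.trans_le hwh
  -- the number of rectangles
  set m : ℕ := ⌈h / (39 / 100 * w)⌉₊ with hm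
  have hm1 : h ≤ 39 / 100 * w * m := by
    have := Nat.le_ceil (h / (39 / 100 * w))
    rw [← hm, div_le_iff₀ (by positivity)] at this
    linarith
  have hm2 : (m : ℝ) * w ≤ 36 / 10 * h := by
    have := Nat.ceil_lt_add_one (a := h / (39 / 100 * w)) (by positivity)
    rw [← hm] at this
    have h2 : (m : ℝ) * w < (h / (39 / 100 * w) + 1) * w := mul_lt_mul_of_pos_right this hw
    have h3 : (h / (39 / 100 * w) + 1) * w = h / (39 / 100) + w := by
      field_simp
    rw [h3] at h2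
    have h4 : h / (39 / 100 : ℝ) ≤ 257 / 100 * h := by
      rw [div_le_iff₀ (by norm_num)]; nlinarith
    linarith
  have hm0 : 1 ≤ m := by
    by_contra h0
    have : m = 0 := by omega
    rw [this] at hm1
    simp at hm1
    linarith
  have hmr : (1 : ℝ) ≤ m := by exact_mod_cast hm0
  -- the first candidate
  set P0 : ℕ := 2 * ⌈10 / 9 / w⌉₊ with hP0
  have hP01 : 20 / 9 ≤ (P0 : ℝ) * w := by
    have := Nat.le_ceil (10 / 9 / w)
    rw [div_le_iff₀ hw] at this
    rw [hP0]; push_cast; linarith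
  have hP02 : (P0 : ℝ) * w ≤ 20 / 9 + 2 * w := by
    have := Nat.ceil_lt_add_one (a := 10 / 9 / w) (by positivity)
    have h2 : (⌈10 / 9 / w⌉₊ : ℝ) * w < (10 / 9 / w + 1) * w := mul_lt_mul_of_pos_right this hw
    have h3 : (10 / 9 / w + 1) * w = 10 / 9 + w := by field_simp
    rw [hP0]; push_cast; linarith
  -- the number of candidates
  set K : ℕ := ⌊12 / 100 / (32 * m * w)⌋₊ with hK
  have hmw : 0 < 32 * (m : ℝ) * w := by positivity
  have hK1 : (K : ℝ) * (32 * m * w) ≤ 12 / 100 := by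
    have := Nat.floor_le (a := 12 / 100 / (32 * m * w)) (by positivity)
    rw [← hK, le_div_iff₀ hmw] at this
    exact this
  have hK2 : 12 / 100 < ((K : ℝ) + 1) * (32 * m * w) := by
    have := Nat.lt_floor_add_one (12 / 100 / (32 * m * w))
    rw [← hK, div_lt_iff₀ hmw] at this
    exact this
  set pj : ℕ → ℕ := fun j => P0 + 32 * m * j with hpj
  have hpjr : ∀ j, (pj j : ℝ) = P0 + 32 * m * j := fun j => by rw [hpj]; push_cast; ring
  have hpEven : ∀ j, Even (pj j) := by
    intro j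
    exact (even_two_mul _).add ⟨16 * m * j, by ring⟩
  have hp1 : ∀ j, 20 / 9 ≤ (pj j : ℝ) * w := by
    intro j
    rw [hpjr]
    have : 0 ≤ 32 * (m : ℝ) * j * w := by positivity
    nlinarith
  have hp2 : ∀ j < K, ((pj j : ℝ) + 4 * m + 1) * w ≤ 236 / 100 := by
    intro j hj
    rw [hpjr]
    have h1 : (j : ℝ) ≤ K := by exact_mod_cast hj.le
    have h2 : (j : ℝ) * (32 * m * w) ≤ K * (32 * m * w) := mul_le_mul_of_nonneg_right h1 hmw.le
    norm_num at hh hw9 ⊢
    nlinarith
  have hpart : ∀ j : ℕ, ∃ q : ℕ, j < K → Even q ∧ 172 / 100 ≤ ((q : ℝ) - 2) * w ∧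
      q * w ≤ 182 / 100 ∧ x (pj j) + x q ≤ w ∧ w - x (pj j) - x q ≤ 72 / 100 * w ^ 2 := by
    intro j
    by_cases hj : j < K
    · obtain ⟨q, hq⟩ := partner hF hw hw9 (p := pj j) (hp1 j) (by
        have := hp2 j hj
        have h1 : 0 ≤ (m : ℝ) * w := by positivity
        nlinarith)
      exact ⟨q, fun _ => hq⟩
    · exact ⟨0, fun h => absurd h hj⟩
  choose qj hqj using hpart
  -- disjointness
  have hpq : ∀ j < K, ∀ i < K, qj j + 4 * m ≤ pj i := by
    intro j hj i hi
    obtain ⟨_, _, h2, _⟩ := hqj j hj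
    have h3 := hp1 i
    have h4 : ((qj j + 4 * m : ℕ) : ℝ) * w ≤ (pj i : ℝ) * w := by
      push_cast
      norm_num at hh
      nlinarith
    exact_mod_cast le_of_mul_le_mul_right h4 hw
  have hqq : ∀ j < K, ∀ i < K, j < i → qj i + 4 * m ≤ qj j := by
    intro j hj i hi hji
    obtain ⟨_, b1, b2, b3, b4⟩ := hqj j hj
    obtain ⟨_, c1, c2, c3, c4⟩ := hqj i hi
    have hpj1 : 1 ≤ pj j := by
      by_contra h0
      have h00 : pj j = 0 := by omega
      have := hp1 j
      rw [h00] at this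
      norm_num at this
    have hle : pj j ≤ pj i := by
      simp only [hpj]
      exact Nat.add_le_add_left (Nat.mul_le_mul_left _ hji.le) _
    have hx := hF.lowx (pj j) (pj i) hpj1 hle
    have hdiff : 32 * (m : ℝ) ≤ (pj i : ℝ) - pj j := by
      rw [hpjr, hpjr]
      have : (j : ℝ) + 1 ≤ i := by exact_mod_cast hji
      nlinarith
    have hx2 : 564 / 100 * m * w ^ 2 ≤ x (pj j) - x (pj i) := by
      refine le_trans ?_ hx
      have h5 : (0 : ℝ) < (pj i : ℝ) + 1 := by positivity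
      rw [le_div_iff₀ (by positivity)]
      have h6 : ((pj i : ℝ) + 1) * w ≤ 236 / 100 := by
        have := hp2 i hi
        have h1 : 0 ≤ (m : ℝ) * w := by positivity
        nlinarith
      have h7 : (((pj i : ℝ) + 1) * w) ^ 2 ≤ (236 / 100) ^ 2 :=
        pow_le_pow_left₀ (by positivity) h6 2
      have h8 : 564 / 100 * (m : ℝ) * (((pj i : ℝ) + 1) * w) ^ 2 ≤
          564 / 100 * (m : ℝ) * (236 / 100) ^ 2 :=
        mul_le_mul_of_nonneg_left h7 (by positivity)
      nlinarith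
    have hx3 : 49 / 10 * m * w ^ 2 ≤ x (qj i) - x (qj j) := by
      have : 72 / 100 * w ^ 2 ≤ 72 / 100 * m * w ^ 2 := by
        have : 0 ≤ w ^ 2 := by positivity
        nlinarith
      nlinarith
    have hpos : 0 < 49 / 10 * (m : ℝ) * w ^ 2 := by positivity
    have hqi1 : 1 ≤ qj i := by
      by_contra h0
      have h00 : qj i = 0 := by omega
      rw [h00] at c1
      norm_num at c1
      linarith
    have hqj1 : 1 ≤ qj j := by
      by_contra h0
      have h00 : qj j = 0 := by omega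
      rw [h00] at b1
      norm_num at b1
      linarith
    have hlt : qj i ≤ qj j := by
      by_contra hcon
      push Not at hcon
      have := anti hF hqj1 hcon.le
      linarith
    have hlip := hF.lipx (qj i) (qj j) hqi1 hlt
    have h9 : 49 / 10 * m * w ^ 2 ≤ ((qj j : ℝ) - qj i) / (qj i : ℝ) ^ 2 := hx3.trans hlip
    have hqr : (0 : ℝ) < qj i := by exact_mod_cast hqi1
    rw [le_div_iff₀ (by positivity)] at h9
    have h10 : (172 / 100 : ℝ) ^ 2 ≤ ((qj i : ℝ) * w) ^ 2 := by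
      refine pow_le_pow_left₀ (by norm_num) ?_ 2
      nlinarith
    have h11 : 4 * (m : ℝ) ≤ (qj j : ℝ) - qj i := by
      have : 49 / 10 * (m : ℝ) * (172 / 100) ^ 2 ≤ 49 / 10 * (m : ℝ) * ((qj i : ℝ) * w) ^ 2 :=
        mul_le_mul_of_nonneg_left h10 (by positivity)
      nlinarith
    have h12 : ((qj i + 4 * m : ℕ) : ℝ) ≤ (qj j : ℝ) := by push_cast; linarith
    exact_mod_cast h12
  -- a good index
  have hgood : ∃ j < K, (U ∩ Ico (pj j) (pj j + 4 * m)).card < m ∧
      (U ∩ Ico (qj j) (qj j + 4 * m)).card < m := by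
    by_contra hcon
    push Not at hcon
    set W : ℕ → Finset ℕ := fun j => U ∩ (Ico (pj j) (pj j + 4 * m) ∪ Ico (qj j) (qj j + 4 * m))
      with hW
    have h1 : ∀ j ∈ range K, m ≤ (W j).card := by
      intro j hj
      rw [mem_range] at hj
      have e1 : (U ∩ Ico (pj j) (pj j + 4 * m)).card ≤ (W j).card :=
        card_le_card (inter_subset_inter_left subset_union_left)
      have e2 : (U ∩ Ico (qj j) (qj j + 4 * m)).card ≤ (W j).card :=
        card_le_card (inter_subset_inter_left subset_union_right)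
      by_cases hc : (U ∩ Ico (pj j) (pj j + 4 * m)).card < m
      · exact (hcon j hj hc).trans e2
      · omega
    have hdis : ∀ j ∈ range K, ∀ i ∈ range K, j ≠ i → Disjoint (W j) (W i) := by
      have key : ∀ j < K, ∀ i < K, j < i → Disjoint (W j) (W i) := by
        intro j hj i hi hji
        have a1 := hpq j hj i hi
        have a2 := hpq i hi j hj
        have a3 := hqq j hj i hi hji
        have a4 : pj j + 4 * m ≤ pj i := by
          simp only [hpj]
          have : 32 * m * (j + 1) ≤ 32 * m * i := Nat.mul_le_mul_left _ hji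
          have e : 32 * m * (j + 1) = 32 * m * j + 32 * m := by ring
          omega
        rw [disjoint_left]
        intro n hn1 hn2
        simp only [hW, mem_inter, mem_union, mem_Ico] at hn1 hn2
        omega
      intro j hj i hi hne
      rw [mem_range] at hj hi
      rcases Nat.lt_or_gt_of_ne hne with hlt | hlt
      · exact key j hj i hi hlt
      · exact (key i hi j hj hlt).symm
    have h2 : K * m ≤ U.card := by
      have h3 : ((range K).biUnion W).card = ∑ j ∈ range K, (W j).card :=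
        card_biUnion hdis
      have h4 : (range K).biUnion W ⊆ U := by
        intro n hn
        rw [mem_biUnion] at hn
        obtain ⟨j, _, hj⟩ := hn
        exact (mem_inter.1 hj).1
      have h5 : K * m ≤ ∑ j ∈ range K, (W j).card := by
        have := card_nsmul_le_sum (range K) (fun j => (W j).card) m h1
        rwa [card_range, smul_eq_mul] at this
      rw [← h3] at h5
      exact h5.trans (card_le_card h4)
    have h3 : (K : ℝ) * m ≤ 2 ^ k / 10 ^ 6 := le_trans (by exact_mod_cast h2) hU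
    have h4 : (K : ℝ) * m * w ≤ 5 / 3 / 10 ^ 6 := by
      have : (K : ℝ) * m * w ≤ T / 10 ^ 6 * w := mul_le_mul_of_nonneg_right h3 hw.le
      norm_num at this ⊢
      linarith
    norm_num at h4 hh
    nlinarith
  obtain ⟨j, hj, hUp, hUq⟩ := hgood
  obtain ⟨hqe, c1, c2, c3, c4⟩ := hqj j hj
  have hmw4 : 4 * (m : ℝ) * w ≤ 15 / 10 ^ 9 := by
    norm_num at hh ⊢
    nlinarith
  norm_num at hmw4 hw9
  have hp1j := hp1 j
  have hp2j := hp2 j hj
  have hpj1 : 1 ≤ pj j := by
    by_contra h0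
    have h00 : pj j = 0 := by omega
    rw [h00] at hp1j
    norm_num at hp1j
  have hqj1 : 1 ≤ qj j := by
    by_contra h0
    have h00 : qj j = 0 := by omega
    rw [h00] at c1
    norm_num at c1
    linarith
  -- facts in the windows
  have hPw : ∀ n, pj j ≤ n → n < pj j + 4 * m → 20 / 9 ≤ (n : ℝ) * w ∧ ((n : ℝ) + 1) * w ≤ 236 / 100 := by
    intro n h1 h2
    have h1' : (pj j : ℝ) ≤ n := by exact_mod_cast h1
    have h2' : (n : ℝ) ≤ pj j + 4 * m := by exact_mod_cast h2.le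
    constructor
    · nlinarith
    · nlinarith
  have hQw : ∀ n, qj j ≤ n → n < qj j + 4 * m →
      172 / 100 ≤ (n : ℝ) * w ∧ ((n : ℝ) + 1) * w ≤ 183 / 100 := by
    intro n h1 h2
    have h1' : (qj j : ℝ) ≤ n := by exact_mod_cast h1
    have h2' : (n : ℝ) ≤ qj j + 4 * m := by exact_mod_cast h2.le
    constructor
    · nlinarith
    · nlinarith
  have hany : ∀ n : ℕ, 1 ≤ n → 172 / 100 ≤ (n : ℝ) * w → ((n : ℝ) + 1) * w ≤ 236 / 100 →
      2 ^ k ≤ n ∧ n < 3 * 2 ^ k ∧ 39 / 100 * w ≤ y n ∧ x n ≤ 6 / 10 * w := by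
    intro n hn h1 h2
    refine ⟨?_, ?_, ?_, ?_⟩
    · have : T * w ≤ (n : ℝ) * w := by nlinarith
      have h3 := le_of_mul_le_mul_right this hw
      rw [hT] at h3
      exact_mod_cast h3
    · have : (n : ℝ) * w < 3 * T * w := by nlinarith
      have h3 := lt_of_mul_lt_mul_right this hw.le
      have h4 : (n : ℝ) < ((3 * 2 ^ k : ℕ) : ℝ) := by push_cast; exact h3
      exact_mod_cast h4
    · have h3 := le_y hF (c := 236 / 100) (by norm_num) hn h2
      have h4 : 39 / 100 * w ≤ w / (236 / 100 : ℝ) := by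
        rw [le_div_iff₀ (by norm_num)]; nlinarith
      linarith
    · have h3 := x_le hF (c := 172 / 100) (by norm_num) hn h1
      have h4 : w / (172 / 100 : ℝ) ≤ 6 / 10 * w := by
        rw [div_le_iff₀ (by norm_num)]; nlinarith
      linarith
  have hPall : ∀ n, pj j ≤ n → n < pj j + 4 * m →
      2 ^ k ≤ n ∧ n < 3 * 2 ^ k ∧ 39 / 100 * w ≤ y n ∧ x n ≤ 6 / 10 * w := by
    intro n h1 h2
    obtain ⟨h3, h4⟩ := hPw n h1 h2
    exact hany n (by omega) (by linarith) h4
  have hQall : ∀ n, qj j ≤ n → n < qj j + 4 * m →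
      2 ^ k ≤ n ∧ n < 3 * 2 ^ k ∧ 39 / 100 * w ≤ y n ∧ x n ≤ 6 / 10 * w := by
    intro n h1 h2
    obtain ⟨h3, h4⟩ := hQw n h1 h2
    exact hany n (by omega) h3 (by linarith)
  obtain ⟨A, hA1, hA2, hA3, hA4, hA5⟩ := column (y := y) (U := U) (a := pj j) (m := m) hw hwh hUp hm1
    (fun n h1 h2 => (hPall n h1 h2).2.2.1)
    (fun n h1 h2 => (hF.le n (by omega)).trans (hPall n h1 h2).2.2.2)
  obtain ⟨B, hB1, hB2, hB3, hB4, hB5⟩ := column (y := y) (U := U) (a := qj j) (m := m) hw hwh hUq hm1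
    (fun n h1 h2 => (hQall n h1 h2).2.2.1)
    (fun n h1 h2 => (hF.le n (by omega)).trans (hQall n h1 h2).2.2.2)
  refine ⟨A, B, ?_, hA2, hB2, ?_, ?_, hA4, hA5, hB4, hB5⟩
  · rw [List.nodup_append]
    refine ⟨hA1, hB1, fun a ha b hb hab => ?_⟩
    have h1 := mem_free (hA3 a ha)
    have h2 := mem_free (hB3 b hb)
    have h3 := hpq j hj j hj
    omega
  · intro n hn
    rcases List.mem_append.1 hn with hn | hn
    · obtain ⟨h1, h2, h3, h4⟩ := mem_free (hA3 n hn)
      obtain ⟨g1, g2, g3, g4⟩ := hPall n h1 h2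
      exact ⟨g1, g2, h4 (hpEven j), h3, g3, g4⟩
    · obtain ⟨h1, h2, h3, h4⟩ := mem_free (hB3 n hn)
      obtain ⟨g1, g2, g3, g4⟩ := hQall n h1 h2
      exact ⟨g1, g2, h4 hqe, h3, g3, g4⟩
  · intro p hp q hq
    obtain ⟨h1, h2, _, _⟩ := mem_free (hA3 p hp)
    obtain ⟨h3, h4, _, _⟩ := mem_free (hB3 q hq)
    have e1 := anti hF hpj1 h1
    have e2 := anti hF hqj1 h3
    refine ⟨by linarith, ?_⟩
    have l1 := hF.lipx (pj j) p hpj1 h1
    have l2 := hF.lipx (qj j) q hqj1 h3
    have hb : ∀ (a n : ℕ), 1 ≤ a → 172 / 100 ≤ (a : ℝ) * w → n < a + 4 * m →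
        ((n : ℝ) - a) / (a : ℝ) ^ 2 ≤ 4 * m * w * w := by
      intro a n ha haw hn
      have har : (0 : ℝ) < a := by exact_mod_cast ha
      rw [div_le_iff₀ (by positivity)]
      have h5 : (n : ℝ) ≤ a + 4 * m := by exact_mod_cast hn.le
      have h6 : (1 : ℝ) ≤ ((a : ℝ) * w) ^ 2 := by
        have : (1 : ℝ) ≤ (a : ℝ) * w := by linarith
        nlinarith
      have h7 : 4 * (m : ℝ) * 1 ≤ 4 * m * ((a : ℝ) * w) ^ 2 :=
        mul_le_mul_of_nonneg_left h6 (by positivity)
      nlinarith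
    have b1 := hb (pj j) p hpj1 (by linarith) h2
    have b2 := hb (qj j) q hqj1 (by nlinarith) h4
    have b3 : 4 * (m : ℝ) * w * w ≤ 144 / 10 * h * w := by nlinarith
    have b4 : 72 / 100 * w ^ 2 ≤ h * w := by nlinarith
    have b5 : 0 < h * w := by positivity
    nlinarith

end Pool.Agent.H180R2.MM
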