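import Pool.Agent.H180R2.MM.Found

namespace Pool.Agent.H180R2.MM
open Finset

namespace TwoColAux

/-- the left column -/
def colL : ℝ → List (ℝ × ℝ) → List PR
  | _, [] => []
  | y, p :: L => ⟨0, y, p.1, p.2⟩ :: colL (y + p.2) L

/-- the right column -/
def colR (w : ℝ) : ℝ → List (ℝ × ℝ) → List PR
  | _, [] => []
  | y, q :: R => ⟨w - q.1, y, q.1, q.2⟩ :: colR w (y + q.2) R

/-- width of the first rectangle -/
def hd (L : List (ℝ × ℝ)) : ℝ := (L.head?.map Prod.fst).getD 0

theorem hd_nil : hd [] = 0 := rfl
theorem hd_cons (p : ℝ × ℝ) (L : List (ℝ × ℝ)) : hd (p :: L) = p.1 := rfl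

theorem sum_snd_nonneg {L : List (ℝ × ℝ)} (h : ∀ p ∈ L, 0 ≤ p.1 ∧ 0 ≤ p.2) :
    0 ≤ (L.map Prod.snd).sum := by
  apply List.sum_nonneg
  intro z hz
  obtain ⟨p, hp, rfl⟩ := List.mem_map.1 hz
  exact (h p hp).2

theorem areaL_zero {L : List (ℝ × ℝ)} (h : ∀ p ∈ L, 0 ≤ p.1 ∧ 0 ≤ p.2)
    (h0 : (L.map Prod.snd).sum ≤ 0) : areaL L = 0 := by
  induction L with
  | nil => exact areaL_nil
  | cons p L ih =>
    have h1 := (h p (by simp)).2
    have h2 := sum_snd_nonneg (L := L) (fun q hq => h q (by simp [hq]))
    rw [List.map_cons, List.sum_cons] at h0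
    have h3 : p.2 = 0 := by linarith
    rw [areaL_cons, ih (fun q hq => h q (by simp [hq])) (by linarith), h3]
    ring

theorem match_colL (y : ℝ) (L : List (ℝ × ℝ)) : List.Forall₂ Match L (colL y L) := by
  induction L generalizing y with
  | nil => exact List.Forall₂.nil
  | cons p L ih => exact List.Forall₂.cons (Or.inl ⟨rfl, rfl⟩) (ih _)

theorem match_colR (w y : ℝ) (L : List (ℝ × ℝ)) : List.Forall₂ Match L (colR w y L) := by
  induction L generalizing y with
  | nil => exact List.Forall₂.nil
  | cons p L ih => exact List.Forall₂.cons (Or.inl ⟨rfl, rfl⟩) (ih _)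

theorem mem_colL {L : List (ℝ × ℝ)} (h : ∀ p ∈ L, 0 ≤ p.1 ∧ 0 ≤ p.2) (y : ℝ) {c : PR}
    (hc : c ∈ colL y L) : c.x = 0 ∧ y ≤ c.y ∧ c.y + c.h ≤ y + (L.map Prod.snd).sum ∧
      ∃ p ∈ L, c.w = p.1 := by
  induction L generalizing y with
  | nil => simp [colL] at hc
  | cons p L ih =>
    have h1 := h p (by simp)
    have hL : ∀ q ∈ L, 0 ≤ q.1 ∧ 0 ≤ q.2 := fun q hq => h q (by simp [hq])
    have h2 := sum_snd_nonneg hL
    rw [List.map_cons, List.sum_cons]
    rw [colL, List.mem_cons] at hc
    rcases hc with rfl | hc
    · refine ⟨rfl, le_rfl, ?_, p, by simp, rfl⟩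
      simp only
      linarith
    · obtain ⟨a1, a2, a3, q, hq, a4⟩ := ih hL (y + p.2) hc
      exact ⟨a1, by linarith, by linarith, q, by simp [hq], a4⟩

theorem mem_colR {w : ℝ} {L : List (ℝ × ℝ)} (h : ∀ p ∈ L, 0 ≤ p.1 ∧ 0 ≤ p.2) (y : ℝ) {c : PR}
    (hc : c ∈ colR w y L) : y ≤ c.y ∧ c.y + c.h ≤ y + (L.map Prod.snd).sum ∧
      ∃ p ∈ L, c.w = p.1 ∧ c.x = w - p.1 := by
  induction L generalizing y with
  | nil => simp [colR] at hc
  | cons p L ih =>
    have h1 := h p (by simp)
    have hL : ∀ q ∈ L, 0 ≤ q.1 ∧ 0 ≤ q.2 := fun q hq => h q (by simp [hq])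
    have h2 := sum_snd_nonneg hL
    rw [List.map_cons, List.sum_cons]
    rw [colR, List.mem_cons] at hc
    rcases hc with rfl | hc
    · refine ⟨le_rfl, ?_, p, by simp, rfl, rfl⟩
      simp only
      linarith
    · obtain ⟨a2, a3, q, hq, a4, a5⟩ := ih hL (y + p.2) hc
      exact ⟨by linarith, by linarith, q, by simp [hq], a4, a5⟩

theorem pw_colL {L : List (ℝ × ℝ)} (h : ∀ p ∈ L, 0 ≤ p.1 ∧ 0 ≤ p.2) (y : ℝ) :
    (colL y L).Pairwise Disj := by
  induction L generalizing y with
  | nil => exact List.Pairwise.nil
  | cons p L ih =>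
    have hL : ∀ q ∈ L, 0 ≤ q.1 ∧ 0 ≤ q.2 := fun q hq => h q (by simp [hq])
    rw [colL, List.pairwise_cons]
    refine ⟨fun c hc => ?_, ih hL _⟩
    obtain ⟨_, a2, _⟩ := mem_colL hL _ hc
    exact Or.inr (Or.inr (Or.inl a2))

theorem pw_colR {w : ℝ} {L : List (ℝ × ℝ)} (h : ∀ p ∈ L, 0 ≤ p.1 ∧ 0 ≤ p.2) (y : ℝ) :
    (colR w y L).Pairwise Disj := by
  induction L generalizing y with
  | nil => exact List.Pairwise.nil
  | cons p L ih =>
    have hL : ∀ q ∈ L, 0 ≤ q.1 ∧ 0 ≤ q.2 := fun q hq => h q (by simp [hq])
    rw [colR, List.pairwise_cons]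
    refine ⟨fun c hc => ?_, ih hL _⟩
    obtain ⟨a2, _⟩ := mem_colR hL _ hc
    exact Or.inr (Or.inr (Or.inl a2))

/-- the slices, by induction on the number of remaining rectangles -/
theorem slices (w T : ℝ) : ∀ (n : ℕ) (L R : List (ℝ × ℝ)) (yL yR : ℝ),
    L.length + R.length = n →
    (∀ p ∈ L, 0 ≤ p.1 ∧ 0 ≤ p.2) → (∀ p ∈ R, 0 ≤ p.1 ∧ 0 ≤ p.2) →
    (∀ p ∈ L, ∀ q ∈ R, p.1 + q.1 ≤ w) →
    yL + (L.map Prod.snd).sum = T → yR + (R.map Prod.snd).sum = T →
    (∀ p L', L = p :: L' → yR ≤ yL + p.2) → (∀ q R', R = q :: R' → yL ≤ yR + q.2) →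
    ∃ (Sl : List (ℝ × ℝ)) (DS : List PR), List.Forall₂ Match Sl DS ∧ DS.Pairwise Disj ∧
      (∀ r ∈ DS, ∀ c ∈ colL yL L, Disj c r) ∧ (∀ r ∈ DS, ∀ c ∈ colR w yR R, Disj c r) ∧
      (∀ r ∈ DS, 0 ≤ r.x ∧ max yL yR ≤ r.y ∧ r.x + r.w ≤ w ∧ r.y + r.h ≤ T) ∧
      Sl.length ≤ L.length + R.length ∧ (Sl.map Prod.snd).sum = T - max yL yR ∧
      (∀ s ∈ Sl, 0 ≤ s.2 ∧ ∃ p ∈ L, ∃ q ∈ R, s.1 = w - p.1 - q.1 ∧ s.2 ≤ p.2) ∧
      areaL L + areaL R + areaL Sl =
        w * (T - max yL yR) + hd L * (max yL yR - yL) + hd R * (max yL yR - yR) := by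
  intro n
  induction n with
  | zero =>
    intro L R yL yR hn _ _ _ hL hR _ _
    have h1 : L = [] := List.length_eq_zero_iff.1 (by omega)
    have h2 : R = [] := List.length_eq_zero_iff.1 (by omega)
    subst h1 h2
    simp only [List.map_nil, List.sum_nil, add_zero] at hL hR
    subst hL
    subst hR
    refine ⟨[], [], List.Forall₂.nil, List.Pairwise.nil, by simp, by simp, by simp, by simp,
      by simp, by simp, by simp [areaL_nil]⟩
  | succ n ih =>
    intro L R yL yR hn hpL hpR hw hL hR hiL hiR
    match L, R with
    | [], [] =>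
      simp at hn
    | [], q :: R' =>
      simp only [List.map_nil, List.sum_nil, add_zero] at hL
      have hR' : ∀ p ∈ R', 0 ≤ p.1 ∧ 0 ≤ p.2 := fun p hp => hpR p (by simp [hp])
      have h1 := sum_snd_nonneg hR'
      have hq := hpR q (by simp)
      have h2 := hiR q R' rfl
      rw [List.map_cons, List.sum_cons] at hR
      have hmax : max yL yR = T := by rw [max_eq_left (by linarith)]; exact hL
      refine ⟨[], [], List.Forall₂.nil, List.Pairwise.nil, by simp, by simp, by simp, by simp,
        by simp [hmax], by simp, ?_⟩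
      rw [hmax, areaL_nil, areaL_cons, areaL_zero hR' (by linarith), hd_nil, hd_cons]
      have h3 : q.2 = T - yR := by linarith
      rw [h3]
      ring
    | p :: L', [] =>
      simp only [List.map_nil, List.sum_nil, add_zero] at hR
      have hL' : ∀ p ∈ L', 0 ≤ p.1 ∧ 0 ≤ p.2 := fun p hp => hpL p (by simp [hp])
      have h1 := sum_snd_nonneg hL'
      have hq := hpL p (by simp)
      have h2 := hiL p L' rfl
      rw [List.map_cons, List.sum_cons] at hL
      have hmax : max yL yR = T := by rw [max_eq_right (by linarith)]; exact hR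
      refine ⟨[], [], List.Forall₂.nil, List.Pairwise.nil, by simp, by simp, by simp, by simp,
        by simp [hmax], by simp, ?_⟩
      rw [hmax, areaL_nil, areaL_cons, areaL_zero hL' (by linarith), hd_nil, hd_cons]
      have h3 : p.2 = T - yL := by linarith
      rw [h3]
      ring
    | p :: L', q :: R' =>
      have hL' : ∀ p ∈ L', 0 ≤ p.1 ∧ 0 ≤ p.2 := fun p hp => hpL p (by simp [hp])
      have hR' : ∀ p ∈ R', 0 ≤ p.1 ∧ 0 ≤ p.2 := fun p hp => hpR p (by simp [hp])
      have sL := sum_snd_nonneg hL'
      have sR := sum_snd_nonneg hR'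
      have hp0 := hpL p (by simp)
      have hq0 := hpR q (by simp)
      have hi1 := hiL p L' rfl
      have hi2 := hiR q R' rfl
      have hpq := hw p (by simp) q (by simp)
      have hL2 := hL
      have hR2 := hR
      rw [List.map_cons, List.sum_cons] at hL2 hR2
      set y0 := max yL yR with hy0
      have y1 : yL ≤ y0 := le_max_left _ _
      have y2 : yR ≤ y0 := le_max_right _ _
      rcases le_total (yL + p.2) (yR + q.2) with hcase | hcase
      · -- the left rectangle ends first
        have y3 : y0 ≤ yL + p.2 := max_le (by linarith) hi1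
        have hm : max (yL + p.2) yR = yL + p.2 := max_eq_left hi1
        obtain ⟨Sl, DS, g1, g2, g3, g4, g5, g6, g7, g8, g9⟩ := ih L' (q :: R') (yL + p.2) yR
          (by simp only [List.length_cons] at hn ⊢; omega) hL' hpR
          (fun a ha b hb => hw a (by simp [ha]) b hb)
          (by linarith) hR (fun a A hA => by
            have := hL' a (by rw [hA]; simp)
            linarith) (fun b B hB => by
            rw [List.cons.injEq] at hB
            rw [← hB.1]
            exact hcase)
        rw [hm] at g5 g7 g9
        refine ⟨(w - p.1 - q.1, yL + p.2 - y0) :: Sl, ⟨p.1, y0, w - p.1 - q.1, yL + p.2 - y0⟩ :: DS,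
          List.Forall₂.cons (Or.inl ⟨rfl, rfl⟩) g1, ?_, ?_, ?_, ?_, ?_, ?_, ?_, ?_⟩
        · rw [List.pairwise_cons]
          refine ⟨fun r hr => Or.inr (Or.inr (Or.inl ?_)), g2⟩
          have := (g5 r hr).2.1
          simp only
          linarith
        · intro r hr c hc
          rw [List.mem_cons] at hr
          rw [colL, List.mem_cons] at hc
          rcases hr with rfl | hr
          · rcases hc with rfl | hc
            · left
              simp
            · have := (mem_colL hL' _ hc).2.1
              right; right; right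
              simp only
              linarith
          · rcases hc with rfl | hc
            · have := (g5 r hr).2.1
              right; right; left
              exact this
            · exact g3 r hr c hc
        · intro r hr c hc
          rw [List.mem_cons] at hr
          rcases hr with rfl | hr
          · rw [colR, List.mem_cons] at hc
            rcases hc with rfl | hc
            · right; left
              simp only
              linarith
            · have := (mem_colR hR' _ hc).1
              right; right; right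
              simp only
              linarith
          · exact g4 r hr c hc
        · intro r hr
          rw [List.mem_cons] at hr
          rcases hr with rfl | hr
          · refine ⟨hp0.1, le_rfl, ?_, ?_⟩
            · simp only
              linarith
            · simp only
              linarith
          · have := g5 r hr
            exact ⟨this.1, by linarith, this.2.2.1, this.2.2.2⟩
        · simp only [List.length_cons] at g6 ⊢
          omega
        · rw [List.map_cons, List.sum_cons, g7]
          ring
        · intro s hs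
          rw [List.mem_cons] at hs
          rcases hs with rfl | hs
          · refine ⟨by simp only; linarith, p, by simp, q, by simp, rfl, ?_⟩
            simp only
            linarith
          · obtain ⟨b1, a, ha, b, hb, b2, b3⟩ := g8 s hs
            exact ⟨b1, a, by simp [ha], b, hb, b2, b3⟩
        · rw [areaL_cons p L', areaL_cons (w - p.1 - q.1, yL + p.2 - y0) Sl, hd_cons, hd_cons]
          rw [hd_cons] at g9
          simp only
          linear_combination g9
      · -- the right rectangle ends first
        have y3 : y0 ≤ yR + q.2 := max_le hi2 (by linarith)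
        have hm : max yL (yR + q.2) = yR + q.2 := max_eq_right hi2
        obtain ⟨Sl, DS, g1, g2, g3, g4, g5, g6, g7, g8, g9⟩ := ih (p :: L') R' yL (yR + q.2)
          (by simp only [List.length_cons] at hn ⊢; omega) hpL hR'
          (fun a ha b hb => hw a ha b (by simp [hb]))
          hL (by linarith) (fun a A hA => by
            rw [List.cons.injEq] at hA
            rw [← hA.1]
            exact hcase) (fun b B hB => by
            have := hR' b (by rw [hB]; simp)
            linarith)
        rw [hm] at g5 g7 g9
        refine ⟨(w - p.1 - q.1, yR + q.2 - y0) :: Sl, ⟨p.1, y0, w - p.1 - q.1, yR + q.2 - y0⟩ :: DS,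
          List.Forall₂.cons (Or.inl ⟨rfl, rfl⟩) g1, ?_, ?_, ?_, ?_, ?_, ?_, ?_, ?_⟩
        · rw [List.pairwise_cons]
          refine ⟨fun r hr => Or.inr (Or.inr (Or.inl ?_)), g2⟩
          have := (g5 r hr).2.1
          simp only
          linarith
        · intro r hr c hc
          rw [List.mem_cons] at hr
          rcases hr with rfl | hr
          · rw [colL, List.mem_cons] at hc
            rcases hc with rfl | hc
            · left
              simp
            · have := (mem_colL hL' _ hc).2.1
              right; right; right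
              simp only
              linarith
          · exact g3 r hr c hc
        · intro r hr c hc
          rw [List.mem_cons] at hr
          rw [colR, List.mem_cons] at hc
          rcases hr with rfl | hr
          · rcases hc with rfl | hc
            · right; left
              simp only
              linarith
            · have := (mem_colR hR' _ hc).1
              right; right; right
              simp only
              linarith
          · rcases hc with rfl | hc
            · have := (g5 r hr).2.1
              right; right; left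
              exact this
            · exact g4 r hr c hc
        · intro r hr
          rw [List.mem_cons] at hr
          rcases hr with rfl | hr
          · refine ⟨hp0.1, le_rfl, ?_, ?_⟩
            · simp only
              linarith
            · simp only
              linarith
          · have := g5 r hr
            exact ⟨this.1, by linarith, this.2.2.1, this.2.2.2⟩
        · simp only [List.length_cons] at g6 ⊢
          omega
        · rw [List.map_cons, List.sum_cons, g7]
          ring
        · intro s hs
          rw [List.mem_cons] at hs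
          rcases hs with rfl | hs
          · refine ⟨by simp only; linarith, p, by simp, q, by simp, rfl, ?_⟩
            simp only
            linarith
          · obtain ⟨b1, a, ha, b, hb, b2, b3⟩ := g8 s hs
            exact ⟨b1, a, ha, b, by simp [hb], b2, b3⟩
        · rw [areaL_cons q R', areaL_cons (w - p.1 - q.1, yR + q.2 - y0) Sl, hd_cons, hd_cons]
          rw [hd_cons] at g9
          simp only
          linear_combination g9

end TwoColAux

open TwoColAux

/-- Two columns of rectangles (width, height) of the same total height `H`, the left column `L`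
flush left, the right column `R` flush right, in a rectangle `w × H`; the gap between them is cut
at all the horizontal levels where one of the two columns changes. -/
theorem twoCol (w H : ℝ) (L R : List (ℝ × ℝ)) (hL0 : L ≠ []) (hR0 : R ≠ [])
    (hpos : ∀ p ∈ L ++ R, 0 ≤ p.1 ∧ 0 ≤ p.2) (hw : ∀ p ∈ L, ∀ q ∈ R, p.1 + q.1 ≤ w)
    (hL : (L.map Prod.snd).sum = H) (hR : (R.map Prod.snd).sum = H) :
    ∃ Sl : List (ℝ × ℝ), Tile w H (L ++ (R ++ Sl)) ∧ Sl.length ≤ L.length + R.length ∧
      (Sl.map Prod.snd).sum = H ∧
      ∀ s ∈ Sl, 0 ≤ s.2 ∧ ∃ p ∈ L, ∃ q ∈ R, s.1 = w - p.1 - q.1 ∧ s.2 ≤ p.2 := by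
  have hpL : ∀ p ∈ L, 0 ≤ p.1 ∧ 0 ≤ p.2 := fun p hp => hpos p (by simp [hp])
  have hpR : ∀ p ∈ R, 0 ≤ p.1 ∧ 0 ≤ p.2 := fun p hp => hpos p (by simp [hp])
  obtain ⟨Sl, DS, g1, g2, g3, g4, g5, g6, g7, g8, g9⟩ := slices w H _ L R 0 0 rfl hpL hpR hw
    (by rw [hL]; ring) (by rw [hR]; ring)
    (fun p L' h => by have := hpL p (by rw [h]; simp); linarith)
    (fun q R' h => by have := hpR q (by rw [h]; simp); linarith)
  rw [max_self, sub_zero] at g7 g9
  rw [max_self] at g5
  obtain ⟨p0, hp0⟩ := List.exists_mem_of_ne_nil L hL0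
  obtain ⟨q0, hq0⟩ := List.exists_mem_of_ne_nil R hR0
  refine ⟨Sl, ⟨⟨colL 0 L ++ (colR w 0 R ++ DS), ?_, ?_, ?_⟩, ?_⟩, g6, g7, g8⟩
  · exact List.rel_append (match_colL 0 L) (List.rel_append (match_colR w 0 R) g1)
  · rw [List.pairwise_append]
    refine ⟨pw_colL hpL 0, ?_, ?_⟩
    · rw [List.pairwise_append]
      exact ⟨pw_colR hpR 0, g2, fun c hc r hr => g4 r hr c hc⟩
    · intro c hc r hr
      rcases List.mem_append.1 hr with hr | hr
      · obtain ⟨a1, a2, a3, p, hp, a4⟩ := mem_colL hpL 0 hc
        obtain ⟨b1, b2, q, hq, b3, b4⟩ := mem_colR hpR 0 hr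
        left
        have := hw p hp q hq
        rw [a1, a4, b4]
        linarith
      · exact g3 r hr c hc
  · intro r hr
    rcases List.mem_append.1 hr with hr | hr
    · obtain ⟨a1, a2, a3, p, hp, a4⟩ := mem_colL hpL 0 hr
      have := hw p hp q0 hq0
      have := (hpR q0 hq0).1
      refine ⟨by simp only; linarith, by simp only; linarith, ?_, ?_⟩
      · simp only
        rw [a1, a4]
        linarith
      · simp only
        rw [hL] at a3
        linarith
    · rcases List.mem_append.1 hr with hr | hr
      · obtain ⟨b1, b2, q, hq, b3, b4⟩ := mem_colR hpR 0 hr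
        have := hw p0 hp0 q hq
        have := (hpL p0 hp0).1
        refine ⟨by simp only; rw [b4]; linarith, by simp only; linarith, ?_, ?_⟩
        · simp only
          rw [b4, b3]
          linarith
        · simp only
          rw [hR] at b2
          linarith
      · obtain ⟨c1, c2, c3, c4⟩ := g5 r hr
        exact ⟨by simpa using c1, by simpa using c2, by simp only; linarith, by simp only; linarith⟩
  · rw [areaL_append, areaL_append, ← add_assoc, g9]
    ring

end Pool.Agent.H180R2.MM
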