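import Pool.Agent.H180R2.MM.Found
import Pool.Agent.H180R2.MM.PotIneq
import Pool.Agent.H180R2.MM.TwoCol
import Pool.Agent.H180R2.MM.Select

/-! Module D: one thin piece is processed. -/

namespace Pool.Agent.H180R2.MM
open Finset

namespace PieceD

theorem sum_ge {A : List ℕ} {f : ℕ → ℝ} {m : ℝ} (h : ∀ n ∈ A, m ≤ f n) :
    m * A.length ≤ (A.map f).sum := by
  induction A with
  | nil => simp
  | cons a A ih =>
    have h1 := h a (by simp)
    have h2 := ih (fun n hn => h n (by simp [hn]))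
    simp only [List.length_cons, List.map_cons, List.sum_cons]
    push_cast
    linarith

theorem slices_le {w b : ℝ} (_hw : 0 ≤ w) (hb : b ≤ w) (hb0 : 0 ≤ b) (Sl : List (ℝ × ℝ))
    (h : ∀ s ∈ Sl, 0 ≤ s.1 ∧ s.1 ≤ b ∧ 0 ≤ s.2 ∧ s.2 ≤ w) :
    PhiL Sl ≤ (Sl.map Prod.snd).sum + 5 * (Sl.length * b) +
      ((Sl.map Prod.snd).sum + Sl.length * b) * √w := by
  induction Sl with
  | nil => simp [PhiL]
  | cons s Sl ih =>
    obtain ⟨h1, h2, h3, h4⟩ := h s (by simp)
    have ih := ih (fun s hs => h s (by simp [hs]))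
    rw [PhiL_cons]
    simp only [List.length_cons, List.map_cons, List.sum_cons]
    have h5 : Phi s ≤ s.2 + 5 * b + (s.2 + b) * √w := by
      unfold Phi
      have e1 : max s.1 s.2 + 5 * min s.1 s.2 ≤ s.2 + 5 * s.1 := by
        rcases le_total s.1 s.2 with hh | hh
        · rw [max_eq_right hh, min_eq_left hh]
        · rw [max_eq_left hh, min_eq_right hh]
          linarith
      have e2 : max s.1 s.2 ≤ s.2 + b := max_le (by linarith) (by linarith)
      have e3 : max s.1 s.2 ≤ w := max_le (by linarith) h4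
      have e4 : √(max s.1 s.2) ≤ √w := Real.sqrt_le_sqrt e3
      have e5 : max s.1 s.2 * √(max s.1 s.2) ≤ (s.2 + b) * √w :=
        mul_le_mul e2 e4 (Real.sqrt_nonneg _) (by linarith)
      linarith
    have h6 : ((Sl.length : ℝ) + 1) * b = Sl.length * b + b := by ring
    push_cast
    rw [h6]
    nlinarith

theorem x_nonneg' {x y : ℕ → ℝ} (hF : Fam x y) {n : ℕ} (hn : 1 ≤ n) : 0 < y n ∧ 0 < x n := by
  have h1 : 0 < y n := lt_of_lt_of_le (by positivity) (hF.lo n hn)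
  exact ⟨h1, lt_of_lt_of_le h1 (hF.le n hn)⟩

theorem core {x y : ℕ → ℝ} (hF : Fam x y) (w h : ℝ) (hw0 : 0 < w) (hwh : w ≤ h)
    (hh : h ≤ 1 / 10 ^ 9) (A B : List ℕ) (hA : A ≠ []) (hB : B ≠ [])
    (hAn : ∀ n ∈ A, 1 ≤ n ∧ 39 / 100 * w ≤ y n ∧ x n ≤ 6 / 10 * w)
    (hBn : ∀ n ∈ B, 1 ≤ n ∧ 39 / 100 * w ≤ y n ∧ x n ≤ 6 / 10 * w)
    (hAB : ∀ p ∈ A, ∀ q ∈ B, x p + x q ≤ w ∧ w - x p - x q ≤ 100 * h * w)
    (hA1 : (A.map y).sum ≤ h) (hA2 : h < (A.map y).sum + 6 / 10 * w)
    (hB1 : (B.map y).sum ≤ h)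
    (hle : (A.map y).sum ≤ (B.map y).sum) :
    ∃ P' : List (ℝ × ℝ), Refines [(w, h)] ((A ++ B).map (sq x y) ++ P') ∧
      (∀ p ∈ P', 0 ≤ p.1 ∧ 0 ≤ p.2 ∧ min p.1 p.2 ≤ 6 / 10 * w) ∧
      PhiL P' ≤ h + 5 * w + h * √h := by
  set HA := (A.map y).sum with hHA
  set HB := (B.map y).sum with hHB
  obtain ⟨a0, A', rfl⟩ := List.exists_cons_of_ne_nil hA
  have ha0 := hAn a0 (by simp)
  have hh0 : 0 < h := lt_of_lt_of_le hw0 hwh
  set A := a0 :: A' with hAd
  set e : ℝ × ℝ := (x a0, HB - HA) with he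
  have hLs : ((A.map (sq x y) ++ [e]).map Prod.snd).sum = HB := by
    rw [List.map_append, List.map_map, List.sum_append]
    have : (Prod.snd ∘ sq x y) = y := rfl
    rw [this, ← hHA]
    simp [he]
  have hRs : ((B.map (sq x y)).map Prod.snd).sum = HB := by
    rw [List.map_map]
    rfl
  have hLmem : ∀ p ∈ A.map (sq x y) ++ [e], (∃ a ∈ A, p.1 = x a) ∧ 0 ≤ p.2 ∧ p.2 ≤ 6 / 10 * w := by
    intro p hp
    rcases List.mem_append.1 hp with hp | hp
    · obtain ⟨a, ha, rfl⟩ := List.mem_map.1 hp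
      have h1 := hAn a ha
      have h2 := x_nonneg' hF h1.1
      exact ⟨⟨a, ha, rfl⟩, h2.1.le, (hF.le a h1.1).trans h1.2.2⟩
    · rw [List.mem_singleton] at hp
      subst hp
      refine ⟨⟨a0, by simp [hAd], rfl⟩, ?_, ?_⟩
      · simp only [he]; linarith
      · simp only [he]; linarith
  have hRmem : ∀ q ∈ B.map (sq x y), (∃ b ∈ B, q.1 = x b) ∧ 0 ≤ q.2 := by
    intro q hq
    obtain ⟨b, hb, rfl⟩ := List.mem_map.1 hq
    exact ⟨⟨b, hb, rfl⟩, (x_nonneg' hF (hBn b hb).1).1.le⟩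
  obtain ⟨Sl, hT, hlen, hsum, hSl⟩ := twoCol w HB (A.map (sq x y) ++ [e]) (B.map (sq x y))
    (by simp) (by simpa using hB)
    (by
      intro p hp
      rcases List.mem_append.1 hp with hp | hp
      · obtain ⟨⟨a, ha, h1⟩, h2, -⟩ := hLmem p hp
        rw [h1]
        exact ⟨(x_nonneg' hF (hAn a ha).1).2.le, h2⟩
      · obtain ⟨⟨b, hb, h1⟩, h2⟩ := hRmem p hp
        rw [h1]
        exact ⟨(x_nonneg' hF (hBn b hb).1).2.le, h2⟩)
    (by
      intro p hp q hq
      obtain ⟨⟨a, ha, h1⟩, -, -⟩ := hLmem p hp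
      obtain ⟨⟨b, hb, h2⟩, -⟩ := hRmem q hq
      rw [h1, h2]
      exact (hAB a ha b hb).1)
    hLs hRs
  have hSl' : ∀ s ∈ Sl, 0 ≤ s.1 ∧ s.1 ≤ 100 * h * w ∧ 0 ≤ s.2 ∧ s.2 ≤ 6 / 10 * w := by
    intro s hs
    obtain ⟨h1, p, hp, q, hq, h2, h3⟩ := hSl s hs
    obtain ⟨⟨a, ha, h4⟩, h5, h6⟩ := hLmem p hp
    obtain ⟨⟨b, hb, h7⟩, -⟩ := hRmem q hq
    rw [h2, h4, h7]
    have h8 := hAB a ha b hb
    exact ⟨by linarith, h8.2, h1, h3.trans h6⟩
  refine ⟨e :: (w, h - HB) :: Sl, ?_, ?_, ?_⟩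
  · have h1 : Refines [(w, h)] [(w, HB), (w, h - HB)] := by
      have h0 : 0 ≤ HB := by
        rw [← hRs]
        apply List.sum_nonneg
        intro z hz
        obtain ⟨q, hq, rfl⟩ := List.mem_map.1 hz
        exact (hRmem q hq).2
      have := Refines.cut (a := w) (b := HB) (c := h - HB) hw0.le h0 (by linarith)
      rwa [add_sub_cancel] at this
    have h2 : Refines [(w, HB), (w, h - HB)]
        ((A.map (sq x y) ++ [e] ++ (B.map (sq x y) ++ Sl)) ++ [(w, h - HB)]) :=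
      Refines.append (P := [(w, HB)]) (Refines.of_tile hT) (Refines.refl _)
    refine (h1.trans h2).trans (Refines.of_perm ?_)
    rw [← Multiset.coe_eq_coe, List.map_append]
    have hcons : (e :: (w, h - HB) :: Sl : List (ℝ × ℝ)) = [e] ++ ([(w, h - HB)] ++ Sl) := rfl
    rw [hcons]
    simp only [← Multiset.coe_add]
    abel
  · intro p hp
    rcases List.mem_cons.1 hp with rfl | hp
    · refine ⟨(x_nonneg' hF ha0.1).2.le, by simp only [he]; linarith, ?_⟩
      exact (min_le_left _ _).trans ha0.2.2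
    rcases List.mem_cons.1 hp with rfl | hp
    · refine ⟨hw0.le, by simp only; linarith, (min_le_right _ _).trans ?_⟩
      simp only
      linarith
    · obtain ⟨h1, h2, h3, h4⟩ := hSl' p hp
      exact ⟨h1, h3, (min_le_right _ _).trans h4⟩
  · rw [PhiL_cons, PhiL_cons]
    -- slices
    have hb : 100 * h * w ≤ w := by
      have : 100 * h ≤ 1 := by linarith [hh, show (1 : ℝ) / 10 ^ 9 ≤ 1 / 100 by norm_num]
      nlinarith
    have hs1 := slices_le hw0.le hb (by positivity) Sl (fun s hs => by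
      obtain ⟨h1, h2, h3, h4⟩ := hSl' s hs
      exact ⟨h1, h2, h3, by linarith⟩)
    rw [hsum] at hs1
    have hA39 := sum_ge (A := A) (f := y) (m := 39 / 100 * w) (fun n hn => (hAn n hn).2.1)
    have hB39 := sum_ge (A := B) (f := y) (m := 39 / 100 * w) (fun n hn => (hBn n hn).2.1)
    have hN : (Sl.length : ℝ) * w ≤ 7 * h := by
      have h1 : (Sl.length : ℝ) ≤ A.length + 1 + B.length := by
        have := hlen
        simp only [List.length_append, List.length_map, List.length_singleton] at this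
        exact_mod_cast this
      have h2 : (Sl.length : ℝ) * w ≤ (A.length + 1 + B.length) * w :=
        mul_le_mul_of_nonneg_right h1 hw0.le
      have h3 : ((A.length : ℝ) + 1 + B.length) * w = A.length * w + w + B.length * w := by ring
      have h4 : 39 / 100 * (A.length * w) ≤ h := by
        calc 39 / 100 * ((A.length : ℝ) * w) = 39 / 100 * w * A.length := by ring
          _ ≤ h := hA39.trans hA1
      have h5 : 39 / 100 * (B.length * w) ≤ h := by
        calc 39 / 100 * ((B.length : ℝ) * w) = 39 / 100 * w * B.length := by ring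
          _ ≤ h := hB39.trans hB1
      linarith
    have hN2 : (Sl.length : ℝ) * (100 * h * w) ≤ 700 * h ^ 2 := by
      calc (Sl.length : ℝ) * (100 * h * w) = 100 * h * (Sl.length * w) := by ring
        _ ≤ 100 * h * (7 * h) := mul_le_mul_of_nonneg_left hN (by positivity)
        _ = 700 * h ^ 2 := by ring
    have hsq0 : 0 ≤ √w := Real.sqrt_nonneg w
    have hs2 : PhiL Sl ≤ h + 3500 * h ^ 2 + √w * (h + 700 * h ^ 2) := by
      have h1 : (HB + Sl.length * (100 * h * w)) * √w ≤ (h + 700 * h ^ 2) * √w :=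
        mul_le_mul_of_nonneg_right (by linarith) hsq0
      linarith
    -- side piece
    have hg : 0 ≤ HB - HA := by linarith
    have hP1 : Phi e ≤ 6 / 10 * w + 5 * (HB - HA) + 48 / 100 * (w * √w) := by
      unfold Phi
      have e1 : max e.1 e.2 ≤ 6 / 10 * w := max_le ha0.2.2 (by simp only [he]; linarith)
      have e2 : min e.1 e.2 ≤ HB - HA := min_le_right _ _
      have e3 : √(max e.1 e.2) ≤ 8 / 10 * √w := by
        rw [Real.sqrt_le_left (by positivity)]
        rw [mul_pow, Real.sq_sqrt hw0.le]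
        linarith
      have e4 : max e.1 e.2 * √(max e.1 e.2) ≤ (6 / 10 * w) * (8 / 10 * √w) :=
        mul_le_mul e1 e3 (Real.sqrt_nonneg _) (by positivity)
      have e5 : (6 / 10 * w) * (8 / 10 * √w) = 48 / 100 * (w * √w) := by ring
      linarith
    -- top piece
    have hP2 : Phi (w, h - HB) ≤ w + 5 * (h - HB) + w * √w := by
      unfold Phi
      have e1 : max w (h - HB) = w := max_eq_left (by linarith)
      have e2 : min w (h - HB) ≤ h - HB := min_le_right _ _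
      simp only
      rw [e1]
      linarith
    have hpot := potIneq w h hw0 hwh hh
    have hww : 0 ≤ w * √w := by positivity
    linarith

theorem Phi_eq (w h : ℝ) (hwh : w ≤ h) : Phi (w, h) = h + 5 * w + h * √h := by
  unfold Phi
  simp only
  rw [max_eq_right hwh, min_eq_left hwh]

end PieceD

open PieceD in
theorem piece {x y : ℕ → ℝ} (hF : Fam x y) : ∃ k0 : ℕ, ∀ k ≥ k0, ∀ d : ℝ × ℝ,
    wk (k + 1) < min d.1 d.2 → min d.1 d.2 ≤ wk k → Phi d ≤ 1 / 10 ^ 9 →
    ∀ U : Finset ℕ, (U.card : ℝ) ≤ 2 ^ k / 10 ^ 6 →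
    ∃ (S : List ℕ) (P' : List (ℝ × ℝ)), S.Nodup ∧
      (∀ n ∈ S, 2 ^ k ≤ n ∧ n < 3 * 2 ^ k ∧ Even n ∧ n ∉ U) ∧
      Refines [d] (S.map (sq x y) ++ P') ∧
      (∀ p ∈ P', 0 ≤ p.1 ∧ 0 ≤ p.2 ∧ min p.1 p.2 ≤ 6 / 10 * min d.1 d.2) ∧
      PhiL P' ≤ Phi d ∧ (S.length : ℝ) ≤ 8 * Phi d * 2 ^ k := by
  obtain ⟨k0, hk0⟩ := select hF
  refine ⟨k0, fun k hk d hd1 hd2 hd3 U hU => ?_⟩
  set w := min d.1 d.2 with hwd
  set h := max d.1 d.2 with hhd
  have hwk : 0 < wk (k + 1) := by unfold wk; positivity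
  have hw0 : 0 < w := hwk.trans hd1
  have hwh : w ≤ h := min_le_max
  have hdp1 : 0 ≤ d.1 := (hw0.trans_le (min_le_left _ _)).le
  have hdp2 : 0 ≤ d.2 := (hw0.trans_le (min_le_right _ _)).le
  have hPhid : Phi d = h + 5 * w + h * √h := by
    unfold Phi
    rw [← hhd, ← hwd]
  have hhP : h ≤ Phi d := max_le_Phi hdp1 hdp2
  have hh : h ≤ 1 / 10 ^ 9 := hhP.trans hd3
  have hRd : Refines [d] [(w, h)] := by
    rcases le_total d.1 d.2 with hc | hc
    · have : (w, h) = d := by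
        rw [hwd, hhd, min_eq_left hc, max_eq_right hc]
      rw [this]
      exact Refines.refl _
    · have : (w, h) = (d.2, d.1) := by
        rw [hwd, hhd, min_eq_right hc, max_eq_left hc]
      rw [this]
      exact Refines.swap d.1 d.2
  obtain ⟨A, B, hnd, hA, hB, hAB, hpair, hA1, hA2, hB1, hB2⟩ := hk0 k hk w h hd1 hd2 hwh hh U hU
  have hone : ∀ n ∈ A ++ B, 1 ≤ n := fun n hn => le_trans Nat.one_le_two_pow (hAB n hn).1
  have hAn : ∀ n ∈ A, 1 ≤ n ∧ 39 / 100 * w ≤ y n ∧ x n ≤ 6 / 10 * w := fun n hn =>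
    ⟨hone n (List.mem_append_left _ hn), (hAB n (List.mem_append_left _ hn)).2.2.2.2⟩
  have hBn : ∀ n ∈ B, 1 ≤ n ∧ 39 / 100 * w ≤ y n ∧ x n ≤ 6 / 10 * w := fun n hn =>
    ⟨hone n (List.mem_append_right _ hn), (hAB n (List.mem_append_right _ hn)).2.2.2.2⟩
  have hcore : ∃ P' : List (ℝ × ℝ), Refines [(w, h)] ((A ++ B).map (sq x y) ++ P') ∧
      (∀ p ∈ P', 0 ≤ p.1 ∧ 0 ≤ p.2 ∧ min p.1 p.2 ≤ 6 / 10 * w) ∧
      PhiL P' ≤ h + 5 * w + h * √h := by
    rcases le_total (A.map y).sum (B.map y).sum with hle | hle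
    · exact core hF w h hw0 hwh hh A B hA hB hAn hBn hpair hA1 hA2 hB1 hle
    · obtain ⟨P', h1, h2, h3⟩ := core hF w h hw0 hwh hh B A hB hA hBn hAn
        (fun p hp q hq => by
          have := hpair q hq p hp
          exact ⟨by linarith, by linarith⟩) hB1 hB2 hA1 hle
      refine ⟨P', h1.trans (Refines.of_perm ?_), h2, h3⟩
      exact ((List.perm_append_comm).map _).append_right _
  obtain ⟨P', h1, h2, h3⟩ := hcore
  refine ⟨A ++ B, P', hnd, fun n hn => ?_, hRd.trans h1, h2, ?_, ?_⟩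
  · have := hAB n hn
    exact ⟨this.1, this.2.1, this.2.2.1, this.2.2.2.1⟩
  · rw [hPhid]
    exact h3
  · have hA39 := sum_ge (A := A) (f := y) (m := 39 / 100 * w) (fun n hn => (hAn n hn).2.1)
    have hB39 := sum_ge (A := B) (f := y) (m := 39 / 100 * w) (fun n hn => (hBn n hn).2.1)
    rw [List.length_append]
    push_cast
    have h4 : 39 / 100 * (w * ((A.length : ℝ) + B.length)) ≤ 2 * h := by
      calc 39 / 100 * (w * ((A.length : ℝ) + B.length)) =
          39 / 100 * w * A.length + 39 / 100 * w * B.length := by ring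
        _ ≤ 2 * h := by linarith
    have h5 : (5 / 6) / 2 ^ k ≤ w := by
      refine le_trans (le_of_eq ?_) hd1.le
      unfold wk
      rw [pow_succ]
      field_simp
      norm_num
    have p2 : (0 : ℝ) < 2 ^ k := by positivity
    have h6 : (5 / 6) / 2 ^ k * ((A.length : ℝ) + B.length) ≤ w * ((A.length : ℝ) + B.length) :=
      mul_le_mul_of_nonneg_right h5 (by positivity)
    have h7 : (A.length : ℝ) + B.length = (5 / 6) / 2 ^ k * ((A.length : ℝ) + B.length) *
        (6 / 5 * 2 ^ k) := by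
      field_simp
    rw [h7]
    have h8 : (5 / 6) / 2 ^ k * ((A.length : ℝ) + B.length) ≤ 200 / 39 * h := by linarith
    calc (5 / 6) / 2 ^ k * ((A.length : ℝ) + B.length) * (6 / 5 * 2 ^ k)
        ≤ 200 / 39 * h * (6 / 5 * 2 ^ k) := mul_le_mul_of_nonneg_right h8 (by positivity)
      _ = (240 / 39) * h * 2 ^ k := by ring
      _ ≤ 8 * Phi d * 2 ^ k := by
          apply mul_le_mul_of_nonneg_right _ p2.le
          have : 0 ≤ h := hw0.le.trans hwh
          linarith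

end Pool.Agent.H180R2.MM
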